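import Pool.Agent.Lib.HS.Main

/-!
HS (all superelliptic curves over a global function field, MP_950c68_ag), module Asm.
The family theorem, from the theorem on the twists of one curve over the field of constants: the
hypotheses of the latter for the polynomials `pol r b` which have the symmetric group.
-/

set_option autoImplicit false

open Polynomial

namespace Pool.Agent.HS

open Pool.Agent.SmS (CopDeg)
open Pool.Agent.SmS.Fn (Tws twf GoodJ TwLE GalOk)
open Pool.Agent.SmN.Fnl (cst finite_cst trdeg_cst essFinite_cst)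

theorem factorial_ne_zero_of_lt {k : Type} [Field k] [Finite k] {n l : ℕ} (hl : 2 ≤ l)
    (hp : n * (l - 1) < ringChar k) : (n.factorial : k) ≠ 0 := by
  have h1 : ringChar k ≠ 0 := (CharP.char_ne_zero_of_finite k (ringChar k))
  have h2 : (ringChar k).Prime := by
    rcases CharP.char_is_prime_or_zero k (ringChar k) with h | h
    · exact h
    · exact absurd h h1
  intro h
  rw [ringChar.spec] at h
  have h3 := h2.dvd_factorial.1 h
  have h4 : n ≤ n * (l - 1) := Nat.le_mul_of_pos_right n (by omega)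
  omega

theorem fam_of_thm (k K : Type) [Field k] [Finite k] [Field K] [Algebra k K]
    [Algebra.EssFiniteType k K] (hK : Algebra.trdeg k K = 1) {l : ℕ} [Fact l.Prime] (hl : l ≠ 2)
    (hT : ∀ (f : K[X]) [CopDeg l f], f.Monic → f.Separable → 2 ≤ f.natDegree →
      f.natDegree * (l - 1) < ringChar (cst k K) → GalOk l f →
      (∀ N, (TwLE (cst k K) l N (fun _ : Kˣ => True)).Finite) ∧
      ∀ ε : ℝ, 0 < ε → ∃ B N₀ : ℕ, ∀ N ≥ N₀,
        ((TwLE (cst k K) l N (fun D => ¬ GoodJ (cst k K) l (twf D f) B)).ncard : ℝ) ≤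
          ε * (TwLE (cst k K) l N (fun _ : Kˣ => True)).ncard)
    {r : ℕ} (hr : 1 ≤ r) (hlr : l.Coprime (r + 1)) (hp : (r + 1) * (l - 1) < ringChar k) :
    (∀ M N, (Fam k K l r M N fun _ => True).Finite) ∧
    ∀ ε : ℝ, 0 < ε → ∃ M₀ : ℕ, ∀ M ≥ M₀, ∃ B N₀ : ℕ, ∀ N ≥ N₀,
      0 < (Fam k K l r M N fun _ => True).ncard ∧
      ((Fam k K l r M N fun a => ¬ GoodL k l (pol r a) B).ncard : ℝ) ≤
        ε * (Fam k K l r M N fun _ => True).ncard := by
  have h2 := (Fact.out : l.Prime).two_le
  refine fam_of_twists k K hK hl hr hlr (factorial_ne_zero_of_lt h2 hp) fun b _ hb hg => ?_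
  have h3 : ringChar (cst k K) = ringChar k := (Algebra.ringChar_eq k (cst k K)).symm
  refine (hT (pol r b) (pol_monic r b) hb ?_ ?_ (Or.inl ?_)).2
  · rw [natDegree_pol]
    omega
  · rw [natDegree_pol, h3]
    exact hp
  · rw [natDegree_pol]
    exact hg.gal

end Pool.Agent.HS
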