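import Pool.Agent.Lib.HS.Defs
import Pool.Agent.Lib.HA.Cnt
import Pool.Agent.Lib.SmL.K.Lower
import Pool.Agent.Lib.SmBU.PlcK
import Pool.Agent.Lib.SmL.Fnl.Tot

/-!
HS (all superelliptic curves over a global function field, MP_950c68_ag), module Cnt.
The number of the twist classes: between `c N ^ (l - 2) q ^ N` and `C N ^ (l - 2) q ^ N`, with constants which do not
depend on `O`.

PROOF (compare `HA/Cnt.lean`, the case `l = 2`). For `d : Kˣ` let `e_d : Place → ZMod l`, `e_d v = O v - ord v d`, a finitely supported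
function, `ramO k l O d` = the degree of its support. (1) `e_d = e_d'` iff `l ∣ ord v (d / d')` for all `v`; the
classes in `Kˣ / Kˣˡ` of the `d` with `l ∣ ord v d` for all `v` are a finite group `X` (units of `k` modulo `l`, and the `l`-torsion of `Pic`; as
`cnt_X_fin` in `HA/Cnt.lean`). So `#TwO ≤ #X #{e : deg supp e ≤ N}`. (2) Let `T` be a finite set of places which generate
`Pic` modulo `l Pic` (`Pic/l` is finite; `exists_reps_deg` of `HA/Move.lean` or the corresponding lemmas used in `cnt_low`): for every `e'` with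
support outside of `T` there is `d` with `e_d = e'` outside of `T`; different `e'` have different classes of `d`. So with
`t = ∑ (deg v, v ∈ T)`: `#{e' : Place \ T →₀ ZMod l, deg supp e' ≤ N - t} ≤ #TwO ≤ #X l ^ #T #{e' : deg supp e' ≤ N}`.
(3) For the prime system `X' : SmL.PSys`, the places outside of `T` (`X'.Ok q`, `q = #k`: see `SmNJ/XOkP.lean`, `SmBU/PlcK.lean`; `hk`: `k` is the field of
constants), `#{e' : deg supp e' = n} = X'.nTD l n`. Lower bound `X'.dd_of` (`SmL/K/Lower.lean`). Upper bound: `nTD_eq`, `Sz_le` and `mertens`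
(`SmL/K/Rankin.lean`) with `z = l - 1`: `nTD l n ≤ C q ^ n / n * exp ((l - 1) (log n + C')) = C'' n ^ (l - 2) q ^ n`. Sum over `n ≤ N`.
`finite_TwO`: by (1), or as in `HA/Cnt.lean`.
-/

set_option autoImplicit false

open Polynomial

namespace Pool.Agent.HS

open Pool.Agent.BSDFF Pool.Agent.GBC Pool.Agent.GBU
open Pool.Agent.SmS.Fn (Tws)

variable {k K : Type} [Field k] [Field K] [Algebra k K]
variable [Finite k] [Algebra (RatFunc k) K] [IsScalarTower k (RatFunc k) K]
  [FiniteDimensional (RatFunc k) K] [Algebra.IsSeparable (RatFunc k) K]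

section aux

open Pool.Agent.SmL.Fnl (Out dS)

omit [Finite k] [Algebra (RatFunc k) K] [IsScalarTower k (RatFunc k) K]
  [FiniteDimensional (RatFunc k) K] [Algebra.IsSeparable (RatFunc k) K]

/-- The exponents modulo `l`. -/
private noncomputable def cntE (l : ℕ) (O : Place k K → ℤ) (d : K) (v : Place k K) : ZMod l :=
  ((O v - ord v d : ℤ) : ZMod l)

private theorem cntE_eq_zero {l : ℕ} {O : Place k K → ℤ} {d : K} {v : Place k K} :
    cntE l O d v = 0 ↔ (l : ℤ) ∣ O v - ord v d := ZMod.intCast_zmod_eq_zero_iff_dvd _ _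

private theorem cntE_fin (l : ℕ) (G : Geo k K) {O : Place k K → ℤ}
    (hO : (Function.support O).Finite) {d : K} (hd : d ≠ 0) :
    {v | cntE l O d v ≠ 0}.Finite := by
  refine (hO.union (ord_finite G hd)).subset fun v hv => ?_
  by_contra hcon
  rw [Set.mem_union, not_or] at hcon
  apply hv
  have h1 : ord v d = 0 := by
    by_contra h
    exact hcon.2 h
  have h2 : O v = 0 := by
    by_contra h
    exact hcon.1 h
  rw [cntE, h1, h2, sub_zero, Int.cast_zero]

private theorem cnt_ram {l : ℕ} {O : Place k K → ℤ} {d : K}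
    (h : {v | cntE l O d v ≠ 0}.Finite) :
    ramO k l O d = ∑ v ∈ h.toFinset, v.degree := by
  classical
  unfold ramO
  rw [finsum_eq_sum_of_support_subset (s := h.toFinset)]
  · refine Finset.sum_congr rfl fun v hv => ?_
    rw [if_neg]
    rw [← cntE_eq_zero]
    exact h.mem_toFinset.1 hv
  · intro v hv
    rw [Finset.mem_coe, Set.Finite.mem_toFinset]
    intro hcon
    apply hv
    dsimp only
    rw [if_pos (cntE_eq_zero.1 hcon)]

/-- The exponents depend on the class only. -/
private theorem cnt_congr {l : ℕ} (O : Place k K → ℤ) {d e : Kˣ}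
    (h : (d : Tws l K) = (e : Tws l K)) : cntE l O (d : K) = cntE l O (e : K) := by
  rw [QuotientGroup.eq] at h
  obtain ⟨u, hu⟩ := h
  have h1 : (e : K) = d * (u : K) ^ l := by
    have h2 : e = d * u ^ l := by
      have h3 : u ^ l = d⁻¹ * e := hu
      rw [h3, mul_inv_cancel_left]
    rw [h2, Units.val_mul, Units.val_pow_eq_pow_val]
  funext v
  rw [cntE, cntE, h1, ord_mul v d.ne_zero (pow_ne_zero _ u.ne_zero), ord_pow v u.ne_zero]
  push_cast
  rw [CharP.cast_eq_zero, zero_mul, add_zero]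

/-- The classes of order divisible by `l` everywhere. -/
private def cntX (l : ℕ) (k K : Type) [Field k] [Field K] [Algebra k K] : Set (Tws l K) :=
  {c | ∃ u : Kˣ, (u : Tws l K) = c ∧ ∀ w : Place k K, (l : ℤ) ∣ ord w (u : K)}

private theorem cnt_X_fin [Finite k] {l : ℕ} (hl : 1 ≤ l) (G : Geo k K) :
    (cntX l k K).Finite := by
  classical
  have hl0 : (l : ℤ) ≠ 0 := by exact_mod_cast (by omega : l ≠ 0)
  obtain ⟨R, hR, hR'⟩ := exists_reps G
  have h1 : (⋃ E ∈ R, {x : K | x ∈ LL (-((l : ℤ) • E))}).Finite := by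
    refine hR.biUnion fun E _ => ?_
    have := LL_finite G (-((l : ℤ) • E))
    have h2 : Finite (LL (-((l : ℤ) • E))) := Module.finite_of_finite k
    exact h2
  have h2 : ({u : Kˣ | (u : K) ∈ ⋃ E ∈ R, {x : K | x ∈ LL (-((l : ℤ) • E))}}).Finite :=
    h1.preimage (fun a _ b _ h => Units.ext h)
  refine (h2.image (fun u : Kˣ => (u : Tws l K))).subset ?_
  rintro c ⟨u, rfl, hu⟩
  obtain ⟨F, hF⟩ := exists_pdiv G u.ne_zero
  let D : Place k K →₀ ℤ := F.mapRange (fun n => n / (l : ℤ)) (Int.zero_ediv _)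
  have hD : ∀ w, D w = F w / (l : ℤ) := fun w => rfl
  have hD2 : F = (l : ℤ) • D := by
    ext w
    rw [Finsupp.smul_apply, hD w, smul_eq_mul]
    have h3 := hu w
    rw [← hF w] at h3
    exact (Int.mul_ediv_cancel' h3).symm
  have hdeg : degD D = 0 := by
    have h3 : degD F = 0 := degD_prin G ⟨u, u.ne_zero, hF⟩
    rw [hD2, degD_zsmul] at h3
    exact (mul_eq_zero.1 h3).resolve_left hl0
  obtain ⟨E, hE, y, hy, hyE⟩ := hR' D hdeg
  refine ⟨u * (Units.mk0 y hy ^ l)⁻¹, ?_, ?_⟩
  · change ((u * (Units.mk0 y hy ^ l)⁻¹ : Kˣ) : K) ∈ ⋃ E ∈ R, {x : K | x ∈ LL (-((l : ℤ) • E))}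
    rw [Set.mem_iUnion₂]
    refine ⟨E, hE, ?_⟩
    change ((u * (Units.mk0 y hy ^ l)⁻¹ : Kˣ) : K) ∈ LL (-((l : ℤ) • E))
    rw [mem_LL_iff (Units.ne_zero _)]
    intro w
    rw [Units.val_mul, Units.val_inv_eq_inv_val, Units.val_pow_eq_pow_val, Units.val_mk0,
      ord_mul w u.ne_zero (inv_ne_zero (pow_ne_zero _ hy)), ord_inv w (pow_ne_zero _ hy),
      ord_pow w hy, ← hyE w, ← hF w, hD2]
    simp only [Finsupp.neg_apply, Finsupp.smul_apply, Finsupp.sub_apply, smul_eq_mul, neg_neg]
    refine le_of_eq ?_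
    ring
  · change ((u * (Units.mk0 y hy ^ l)⁻¹ : Kˣ) : Tws l K) = (u : Tws l K)
    rw [QuotientGroup.eq]
    refine ⟨Units.mk0 y hy, ?_⟩
    change Units.mk0 y hy ^ l = _
    rw [mul_inv_rev, inv_inv, mul_assoc, inv_mul_cancel, mul_one]

private theorem cnt_sub {l : ℕ} {O : Place k K → ℤ} {d e : Kˣ}
    (h : cntE l O (d : K) = cntE l O (e : K)) : ((d * e⁻¹ : Kˣ) : Tws l K) ∈ cntX l k K := by
  refine ⟨d * e⁻¹, rfl, fun w => ?_⟩
  rw [Units.val_mul, Units.val_inv_eq_inv_val, ord_mul w d.ne_zero (inv_ne_zero e.ne_zero),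
    ord_inv w e.ne_zero, ← sub_eq_add_neg]
  have h1 := congrFun h w
  rw [cntE, cntE, ZMod.intCast_eq_intCast_iff_dvd_sub] at h1
  have h2 : (O w - ord w (e : K)) - (O w - ord w (d : K)) = ord w (d : K) - ord w (e : K) := by
    ring
  rwa [h2] at h1

/-- Counting with fibres. -/
private theorem cnt_fib {α β : Type} [Group α] (F : α → β) {X : Set α} (hX : X.Finite)
    (hF : ∀ a b, F a = F b → a * b⁻¹ ∈ X) {W : Set α} {A : Set β} (hA : A.Finite)
    (hWA : ∀ c ∈ W, F c ∈ A) : W.Finite ∧ W.ncard ≤ X.ncard * A.ncard := by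
  classical
  have hfib : ∀ b, (W ∩ F ⁻¹' {b}).Finite ∧ (W ∩ F ⁻¹' {b}).ncard ≤ X.ncard := by
    intro b
    rcases (W ∩ F ⁻¹' {b}).eq_empty_or_nonempty with h0 | ⟨c0, hc0⟩
    · rw [h0]
      exact ⟨Set.finite_empty, by rw [Set.ncard_empty]; exact Nat.zero_le _⟩
    · have hsub : (fun c => c * c0⁻¹) '' (W ∩ F ⁻¹' {b}) ⊆ X := by
        rintro _ ⟨c, hc, rfl⟩
        refine hF c c0 ?_
        have h2 : F c = b := hc.2
        have h3 : F c0 = b := hc0.2
        rw [h2, h3]
      have hinj : Function.Injective fun c : α => c * c0⁻¹ := by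
        intro a b h
        have h' : a * c0⁻¹ = b * c0⁻¹ := h
        rw [← inv_mul_cancel_right a c0, h', inv_mul_cancel_right]
      have hf : ((fun c => c * c0⁻¹) '' (W ∩ F ⁻¹' {b})).Finite := hX.subset hsub
      refine ⟨Set.Finite.of_finite_image hf hinj.injOn, ?_⟩
      rw [← Set.ncard_image_of_injective _ hinj]
      exact Set.ncard_le_ncard hsub hX
  have himg : (F '' W) ⊆ A := by
    rintro _ ⟨c, hc, rfl⟩
    exact hWA c hc
  have hWf : W.Finite := Set.Finite.of_finite_fibers F (hA.subset himg) fun b _ => (hfib b).1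
  refine ⟨hWf, ?_⟩
  rw [Set.ncard_eq_toFinset_card W hWf]
  refine (Finset.card_le_mul_card_image (f := F) hWf.toFinset X.ncard ?_).trans
    (Nat.mul_le_mul_left _ ?_)
  · intro b _
    have h1 := (hfib b).2
    rw [Set.ncard_eq_toFinset_card _ (hfib b).1] at h1
    refine le_trans (Finset.card_le_card fun c hc => ?_) h1
    rw [Finset.mem_filter, Set.Finite.mem_toFinset] at hc
    rw [Set.Finite.mem_toFinset]
    exact ⟨hc.1, hc.2⟩
  · rw [← Set.ncard_coe_finset]
    refine Set.ncard_le_ncard ?_ hA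
    intro b hb
    rw [Finset.mem_coe, Finset.mem_image] at hb
    obtain ⟨c, hc, rfl⟩ := hb
    exact hWA c (hWf.mem_toFinset.1 hc)

/-- The exponents of a class as a finitely supported function. -/
private noncomputable def cntF (l : ℕ) (G : Geo k K) {O : Place k K → ℤ}
    (hO : (Function.support O).Finite) (c : Tws l K) :
    Out (∅ : Set (Place k K)) →₀ ZMod l :=
  Finsupp.ofSupportFinite (fun P => cntE l O ((Quotient.out c : Kˣ) : K) P.1)
    ((cntE_fin l G hO (Quotient.out c : Kˣ).ne_zero).preimage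
      (f := (Subtype.val : Out (∅ : Set (Place k K)) → Place k K)) Subtype.val_injective.injOn)

private theorem cntF_apply (l : ℕ) (G : Geo k K) {O : Place k K → ℤ}
    (hO : (Function.support O).Finite) (d : Kˣ) (P : Out (∅ : Set (Place k K))) :
    cntF l G hO (d : Tws l K) P = cntE l O (d : K) P.1 := by
  have h1 : ((Quotient.out (d : Tws l K) : Kˣ) : Tws l K) = (d : Tws l K) := Quotient.out_eq _
  have h2 := cnt_congr O h1
  change cntE l O ((Quotient.out (d : Tws l K) : Kˣ) : K) P.1 = _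
  rw [h2]

private theorem cntF_deg (l : ℕ) (G : Geo k K) {O : Place k K → ℤ}
    (hO : (Function.support O).Finite) (d : Kˣ) :
    dS Place.degree (cntF l G hO (d : Tws l K)).support = ramO k l O (d : K) := by
  classical
  rw [cnt_ram (cntE_fin l G hO d.ne_zero), dS,
    ← Finset.sum_image (f := Place.degree) (g := fun P : Out (∅ : Set (Place k K)) => P.1)
      fun P _ Q _ h => Subtype.ext h]
  refine Finset.sum_congr ?_ fun _ _ => rfl
  ext v
  rw [Set.Finite.mem_toFinset, Finset.mem_image]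
  constructor
  · rintro ⟨P, hP, rfl⟩
    rw [Finsupp.mem_support_iff, cntF_apply] at hP
    exact hP
  · intro hv
    refine ⟨⟨v, fun h => h⟩, ?_, rfl⟩
    rw [Finsupp.mem_support_iff, cntF_apply]
    exact hv

private theorem cntF_inj {l : ℕ} (G : Geo k K) {O : Place k K → ℤ}
    (hO : (Function.support O).Finite) (a b : Tws l K)
    (h : cntF l G hO a = cntF l G hO b) : a * b⁻¹ ∈ cntX l k K := by
  obtain ⟨d, rfl⟩ := QuotientGroup.mk_surjective a
  obtain ⟨e, rfl⟩ := QuotientGroup.mk_surjective b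
  have h2 : cntE l O (d : K) = cntE l O (e : K) := by
    funext v
    have h3 := DFunLike.congr_fun h ⟨v, fun h => h⟩
    rw [cntF_apply, cntF_apply] at h3
    exact h3
  exact cnt_sub h2

/-- The exponents with support of degree at most `N`. -/
private def cntA (l : ℕ) (k K : Type) [Field k] [Field K] [Algebra k K] (N : ℕ) :
    Set (Out (∅ : Set (Place k K)) →₀ ZMod l) := {d | dS Place.degree d.support ≤ N}

private theorem cntA_fin [Finite k] {l : ℕ} [NeZero l] (G : Geo k K) (N : ℕ) :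
    (cntA l k K N).Finite := by
  classical
  have h1 : {w : Place k K | w.degree ≤ N}.Finite := finite_deg_le G N
  have h2 := h1.to_subtype
  refine Set.Finite.of_finite_image (f := fun (d : Out (∅ : Set (Place k K)) →₀ ZMod l)
    (w : {w : Place k K | w.degree ≤ N}) => d ⟨w.1, fun h => h⟩) (Set.toFinite _) ?_
  intro d hd e he h
  have key : ∀ d ∈ cntA l k K N, ∀ P : Out (∅ : Set (Place k K)), ¬ P.1.degree ≤ N → d P = 0 := by
    intro d hd P hP
    by_contra h0
    apply hP
    have h3 : P ∈ d.support := Finsupp.mem_support_iff.2 h0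
    exact (Finset.single_le_sum (f := fun P : Out (∅ : Set (Place k K)) => P.1.degree)
      (fun _ _ => Nat.zero_le _) h3).trans hd
  ext P
  by_cases hP : P.1.degree ≤ N
  · exact congrFun h ⟨P.1, hP⟩
  · rw [key d hd P hP, key e he P hP]

private theorem cnt_up {l : ℕ} {q n₀ : ℕ} {c C : ℝ}
    (hG : SmL.Fnl.Growth l (∅ : Set (Place k K)) Place.degree q c C n₀) {N : ℕ} (hN : 1 ≤ N) :
    ((cntA l k K N).ncard : ℝ) ≤ 2 * C * ((N : ℝ) ^ (l - 2) * (q : ℝ) ^ N) := by
  classical
  have hq : (2 : ℝ) ≤ q := by exact_mod_cast hG.two_le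
  have h1 : cntA l k K N ⊆ ⋃ m ∈ Finset.range (N + 1),
      {d : Out (∅ : Set (Place k K)) →₀ ZMod l | dS Place.degree d.support = m} := by
    intro d hd
    rw [Set.mem_iUnion₂]
    exact ⟨_, Finset.mem_range.2 (Nat.lt_succ_of_le hd), rfl⟩
  have h2 : (⋃ m ∈ Finset.range (N + 1),
      {d : Out (∅ : Set (Place k K)) →₀ ZMod l | dS Place.degree d.support = m}).Finite := by
    refine Set.Finite.biUnion (Finset.finite_toSet _) fun m _ => ?_
    exact hG.fin m
  have h3 := (Set.ncard_le_ncard h1 h2).trans (Finset.set_ncard_biUnion_le _ _)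
  have h4 : ((cntA l k K N).ncard : ℝ) ≤ ∑ m ∈ Finset.range (N + 1),
      C * (N : ℝ) ^ (l - 2) * (q : ℝ) ^ m := by
    have h3' : ((cntA l k K N).ncard : ℝ) ≤ ∑ m ∈ Finset.range (N + 1),
        (({d : Out (∅ : Set (Place k K)) →₀ ZMod l | dS Place.degree d.support = m}.ncard : ℕ) :
          ℝ) := by exact_mod_cast h3
    refine h3'.trans ?_
    refine Finset.sum_le_sum fun m hm => ?_
    rw [Finset.mem_range] at hm
    have h5 := hG.up m N (by omega) hN
    rw [← Nat.card_coe_set_eq]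
    exact h5
  refine h4.trans ?_
  rw [← Finset.mul_sum]
  have hgeo : ∀ n : ℕ, ∑ i ∈ Finset.range (n + 1), (q : ℝ) ^ i ≤ 2 * (q : ℝ) ^ n := by
    intro n
    induction n with
    | zero => simp
    | succ n ih =>
      rw [Finset.sum_range_succ]
      have h1 : 2 * (q : ℝ) ^ n ≤ (q : ℝ) ^ (n + 1) := by
        rw [pow_succ, mul_comm]
        exact mul_le_mul_of_nonneg_left hq (by positivity)
      linarith
  have hC : 0 ≤ C * (N : ℝ) ^ (l - 2) := by
    have h6 := hG.up 0 N (Nat.zero_le _) hN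
    rw [pow_zero, mul_one] at h6
    exact (Nat.cast_nonneg _).trans h6
  calc C * (N : ℝ) ^ (l - 2) * ∑ i ∈ Finset.range (N + 1), (q : ℝ) ^ i
      ≤ C * (N : ℝ) ^ (l - 2) * (2 * (q : ℝ) ^ N) := mul_le_mul_of_nonneg_left (hgeo N) hC
    _ = _ := by ring

/-- The lower bound. -/
private theorem cnt_low {l : ℕ} (hl : 1 ≤ l) (G : Geo k K) {T : Set (Place k K)} (hT : T.Finite)
    (hP : PrinOut T) {O : Place k K → ℤ} (hO : (Function.support O).Finite) {n N : ℕ}
    (hfin : (TwO k l O N fun _ => True).Finite) (hN : n + ∑ v ∈ hT.toFinset, v.degree ≤ N) :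
    Nat.card {d : Out T →₀ ZMod l // dS Place.degree d.support = n} ≤
      (TwO k l O N fun _ => True).ncard := by
  classical
  have : NeZero l := ⟨by omega⟩
  have hx : ∀ e : Out T →₀ ZMod l, ∃ x : K, x ≠ 0 ∧ ∀ w : Out T, cntE l O x w.1 = e w := by
    intro e
    have hfs : (Function.support fun w : Place k K =>
        if h : w ∉ T then O w - ((e ⟨w, h⟩).val : ℤ) else 0).Finite := by
      refine (hO.union ((e.support.image Subtype.val).finite_toSet)).subset fun w hw => ?_
      by_contra hcon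
      rw [Set.mem_union, not_or] at hcon
      apply hw
      by_cases h : w ∉ T
      · have h2 : O w = 0 := by
          by_contra h'
          exact hcon.1 h'
        have h3 : e ⟨w, h⟩ = 0 := by
          by_contra h'
          refine hcon.2 ?_
          rw [Finset.mem_coe]
          exact Finset.mem_image_of_mem Subtype.val (Finsupp.mem_support_iff.2 h')
        refine (dif_pos h).trans ?_
        rw [h2, h3, ZMod.val_zero]
        rfl
      · exact dif_neg h
    obtain ⟨x, hx, hx'⟩ := hP (Finsupp.ofSupportFinite _ hfs)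
    refine ⟨x, hx, fun w => ?_⟩
    have h4 : ord w.1 x = O w.1 - ((e w).val : ℤ) := by
      rw [hx' w.1 w.2]
      exact dif_pos w.2
    rw [cntE, h4, sub_sub_cancel, Int.cast_natCast, ZMod.natCast_val, ZMod.cast_id]
  choose x hx hx' using hx
  let f : {d : Out T →₀ ZMod l // dS Place.degree d.support = n} → Tws l K := fun d =>
    ((Units.mk0 (x d.1) (hx d.1) : Kˣ) : Tws l K)
  have hmem : ∀ d, f d ∈ TwO k l O N fun _ => True := by
    intro d
    refine ⟨_, rfl, ?_, trivial⟩
    have h0 : ((Units.mk0 (x d.1) (hx d.1) : Kˣ) : K) = x d.1 := rfl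
    rw [h0]
    have hfS := cntE_fin l G hO (hx d.1)
    rw [cnt_ram hfS]
    have h1 : hfS.toFinset ⊆ (d.1.support.image Subtype.val) ∪ hT.toFinset := by
      intro w hw
      rw [Set.Finite.mem_toFinset] at hw
      rw [Finset.mem_union, Set.Finite.mem_toFinset]
      by_cases h : w ∈ T
      · exact Or.inr h
      · refine Or.inl (Finset.mem_image.2 ⟨⟨w, h⟩, ?_, rfl⟩)
        rw [Finsupp.mem_support_iff, ← hx' d.1 ⟨w, h⟩]
        exact hw
    refine (Finset.sum_le_sum_of_subset h1).trans ?_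
    have h3 := Finset.sum_union_inter (s₁ := d.1.support.image Subtype.val) (s₂ := hT.toFinset)
      (f := fun v : Place k K => v.degree)
    rw [Finset.sum_image fun a _ b _ h => Subtype.ext h] at h3
    change _ = (∑ v ∈ d.1.support, (v : Place k K).degree) + _ at h3
    have h2 : ∑ v ∈ d.1.support, (v : Place k K).degree = n := d.2
    omega
  have hinj : Function.Injective f := by
    intro d d' h
    have h1 := cnt_congr O h
    have h2 : cntE l O (x d.1) = cntE l O (x d'.1) := h1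
    apply Subtype.ext
    ext w
    rw [← hx' d.1, ← hx' d'.1, h2]
  rw [← Nat.card_coe_set_eq]
  have := hfin.to_subtype
  exact Nat.card_le_card_of_injective (fun d => (⟨f d, hmem d⟩ : (TwO k l O N fun _ => True : Set _)))
    fun d d' h => hinj (congrArg Subtype.val h)

end aux

theorem finite_TwO {l : ℕ} (hl : l.Prime) {O : Place k K → ℤ} (hO : (Function.support O).Finite)
    (N : ℕ) : (TwO k l O N fun _ => True).Finite := by
  obtain ⟨G, -⟩ := exists_geo k K
  have : NeZero l := ⟨hl.ne_zero⟩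
  refine (cnt_fib (cntF l G hO) (cnt_X_fin hl.one_lt.le G) (cntF_inj G hO)
    (cntA_fin G N) ?_).1
  rintro _ ⟨d, rfl, hd, -⟩
  change SmL.Fnl.dS Place.degree (cntF l G hO (d : Tws l K)).support ≤ N
  rwa [cntF_deg]

theorem TwO_bounds {l : ℕ} (hl : l.Prime)
    (hk : ∀ x : K, IsIntegral k x → ∃ c : k, algebraMap k K c = x) :
    ∃ c C : ℝ, 0 < c ∧ 0 < C ∧ ∃ N₀ : ℕ, ∀ O : Place k K → ℤ, (Function.support O).Finite →
      ∀ N ≥ N₀, c * ((N : ℝ) ^ (l - 2) * (Nat.card k : ℝ) ^ N) ≤
        (TwO k l O N fun _ => True).ncard ∧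
      ((TwO k l O N fun _ => True).ncard : ℝ) ≤
        C * ((N : ℝ) ^ (l - 2) * (Nat.card k : ℝ) ^ N) := by
  classical
  have : NeZero l := ⟨hl.ne_zero⟩
  obtain ⟨G, -⟩ := exists_geo k K
  obtain ⟨T, hT, -, -, hP⟩ := exists_S G ∅ Set.finite_empty
  have hX : ∀ {T : Set (Place k K)}, T.Finite → (SmL.Ch.XX T Place.degree).Ok (Nat.card k) := by
    intro T hT
    have h := SmNJ.xok k K hk hT
    exact ⟨h.two_le, h.pos, h.fin, h.pnt⟩
  obtain ⟨c, C, n₀, hG⟩ := SmL.Fnl.growth_of hl.two_le (hX hT)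
  obtain ⟨c', C', n₁, hG'⟩ := SmL.Fnl.growth_of hl.two_le
    (hX (Set.finite_empty : (∅ : Set (Place k K)).Finite))
  set τ : ℕ := ∑ v ∈ hT.toFinset, v.degree with hτ
  set κ : ℕ := (cntX l k K).ncard with hκ
  have hq : (0 : ℝ) < Nat.card k := by exact_mod_cast Nat.card_pos (α := k)
  have hc := hG.pos
  refine ⟨c / (2 ^ (l - 2) * (Nat.card k : ℝ) ^ τ), |κ * (2 * C')| + 1, by positivity,
    by positivity, n₀ + 2 * τ + 1, fun O hO N hN => ⟨?_, ?_⟩⟩
  · have h1 := cnt_low hl.one_lt.le G hT hP hO (n := N - τ) (N := N) (finite_TwO hl hO N) (by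
      rw [← hτ]
      omega)
    have h3 := hG.low (N - τ) (by omega)
    have h4 : (N : ℝ) ^ (l - 2) ≤ 2 ^ (l - 2) * ((N - τ : ℕ) : ℝ) ^ (l - 2) := by
      rw [← mul_pow]
      refine pow_le_pow_left₀ (Nat.cast_nonneg _) ?_ _
      have : N ≤ 2 * (N - τ) := by omega
      exact_mod_cast this
    have h5 : (Nat.card k : ℝ) ^ N = (Nat.card k : ℝ) ^ (N - τ) * (Nat.card k : ℝ) ^ τ := by
      rw [← pow_add, Nat.sub_add_cancel (by omega)]
    calc c / (2 ^ (l - 2) * (Nat.card k : ℝ) ^ τ) * ((N : ℝ) ^ (l - 2) * (Nat.card k : ℝ) ^ N)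
        ≤ c / (2 ^ (l - 2) * (Nat.card k : ℝ) ^ τ) *
          (2 ^ (l - 2) * ((N - τ : ℕ) : ℝ) ^ (l - 2) * (Nat.card k : ℝ) ^ N) := by
          refine mul_le_mul_of_nonneg_left ?_ (by positivity)
          exact mul_le_mul_of_nonneg_right h4 (by positivity)
      _ = c * ((N - τ : ℕ) : ℝ) ^ (l - 2) * (Nat.card k : ℝ) ^ (N - τ) := by
          rw [h5]
          field_simp
      _ ≤ _ := h3
      _ ≤ _ := by exact_mod_cast h1
  · have h1 := (cnt_fib (cntF l G hO) (cnt_X_fin hl.one_lt.le G) (cntF_inj G hO)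
      (W := TwO k l O N fun _ => True) (cntA_fin G N) (by
      rintro _ ⟨d, rfl, hd, -⟩
      change SmL.Fnl.dS Place.degree (cntF l G hO (d : Tws l K)).support ≤ N
      rwa [cntF_deg])).2
    have h2 := cnt_up hG' (N := N) (by omega)
    have h3 : ((TwO k l O N fun _ => True).ncard : ℝ) ≤ κ * ((cntA l k K N).ncard : ℝ) := by
      exact_mod_cast h1
    have h4 : (0 : ℝ) ≤ (N : ℝ) ^ (l - 2) * (Nat.card k : ℝ) ^ N := by positivity
    calc ((TwO k l O N fun _ => True).ncard : ℝ) ≤ κ * ((cntA l k K N).ncard : ℝ) := h3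
      _ ≤ κ * (2 * C' * ((N : ℝ) ^ (l - 2) * (Nat.card k : ℝ) ^ N)) :=
          mul_le_mul_of_nonneg_left h2 (Nat.cast_nonneg _)
      _ = κ * (2 * C') * ((N : ℝ) ^ (l - 2) * (Nat.card k : ℝ) ^ N) := by ring
      _ ≤ (|κ * (2 * C')| + 1) * ((N : ℝ) ^ (l - 2) * (Nat.card k : ℝ) ^ N) := by
          refine mul_le_mul_of_nonneg_right ?_ h4
          have := le_abs_self ((κ : ℝ) * (2 * C'))
          linarith

end Pool.Agent.HS
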