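import Pool.Agent.Lib.HS.Defs

/-!
HA: the calculus of `md`, `hgt`, `tdg`.

`md_le_iff`, `md_sc`, `md_finite`, `hgt_sc`, `tdg_sc` (the twist degree of `sc u a` is
`ramO k (Od k a) u`), `tdg_sc_sq`, `mem_Box_iff`, `hgt_le_iff`, and `md v a = 0` for the vectors
of type `A`, `B`, `C`, `N` at `v`.
-/

set_option autoImplicit false

open Polynomial

namespace Pool.Agent.HS

open Pool.Agent.BSDFF Pool.Agent.GBC Pool.Agent.GBU
open IsLocalRing (ResidueField residue)

section local_calculus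

variable {k K : Type} [Field k] [Field K] [Algebra k K] {g : ℕ}

theorem sc_ne_zero {u : K} (hu : u ≠ 0) {a : Fin g → K} (ha : a ≠ 0) : sc u a ≠ 0 := by
  intro h
  apply ha
  funext j
  have h1 := congrFun h j
  rw [sc, Pi.zero_apply] at h1
  exact (mul_eq_zero.1 h1).resolve_left (pow_ne_zero _ hu)

theorem exists_ne {a : Fin g → K} (ha : a ≠ 0) : ∃ j, a j ≠ 0 := by
  by_contra h
  push Not at h
  exact ha (funext h)

private theorem mono_mul {m e e' : ℤ} (hm : 0 ≤ m) (h : e ≤ e') : m * e ≤ m * e' :=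
  mul_le_mul_of_nonneg_left h hm

/-- `md v a ≤ e` iff all `a j` have at `v` a pole of order at most `(j + 2) e`. -/
theorem md_le_iff (v : Place k K) {a : Fin g → K} (ha : a ≠ 0) (e : ℤ) :
    md v a ≤ e ↔ ∀ j : Fin g, PoleLE v (((j : ℕ) + 2) * e) (a j) := by
  have hmono : ∀ e e' : ℤ, e ≤ e' → (∀ j : Fin g, PoleLE v (((j : ℕ) + 2) * e) (a j)) →
      ∀ j : Fin g, PoleLE v (((j : ℕ) + 2) * e') (a j) := by
    intro e e' hee h j
    have h1 := h j
    rw [poleLE_iff] at h1 ⊢
    rcases h1 with h1 | h1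
    · exact Or.inl h1
    · right
      have h2 : (((j : ℕ) : ℤ) + 2) * e ≤ (((j : ℕ) : ℤ) + 2) * e' := mono_mul (by positivity) hee
      linarith
  obtain ⟨j₀, hj₀⟩ := exists_ne ha
  have hbdd : BddBelow {e : ℤ | ∀ j : Fin g, PoleLE v (((j : ℕ) + 2) * e) (a j)} := by
    refine ⟨-|ord v (a j₀)|, fun e he => ?_⟩
    have h1 := (poleLE_iff v _ _).1 (he j₀)
    have h2 := h1.resolve_left hj₀
    have h3 := le_abs_self (ord v (a j₀))
    have h4 := abs_nonneg (ord v (a j₀))
    by_contra h5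
    push Not at h5
    have h6 : e ≤ -1 := by omega
    have h7 : (((j₀ : ℕ) : ℤ)) * e ≤ 0 := mul_nonpos_of_nonneg_of_nonpos (by positivity) (by omega)
    nlinarith
  have hne : {e : ℤ | ∀ j : Fin g, PoleLE v (((j : ℕ) + 2) * e) (a j)}.Nonempty := by
    refine ⟨∑ j, |ord v (a j)|, fun j => (poleLE_iff v _ _).2 (Or.inr ?_)⟩
    have h1 : |ord v (a j)| ≤ ∑ j, |ord v (a j)| :=
      Finset.single_le_sum (f := fun j => |ord v (a j)|) (fun i _ => abs_nonneg _)
        (Finset.mem_univ j)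
    have h2 := neg_abs_le (ord v (a j))
    have h3 : (0 : ℤ) ≤ ((j : ℕ) : ℤ) * ∑ j, |ord v (a j)| :=
      mul_nonneg (by positivity) (Finset.sum_nonneg fun i _ => abs_nonneg _)
    have h4 : (0 : ℤ) ≤ ∑ j, |ord v (a j)| := Finset.sum_nonneg fun i _ => abs_nonneg _
    nlinarith
  constructor
  · intro h
    exact hmono _ e h (Int.csInf_mem hne hbdd)
  · intro h
    exact csInf_le hbdd h

theorem md_le_iff_ord (v : Place k K) {a : Fin g → K} (ha : a ≠ 0) (e : ℤ) :
    md v a ≤ e ↔ ∀ j : Fin g, a j = 0 ∨ -((((j : ℕ) : ℤ) + 2) * e) ≤ ord v (a j) := by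
  rw [md_le_iff v ha]
  exact forall_congr' fun j => poleLE_iff v _ _

theorem md_spec (v : Place k K) {a : Fin g → K} (ha : a ≠ 0) (j : Fin g) :
    a j = 0 ∨ -((((j : ℕ) : ℤ) + 2) * md v a) ≤ ord v (a j) :=
  (md_le_iff_ord v ha _).1 le_rfl j

theorem md_sc (v : Place k K) {a : Fin g → K} (ha : a ≠ 0) {u : K} (hu : u ≠ 0) :
    md v (sc u a) = md v a - ord v u := by
  have key : ∀ e : ℤ, md v (sc u a) ≤ e ↔ md v a ≤ e + ord v u := by
    intro e
    rw [md_le_iff_ord v (sc_ne_zero hu ha), md_le_iff_ord v ha]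
    refine forall_congr' fun j => ?_
    by_cases hj : a j = 0
    · have h1 : sc u a j = 0 := by rw [sc, hj, mul_zero]
      simp [h1, hj]
    · have h1 : sc u a j ≠ 0 := mul_ne_zero (pow_ne_zero _ hu) hj
      have h2 : ord v (sc u a j) = (((j : ℕ) : ℤ) + 2) * ord v u + ord v (a j) := by
        rw [sc, ord_mul v (pow_ne_zero _ hu) hj, ord_pow v hu]
        push_cast
        ring
      rw [or_iff_right h1, or_iff_right hj, h2]
      constructor <;> intro h <;> linarith
  apply le_antisymm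
  · rw [key]
    linarith
  · have := (key (md v (sc u a))).1 le_rfl
    linarith

theorem md_le_zero_iff (v : Place k K) {a : Fin g → K} (ha : a ≠ 0) :
    md v a ≤ 0 ↔ IntV v a := by
  rw [md_le_iff_ord v ha]
  refine forall_congr' fun j => ?_
  by_cases hj : a j = 0
  · simp [hj]
  · rw [or_iff_right hj, mem_ring_iff v hj]
    simp

end local_calculus

section global

variable {k K : Type} [Field k] [Field K] [Algebra k K] (G : Geo k K) {g : ℕ}

include G

theorem md_finite {a : Fin g → K} (ha : a ≠ 0) : {v : Place k K | md v a ≠ 0}.Finite := by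
  classical
  have h1 : ∀ j, ∃ D : Place k K →₀ ℤ, a j ≠ 0 → ∀ w, D w = ord w (a j) := by
    intro j
    by_cases hj : a j = 0
    · exact ⟨0, fun h => absurd hj h⟩
    · obtain ⟨D, hD⟩ := exists_pdiv G hj
      exact ⟨D, fun _ => hD⟩
  choose D hD using h1
  refine (Finset.finite_toSet (Finset.univ.biUnion fun j => (D j).support)).subset ?_
  intro v hv
  by_contra hv'
  apply hv
  have h2 : ∀ j, a j ≠ 0 → ord v (a j) = 0 := by
    intro j hj
    rw [← hD j hj v]
    by_contra h3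
    exact hv' (Finset.mem_coe.2 (Finset.mem_biUnion.2 ⟨j, Finset.mem_univ _,
      Finsupp.mem_support_iff.2 h3⟩))
  obtain ⟨j₀, hj₀⟩ := exists_ne ha
  apply le_antisymm
  · rw [md_le_iff_ord v ha]
    intro j
    by_cases hj : a j = 0
    · exact Or.inl hj
    · right
      rw [h2 j hj]
      simp
  · have h3 := (md_spec v ha j₀).resolve_left hj₀
    rw [h2 j₀ hj₀] at h3
    by_contra h4
    push Not at h4
    have h5 : (((j₀ : ℕ) : ℤ) + 2) * md v a < 0 := mul_neg_of_pos_of_neg (by positivity) h4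
    linarith

/-- The divisor `∑ md v a`. -/
theorem exists_mdiv {a : Fin g → K} (ha : a ≠ 0) :
    ∃ D : Place k K →₀ ℤ, (∀ v, D v = md v a) ∧ degD D = hgt k a := by
  classical
  let D : Place k K →₀ ℤ := Finsupp.onFinset (md_finite G ha).toFinset (fun v => md v a)
    fun v hv => (md_finite G ha).mem_toFinset.2 hv
  refine ⟨D, fun v => rfl, ?_⟩
  unfold degD hgt
  rw [Finsupp.sum, finsum_eq_sum_of_support_subset]
  · rfl
  · intro v hv
    rw [Function.mem_support] at hv
    rw [Finset.mem_coe, Finsupp.mem_support_iff]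
    intro h
    apply hv
    change (v.degree : ℤ) * D v = 0
    rw [h, mul_zero]

theorem hgt_sc {a : Fin g → K} (ha : a ≠ 0) {u : K} (hu : u ≠ 0) :
    hgt k (sc u a) = hgt k a := by
  obtain ⟨D, hD, hD'⟩ := exists_mdiv G ha
  obtain ⟨E, hE, hE'⟩ := exists_mdiv G (sc_ne_zero hu ha)
  rw [← hD', ← hE']
  refine (degD_congr G ⟨u, hu, fun w => ?_⟩).symm
  rw [Finsupp.sub_apply, hD, hE, md_sc w ha hu]
  ring

omit G in
/-- The twist degree of the twist by `u`. -/
theorem tdg_sc (l : ℕ) {a : Fin g → K} (ha : a ≠ 0) {u : K} (hu : u ≠ 0) :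
    tdg k l (sc u a) = ramO k l (fun v => md v a) u := by
  unfold tdg ramO
  refine finsum_congr fun v => ?_
  rw [md_sc v ha hu]

omit G in
theorem md_sc_pow (v : Place k K) (l : ℕ) {a : Fin g → K} (ha : a ≠ 0) {u : K} (hu : u ≠ 0) :
    md v (sc (u ^ l) a) = md v a - l * ord v u := by
  rw [md_sc v ha (pow_ne_zero l hu), ord_pow v hu]

omit G in
theorem tdg_sc_pow (l : ℕ) {a : Fin g → K} (ha : a ≠ 0) {u : K} (hu : u ≠ 0) :
    tdg k l (sc (u ^ l) a) = tdg k l a := by
  unfold tdg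
  refine finsum_congr fun v => ?_
  have h1 : (l : ℤ) ∣ md v (sc (u ^ l) a) ↔ (l : ℤ) ∣ md v a := by
    rw [md_sc_pow v l ha hu]
    exact dvd_sub_left (dvd_mul_right _ _)
  simp only [h1]

omit G in
private theorem mem_Box_aux {D : Place k K →₀ ℤ} {a : Fin g → K} :
    a ∈ Box g D ↔ ∀ j : Fin g, a j ∈ LL (((j : ℕ) + 2) • D) := by
  unfold Box
  rw [Submodule.mem_pi]
  exact ⟨fun h j => h j (Set.mem_univ _), fun h j _ => h j⟩

omit G in
theorem mem_Box_iff {D : Place k K →₀ ℤ} {a : Fin g → K} (ha : a ≠ 0) :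
    a ∈ Box g D ↔ ∀ v, md v a ≤ D v := by
  rw [mem_Box_aux]
  have h1 : ∀ (j : Fin g) (v : Place k K), -((((j : ℕ) + 2) • D : Place k K →₀ ℤ) v) =
      -((((j : ℕ) : ℤ) + 2) * D v) := by
    intro j v
    rw [Finsupp.smul_apply, nsmul_eq_mul]
    push_cast
    ring
  constructor
  · intro h v
    rw [md_le_iff_ord v ha]
    intro j
    rcases mem_LL.1 (h j) with h2 | h2
    · exact Or.inl h2
    · right
      rw [← h1]
      exact h2 v
  · intro h j
    rw [mem_LL]
    by_cases hj : a j = 0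
    · exact Or.inl hj
    · right
      intro v
      rw [h1]
      exact ((md_le_iff_ord v ha _).1 (h v) j).resolve_left hj

theorem hgt_le_degD {D : Place k K →₀ ℤ} {a : Fin g → K} (ha : a ≠ 0)
    (h : a ∈ Box g D) : hgt k a ≤ degD D := by
  obtain ⟨E, hE, hE'⟩ := exists_mdiv G ha
  rw [← hE']
  have h1 : 0 ≤ D - E := by
    intro v
    rw [Finsupp.zero_apply, Finsupp.sub_apply, hE]
    have := (mem_Box_iff ha).1 h v
    linarith
  have h2 := degD_nonneg h1
  rw [degD_sub] at h2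
  linarith

theorem hgt_le_iff {a : Fin g → K} (ha : a ≠ 0) (M : ℤ) :
    hgt k a ≤ M ↔ ∃ D : Place k K →₀ ℤ, degD D ≤ M ∧ a ∈ Box g D := by
  constructor
  · intro h
    obtain ⟨E, hE, hE'⟩ := exists_mdiv G ha
    exact ⟨E, by rw [hE']; exact h, (mem_Box_iff ha).2 fun v => (hE v).ge⟩
  · rintro ⟨D, h1, h2⟩
    exact (hgt_le_degD G ha h2).trans h1

end global

section types

variable {k K : Type} [Field k] [Field K] [Algebra k K] {g : ℕ}

private theorem factor_X_pow {F : Type} [Field F] {h : F[X]} (hm : h.Monic) (hi : Irreducible h)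
    {n : ℕ} (hd : h ∣ X ^ n) : h = X := by
  have h1 : h ∣ X := hi.prime.dvd_of_dvd_pow hd
  exact eq_of_monic_of_associated hm monic_X (hi.associated_of_dvd irreducible_X h1)

private theorem root_X_pow {F : Type} [Field F] {r : F} {n : ℕ}
    (hd : (X - C r : F[X]) ∣ X ^ n) : r = 0 := by
  have h1 := factor_X_pow (monic_X_sub_C r) (irreducible_X_sub_C r) hd
  have h2 := congrArg (eval r) h1
  simpa using h2.symm

theorem not_typA {F : Type} [Field F] (hg : 1 ≤ g) : ¬ TypA (X ^ (g + 1) : F[X]) := by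
  intro h
  unfold TypA at h
  have h1 := factor_X_pow (monic_X_pow _) h dvd_rfl
  have h2 := congrArg natDegree h1
  rw [natDegree_X_pow, natDegree_X] at h2
  omega

theorem not_typB {F : Type} [Field F] (n : ℕ) : ¬ TypB (X ^ n : F[X]) := by
  rintro ⟨r, h, hm, hi, hf, hr⟩
  have h1 : h = X := factor_X_pow hm hi (n := n) ⟨X - C r, by rw [hf, mul_comm]⟩
  have h2 : r = 0 := root_X_pow (n := n) ⟨h, hf⟩
  rw [h1, h2, eval_X] at hr
  exact hr rfl

theorem not_typC {F : Type} [Field F] (n : ℕ) : ¬ TypC (X ^ n : F[X]) := by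
  rintro ⟨p, h, hpm, hpi, hp2, hm, hi, _, hf⟩
  have h0 : p ∣ X ^ n := by
    rcases hf with hf | ⟨s, -, hf⟩
    · exact ⟨h, hf⟩
    · exact ⟨(X - C s) * h, by rw [hf, mul_assoc]⟩
  have h1 : p = X := factor_X_pow hpm hpi (n := n) h0
  rw [h1, natDegree_X] at hp2
  omega

theorem pol_zero {R : Type} [CommRing R] : pol g (0 : Fin g → R) = X ^ (g + 1) := by
  unfold pol
  simp

theorem red_eq_zero_iff_ord (v : Place k K) {x : K} (hx : x ≠ 0) (h0 : x ∈ v.ring) :
    red v x = 0 ↔ 1 ≤ ord v x := by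
  unfold red
  rw [dif_pos h0, IsLocalRing.residue_eq_zero_iff, v.ring.valuation_lt_one_iff, val_lt_one_iff v hx]

/-- A vector which is integral at `v` with a nonzero reduction has `md v a = 0`. -/
theorem md_eq_zero_of_red {v : Place k K} {a : Fin g → K} (h : IntV v a)
    (h' : redV v a ≠ 0) : a ≠ 0 ∧ md v a = 0 := by
  obtain ⟨j, hj⟩ : ∃ j, redV v a j ≠ 0 := by
    by_contra h1
    push Not at h1
    exact h' (funext h1)
  have hj0 : a j ≠ 0 := by
    intro h0
    apply hj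
    unfold redV red
    rw [dif_pos (h j), IsLocalRing.residue_eq_zero_iff]
    have h1 : (⟨a j, h j⟩ : v.ring) = 0 := Subtype.ext h0
    rw [h1]
    exact zero_mem _
  have ha : a ≠ 0 := fun h0 => hj0 (congrFun h0 j)
  refine ⟨ha, le_antisymm ((md_le_zero_iff v ha).2 h) ?_⟩
  by_contra h1
  push Not at h1
  apply hj
  have h2 := (md_spec v ha j).resolve_left hj0
  have h3 : md v a ≤ -1 := by omega
  have h4 : (((j : ℕ) : ℤ) + 2) * md v a ≤ (((j : ℕ) : ℤ) + 2) * (-1) :=
    mono_mul (by positivity) h3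
  refine (red_eq_zero_iff_ord v hj0 (h j)).2 ?_
  have h5 : (0 : ℤ) ≤ ((j : ℕ) : ℤ) := by positivity
  linarith

theorem md_eq_zero_of_pol {v : Place k K} {a : Fin g → K} (h : IntV v a)
    (h' : pol g (redV v a) ≠ X ^ (g + 1)) : a ≠ 0 ∧ md v a = 0 := by
  refine md_eq_zero_of_red h fun h0 => h' ?_
  rw [h0, pol_zero]

theorem md_eq_zero_A (hg : 1 ≤ g) {v : Place k K} {a : Fin g → K} (h : At v TypA a) :
    a ≠ 0 ∧ md v a = 0 :=
  md_eq_zero_of_pol h.1 fun h0 => not_typA (F := ResidueField v.ring) hg (h0 ▸ h.2)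

theorem md_eq_zero_B {v : Place k K} {a : Fin g → K} (h : At v TypB a) :
    a ≠ 0 ∧ md v a = 0 :=
  md_eq_zero_of_pol h.1 fun h0 => not_typB (F := ResidueField v.ring) _ (h0 ▸ h.2)

theorem md_eq_zero_C {v : Place k K} {a : Fin g → K} (h : At v TypC a) :
    a ≠ 0 ∧ md v a = 0 :=
  md_eq_zero_of_pol h.1 fun h0 => not_typC (F := ResidueField v.ring) _ (h0 ▸ h.2)

end types

end Pool.Agent.HS
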