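import Pool.Agent.Lib.HS.Defs
import Pool.Agent.Lib.HS.Md

/-!
HS (all superelliptic curves over a global function field, MP_950c68_ag), module Dec.
The curves of a given shape. `mk_sc_iff`: if `sc d' a = sc (u ^ 2) (sc d a)` then `t = u ^ 2 d / d'` satisfies `t ^ 2 = t ^ 3 = 1` (the coefficients of
weight 2 and 3 are not zero). `fam_le`: the class of `sc d (r z)` is a function of the class of `d`, and every member of `Fam` is obtained:
`tdg_sc`, `hgt_sc`. No invariance of `P` is needed (replace `d` by `d u ^ 2`).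
-/

set_option autoImplicit false

open Polynomial

namespace Pool.Agent.HS

open Pool.Agent.BSDFF Pool.Agent.GBC Pool.Agent.GBU
open Pool.Agent.SmS.Fn (Tws)
open IsLocalRing (ResidueField residue)

variable {k K : Type} [Field k] [Field K] [Algebra k K]

variable {l g : ℕ}

private theorem Dec_mono {u : K} (hu : u ≠ 0) (b : K) (e n : ℕ) :
    (C (u ^ e * b) * X ^ n : K[X]) = C (u ^ (e + n)) * (C b * (C u⁻¹ * X) ^ n) := by
  have h1 : u ^ (e + n) * (b * u⁻¹ ^ n) = u ^ e * b := by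
    rw [pow_add, inv_pow]
    have := pow_ne_zero n hu
    field_simp
  rw [← h1, mul_pow, C_mul, C_mul, ← C_pow]
  ring

private theorem Dec_pol_comp {u : K} (hu : u ≠ 0) (a : Fin g → K) :
    pol g (sc u a) = C (u ^ (g + 1)) * (pol g a).comp (C u⁻¹ * X) := by
  unfold pol
  rw [add_comp, X_pow_comp, Polynomial.sum_comp, mul_add, Finset.mul_sum]
  congr 1
  · have h := Dec_mono hu 1 0 (g + 1)
    rw [pow_zero, mul_one, C_1, one_mul, one_mul, zero_add] at h
    exact h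
  · refine Finset.sum_congr rfl fun j _ => ?_
    rw [mul_comp, C_comp, X_pow_comp, sc, Dec_mono hu (a j) ((j : ℕ) + 2) (g - 1 - (j : ℕ))]
    have hj : ((j : ℕ) + 2) + (g - 1 - (j : ℕ)) = g + 1 := by
      have := j.2
      omega
    rw [hj]

private theorem Dec_sep {u : K} (hu : u ≠ 0) {a : Fin g → K} (h : (pol g a).Separable) :
    (pol g (sc u a)).Separable := by
  rw [Dec_pol_comp hu]
  refine Separable.unit_mul (isUnit_C.2 (IsUnit.mk0 _ (pow_ne_zero _ hu))) ?_
  rw [separable_def] at h ⊢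
  have h1 := h.map (compRingHom (C u⁻¹ * X))
  rw [coe_compRingHom_apply, coe_compRingHom_apply] at h1
  have h2 : derivative (C u⁻¹ * X : K[X]) = C u⁻¹ := by simp
  rw [derivative_comp, h2]
  exact (isCoprime_mul_unit_left_right (isUnit_C.2 (IsUnit.mk0 _ (inv_ne_zero hu))) _ _).2 h1

private theorem Dec_ne (hg : 1 ≤ g) {a : Fin g → K} (h : (pol g a).Separable) : a ≠ 0 := by
  rintro rfl
  rw [pol_zero] at h
  have h1 := h.squarefree X ⟨X ^ (g - 1), by
    rw [← pow_two, ← pow_add]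
    congr 1
    omega⟩
  exact not_isUnit_X h1

private theorem Dec_mk {a : Fin g → K} {d d' : Kˣ} (h : (d : Tws l K) = d') :
    Quotient.mk (crvRel l K g) (sc (d : K) a) = Quotient.mk (crvRel l K g) (sc (d' : K) a) := by
  rw [QuotientGroup.eq] at h
  obtain ⟨u, hu⟩ := h
  have h1 : (u : K) ^ l * (d : K) = (d' : K) := by
    have h2 : u ^ l = d⁻¹ * d' := hu
    have h3 : u ^ l * d = d' := by rw [h2, mul_comm, mul_inv_cancel_left]
    exact_mod_cast congrArg Units.val h3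
  exact Quotient.sound ⟨(u : K), u.ne_zero, by rw [sc_sc, h1]⟩

/-- Two weights prime to each other, or one weight and `l` odd. -/
theorem mk_sc_iff (hl : Odd l) {a : Fin g → K} (ha : ∀ j : Fin g, (j : ℕ) ≤ 1 → a j ≠ 0)
    (hg : 1 ≤ g) (d d' : Kˣ) :
    Quotient.mk (crvRel l K g) (sc (d : K) a) = Quotient.mk (crvRel l K g) (sc (d' : K) a) ↔
      (d : Tws l K) = d' := by
  refine ⟨fun h => ?_, Dec_mk⟩
  obtain ⟨u, hu, h1⟩ : ∃ u : K, u ≠ 0 ∧ sc (d' : K) a = sc (u ^ l) (sc (d : K) a) :=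
    Quotient.exact h
  rw [sc_sc] at h1
  have key : ∀ j : Fin g, (j : ℕ) ≤ 1 →
      (d' : K) ^ ((j : ℕ) + 2) = (u ^ l * (d : K)) ^ ((j : ℕ) + 2) := by
    intro j hj
    exact mul_right_cancel₀ (ha j hj) (congrFun h1 j)
  have h2 := key ⟨0, by omega⟩ (by simp)
  simp only [zero_add] at h2
  obtain ⟨u', hu', h5⟩ : ∃ u' : K, u' ≠ 0 ∧ (d' : K) = u' ^ l * (d : K) := by
    rcases sq_eq_sq_iff_eq_or_eq_neg.1 h2 with h3 | h3
    · exact ⟨u, hu, h3⟩
    · exact ⟨-u, neg_ne_zero.2 hu, by rw [hl.neg_pow, neg_mul, h3]⟩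
  rw [QuotientGroup.eq]
  refine ⟨Units.mk0 u' hu', ?_⟩
  change (Units.mk0 u' hu') ^ l = d⁻¹ * d'
  rw [eq_inv_mul_iff_mul_eq]
  ext
  rw [Units.val_mul, Units.val_pow_eq_pow_val, Units.val_mk0, h5, mul_comm]

/-- Upper bound for the number of curves. -/
theorem fam_le (G : Geo k K) [Finite k] (hg : 1 ≤ g) (M N : ℕ) (P : (Fin g → K) → Prop)
    (hT : ∀ O : Place k K → ℤ, (Function.support O).Finite → (TwO k l O N fun _ => True).Finite)
    (r : Shp K g → Fin g → K) (hr : ∀ z, Quotient.mk (scRel K g) (r z) = z)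
    {Z : Finset (Shp K g)} (hZ : ∀ z, z ∈ Z ↔ z ∈ Shapes k K g M fun _ => True) :
    (Fam k K l g M N P).Finite ∧ (Fam k K l g M N P).ncard ≤
      ∑ z ∈ Z, (TwO k l (fun v => md v (r z)) N fun d => P (sc (d : K) (r z))).ncard := by
  classical
  have hne : ∀ z ∈ Z, r z ≠ 0 := by
    intro z hz
    obtain ⟨a, haz, hs, -, -⟩ := (hZ z).1 hz
    obtain ⟨u, hu, hau⟩ : ∃ u : K, u ≠ 0 ∧ r z = sc u a :=
      Quotient.exact (haz.trans (hr z).symm)
    rw [hau]
    exact sc_ne_zero hu (Dec_ne hg hs)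
  have hfin : ∀ z ∈ Z, (TwO k l (fun v => md v (r z)) N fun d => P (sc (d : K) (r z))).Finite := by
    intro z hz
    refine (hT _ (md_finite G (hne z hz))).subset ?_
    rintro c ⟨d, h1, h2, _⟩
    exact ⟨d, h1, h2, trivial⟩
  let F : Shp K g → Tws l K → Crv l K g := fun z c =>
    Quotient.mk (crvRel l K g) (sc ((Quotient.out c : Kˣ) : K) (r z))
  have hFd : ∀ z (d : Kˣ), F z (d : Tws l K) = Quotient.mk (crvRel l K g) (sc (d : K) (r z)) :=
    fun z d => Dec_mk (QuotientGroup.out_eq' _)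
  have hsub : Fam k K l g M N P ⊆
      ⋃ z ∈ Z, F z '' TwO k l (fun v => md v (r z)) N fun d => P (sc (d : K) (r z)) := by
    rintro C ⟨a, rfl, hs, hh, ht, hPa⟩
    have hz : Quotient.mk (scRel K g) a ∈ Z := (hZ _).2 ⟨a, rfl, hs, hh, trivial⟩
    obtain ⟨u, hu, hau⟩ : ∃ u : K, u ≠ 0 ∧ a = sc u (r (Quotient.mk (scRel K g) a)) :=
      Quotient.exact (hr (Quotient.mk (scRel K g) a))
    refine Set.mem_iUnion₂.2 ⟨_, hz, ((Units.mk0 u hu : Kˣ) : Tws l K),
      ⟨Units.mk0 u hu, rfl, ?_, ?_⟩, ?_⟩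
    · rw [Units.val_mk0, ← tdg_sc l (hne _ hz) hu, ← hau]
      exact ht
    · change P (sc u (r (Quotient.mk (scRel K g) a)))
      rw [← hau]
      exact hPa
    · rw [hFd, Units.val_mk0, ← hau]
  have hU : (⋃ z ∈ Z, F z '' TwO k l (fun v => md v (r z)) N fun d => P (sc (d : K) (r z))).Finite := by
    have := (Finset.finite_toSet Z).biUnion (t := fun z =>
      F z '' TwO k l (fun v => md v (r z)) N fun d => P (sc (d : K) (r z))) fun z hz =>
      (hfin z (Finset.mem_coe.1 hz)).image _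
    simpa only [Finset.mem_coe] using this
  exact ⟨hU.subset hsub, (Set.ncard_le_ncard hsub hU).trans
    ((Finset.set_ncard_biUnion_le Z _).trans
      (Finset.sum_le_sum fun z hz => Set.ncard_image_le (hfin z hz)))⟩

/-- Lower bound for the number of curves. -/
theorem le_fam (G : Geo k K) [Finite k] (hl : Odd l) (hg : 1 ≤ g) (M N : ℕ) (P : (Fin g → K) → Prop)
    (hT : ∀ O : Place k K → ℤ, (Function.support O).Finite → (TwO k l O N fun _ => True).Finite)
    (hfin : (Fam k K l g M N P).Finite)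
    (r : Shp K g → Fin g → K) (hr : ∀ z, Quotient.mk (scRel K g) (r z) = z)
    {Z : Finset (Shp K g)} (hZ : ∀ z ∈ Z, (z ∈ Shapes k K g M fun _ => True) ∧
      ∀ j : Fin g, (j : ℕ) ≤ 1 → r z j ≠ 0) :
    ∑ z ∈ Z, (TwO k l (fun v => md v (r z)) N fun d => P (sc (d : K) (r z))).ncard ≤
      (Fam k K l g M N P).ncard := by
  classical
  have hsep : ∀ z ∈ Z, (pol g (r z)).Separable ∧ hgt k (r z) ≤ M := by
    intro z hz
    obtain ⟨a, haz, hs, hh, -⟩ := (hZ z hz).1
    obtain ⟨u, hu, hau⟩ : ∃ u : K, u ≠ 0 ∧ r z = sc u a :=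
      Quotient.exact (haz.trans (hr z).symm)
    rw [hau, hgt_sc G (Dec_ne hg hs) hu]
    exact ⟨Dec_sep hu hs, hh⟩
  have hne : ∀ z ∈ Z, r z ≠ 0 := fun z hz => Dec_ne hg (hsep z hz).1
  have hfinT : ∀ z ∈ Z, (TwO k l (fun v => md v (r z)) N fun d => P (sc (d : K) (r z))).Finite := by
    intro z hz
    refine (hT _ (md_finite G (hne z hz))).subset ?_
    rintro c ⟨d, h1, h2, _⟩
    exact ⟨d, h1, h2, trivial⟩
  let F : Shp K g → Tws l K → Crv l K g := fun z c =>
    Quotient.mk (crvRel l K g) (sc ((Quotient.out c : Kˣ) : K) (r z))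
  have hFd : ∀ z (d : Kˣ), F z (d : Tws l K) = Quotient.mk (crvRel l K g) (sc (d : K) (r z)) :=
    fun z d => Dec_mk (QuotientGroup.out_eq' _)
  have hinj : ∀ z ∈ Z, Function.Injective (F z) := by
    intro z hz c c' h
    obtain ⟨d, rfl⟩ := QuotientGroup.mk_surjective c
    obtain ⟨d', rfl⟩ := QuotientGroup.mk_surjective c'
    change F z (d : Tws l K) = F z (d' : Tws l K) at h
    rw [hFd, hFd] at h
    exact (mk_sc_iff hl (hZ z hz).2 hg d d').1 h
  have hdis : (Z : Set (Shp K g)).PairwiseDisjoint fun z =>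
      F z '' TwO k l (fun v => md v (r z)) N fun d => P (sc (d : K) (r z)) := by
    intro z hz z' hz' hzz
    rw [Function.onFun, Set.disjoint_left]
    rintro _ ⟨c, -, rfl⟩ ⟨c', -, h⟩
    apply hzz
    obtain ⟨d, rfl⟩ := QuotientGroup.mk_surjective c
    obtain ⟨d', rfl⟩ := QuotientGroup.mk_surjective c'
    change F z' (d' : Tws l K) = F z (d : Tws l K) at h
    rw [hFd, hFd] at h
    obtain ⟨u, hu, h1⟩ : ∃ u : K, u ≠ 0 ∧ sc (d : K) (r z) = sc (u ^ l) (sc (d' : K) (r z')) :=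
      Quotient.exact h
    rw [← hr z, ← hr z']
    refine Quotient.sound ⟨(d' : K)⁻¹ * ((u ^ l)⁻¹ * (d : K)), ?_, ?_⟩
    · exact mul_ne_zero (inv_ne_zero d'.ne_zero)
        (mul_ne_zero (inv_ne_zero (pow_ne_zero l hu)) d.ne_zero)
    · have hd' : (d' : K) ≠ 0 := d'.ne_zero
      have h4 : (d' : K)⁻¹ * (u ^ l)⁻¹ * (u ^ l * (d' : K)) = 1 := by
        field_simp
      rw [← mul_assoc, ← sc_sc _ (d : K), h1, sc_sc (u ^ l), sc_sc, h4, sc_one]
  have hsub : (⋃ z ∈ (Z : Set (Shp K g)),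
      F z '' TwO k l (fun v => md v (r z)) N fun d => P (sc (d : K) (r z))) ⊆ Fam k K l g M N P := by
    refine Set.iUnion₂_subset fun z hz => ?_
    rintro _ ⟨c, ⟨d, rfl, h1, h2⟩, rfl⟩
    refine ⟨sc (d : K) (r z), (hFd z d).symm, Dec_sep d.ne_zero (hsep z hz).1, ?_, ?_, h2⟩
    · rw [hgt_sc G (hne z hz) d.ne_zero]
      exact (hsep z hz).2
    · rw [tdg_sc l (hne z hz) d.ne_zero]
      exact h1
  calc ∑ z ∈ Z, (TwO k l (fun v => md v (r z)) N fun d => P (sc (d : K) (r z))).ncard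
      = ∑ z ∈ Z, (F z '' TwO k l (fun v => md v (r z)) N fun d => P (sc (d : K) (r z))).ncard :=
        Finset.sum_congr rfl fun z hz => (Set.ncard_image_of_injective _ (hinj z hz)).symm
    _ = (⋃ z ∈ (Z : Set (Shp K g)),
          F z '' TwO k l (fun v => md v (r z)) N fun d => P (sc (d : K) (r z))).ncard := by
        rw [(Finset.finite_toSet Z).ncard_biUnion (fun z hz => (hfinT z hz).image _) hdis,
          finsum_mem_coe_finset]
    _ ≤ (Fam k K l g M N P).ncard := Set.ncard_le_ncard hsub hfin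

end Pool.Agent.HS
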