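import Pool.Agent.Lib.GBU.Pic
import Pool.Agent.Lib.GBU.Eff
import Pool.Agent.Lib.SmS.Fn.Defs

/-!
HS: the `l`-power Selmer groups in the family of ALL superelliptic curves `y ^ l = f(x)` over a global
function field which contains the `l`-th roots of unity (MP_950c68_ag). Definitions.

`l` is an odd prime and `r + 1` the degree of `f`, prime to `l`.
`pol r a = X ^ (r + 1) + ∑ a j X ^ (r - 1 - j)`, `a : Fin r → R`; the weight of `a j` is `j + 2`.
`sc u a` = scaling; `Shp K r` = the vectors up to scaling (the shapes), `Crv l K r` = the vectors up to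
scaling by `l`-th powers (the isomorphism classes of the pointed curves).

`md v a` = the least `e` such that `ord v (a j) ≥ - (j + 2) e` for all `j`; `hgt k a` = the degree of
the divisor `∑ md v a`, invariant under scaling; `tdg k l a` = the degree of the places at which
`md v a` is not divisible by `l`, invariant under scaling by `l`-th powers. `Fam k K l r M N P` = the
classes of the curves with `hgt ≤ M`, `tdg ≤ N` and the property `P`: the family of the final theorem.

For the proof: `Box r D` = the vectors with `a j ∈ L((j + 2) D)`, that is `md v a ≤ D v` for all `v`;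
`TwO k l O N P` = the classes `c` in `Kˣ / Kˣˡ` of the `d` for which the degree of the set of the
places at which `l` does not divide `O v - ord v d` is at most `N`.
-/

set_option autoImplicit false

open Polynomial

namespace Pool.Agent.HS

open Pool.Agent.BSDFF Pool.Agent.GBC Pool.Agent.GBU
open Pool.Agent.SmS (CopDeg)
open Pool.Agent.SmS.Fn (Tws)
open IsLocalRing (ResidueField residue)

section pol

variable {R : Type*} [CommRing R]

/-- `X ^ (r + 1) + ∑ a j X ^ (r - 1 - j)`. -/
noncomputable def pol (r : ℕ) (a : Fin r → R) : R[X] :=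
  X ^ (r + 1) + ∑ j : Fin r, C (a j) * X ^ (r - 1 - (j : ℕ))

end pol

/-- The sum of the weights. -/
def wt (r : ℕ) : ℕ := ∑ j : Fin r, ((j : ℕ) + 2)

section scaling

variable {K : Type} [Field K] {r : ℕ}

/-- Scaling: `a j ↦ u ^ (j + 2) a j`. -/
def sc (u : K) (a : Fin r → K) : Fin r → K := fun j => u ^ ((j : ℕ) + 2) * a j

theorem sc_one (a : Fin r → K) : sc 1 a = a := by
  funext j
  simp [sc]

theorem sc_sc (u v : K) (a : Fin r → K) : sc u (sc v a) = sc (u * v) a := by
  funext j
  rw [sc, sc, sc, ← mul_assoc, mul_pow]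

/-- `a` and `b` differ by scaling: the curves are isomorphic up to a twist. -/
def scRel (K : Type) [Field K] (r : ℕ) : Setoid (Fin r → K) where
  r a b := ∃ u : K, u ≠ 0 ∧ b = sc u a
  iseqv := by
    refine ⟨fun a => ⟨1, one_ne_zero, (sc_one a).symm⟩, fun {a b} => ?_, fun {a b c} => ?_⟩
    · rintro ⟨u, hu, rfl⟩
      exact ⟨u⁻¹, inv_ne_zero hu, by rw [sc_sc, inv_mul_cancel₀ hu, sc_one]⟩
    · rintro ⟨u, hu, rfl⟩ ⟨v, hv, rfl⟩
      exact ⟨v * u, mul_ne_zero hv hu, sc_sc v u a⟩

/-- `a` and `b` define isomorphic pointed curves. -/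
def crvRel (l : ℕ) (K : Type) [Field K] (r : ℕ) : Setoid (Fin r → K) where
  r a b := ∃ u : K, u ≠ 0 ∧ b = sc (u ^ l) a
  iseqv := by
    refine ⟨fun a => ⟨1, one_ne_zero, ?_⟩, fun {a b} => ?_, fun {a b c} => ?_⟩
    · rw [one_pow, sc_one]
    · rintro ⟨u, hu, rfl⟩
      exact ⟨u⁻¹, inv_ne_zero hu, by rw [sc_sc, ← mul_pow, inv_mul_cancel₀ hu, one_pow, sc_one]⟩
    · rintro ⟨u, hu, rfl⟩ ⟨v, hv, rfl⟩
      exact ⟨v * u, mul_ne_zero hv hu, by rw [sc_sc, ← mul_pow]⟩

/-- The vectors up to scaling. -/
abbrev Shp (K : Type) [Field K] (r : ℕ) : Type := Quotient (scRel K r)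

/-- The isomorphism classes of the pointed curves. -/
abbrev Crv (l : ℕ) (K : Type) [Field K] (r : ℕ) : Type := Quotient (crvRel l K r)

end scaling

section height

variable {k K : Type} [Field k] [Field K] [Algebra k K]

/-- The least `e` such that `a j` has at `v` a pole of order at most `(j + 2) e` for all `j`. -/
noncomputable def md (v : Place k K) {r : ℕ} (a : Fin r → K) : ℤ :=
  sInf {e : ℤ | ∀ j : Fin r, PoleLE v (((j : ℕ) + 2) * e) (a j)}

/-- The height. -/
noncomputable def hgt (k : Type) {K : Type} [Field k] [Field K] [Algebra k K] {r : ℕ}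
    (a : Fin r → K) : ℤ := ∑ᶠ v : Place k K, (v.degree : ℤ) * md v a

/-- The twist degree. -/
noncomputable def tdg (k : Type) {K : Type} [Field k] [Field K] [Algebra k K] (l : ℕ) {r : ℕ}
    (a : Fin r → K) : ℕ := ∑ᶠ v : Place k K, if (l : ℤ) ∣ md v a then 0 else v.degree

/-- The isomorphism classes of the curves of height at most `M` and twist degree at most `N` with
the property `P`. -/
def Fam (k K : Type) [Field k] [Field K] [Algebra k K] (l r M N : ℕ)
    (P : (Fin r → K) → Prop) : Set (Crv l K r) :=
  {C | ∃ a : Fin r → K, Quotient.mk (crvRel l K r) a = C ∧ (pol r a).Separable ∧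
    hgt k a ≤ M ∧ tdg k l a ≤ N ∧ P a}

/-- The shapes of height at most `M` of the separable `pol r a` with the property `P`. -/
def Shapes (k K : Type) [Field k] [Field K] [Algebra k K] (r M : ℕ)
    (P : (Fin r → K) → Prop) : Set (Shp K r) :=
  {z | ∃ a : Fin r → K, Quotient.mk (scRel K r) a = z ∧ (pol r a).Separable ∧
    hgt k a ≤ M ∧ P a}

/-- The vectors `a` with `a j ∈ L((j + 2) D)`. -/
noncomputable def Box (r : ℕ) (D : Place k K →₀ ℤ) : Submodule k (Fin r → K) :=
  Submodule.pi Set.univ fun j : Fin r => LL (((j : ℕ) + 2) • D)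

/-- The degree of the set of the places at which `l` does not divide `O v - ord v d`. -/
noncomputable def ramO (k : Type) {K : Type} [Field k] [Field K] [Algebra k K] (l : ℕ)
    (O : Place k K → ℤ) (d : K) : ℕ :=
  ∑ᶠ v : Place k K, if (l : ℤ) ∣ O v - ord v d then 0 else v.degree

/-- The classes in `Kˣ / Kˣˡ` which contain a `d` with `ramO k l O d ≤ N` and the property `P`. -/
def TwO (k : Type) {K : Type} [Field k] [Field K] [Algebra k K] (l : ℕ) (O : Place k K → ℤ) (N : ℕ)
    (P : Kˣ → Prop) : Set (Tws l K) :=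
  {c | ∃ d : Kˣ, (d : Tws l K) = c ∧ ramO k l O (d : K) ≤ N ∧ P d}

end height

section red

variable {k K : Type} [Field k] [Field K] [Algebra k K]

open Classical in
/-- The reduction of an element of `K` (`0` if it is not integral at `v`). -/
noncomputable def red (v : Place k K) (x : K) : ResidueField v.ring :=
  if h : x ∈ v.ring then residue v.ring ⟨x, h⟩ else 0

/-- The reduction of a vector. -/
noncomputable def redV (v : Place k K) {r : ℕ} (a : Fin r → K) :
    Fin r → ResidueField v.ring := fun j => red v (a j)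

/-- `a` is integral at `v`. -/
def IntV (v : Place k K) {r : ℕ} (a : Fin r → K) : Prop := ∀ j, a j ∈ v.ring

end red

section local_types

variable {F : Type} [Field F]

/-- `f` is irreducible. -/
def TypA (f : F[X]) : Prop := Irreducible f

/-- `f = (X - s) h`, `h` irreducible and prime to `X - s`. -/
def TypB (f : F[X]) : Prop :=
  ∃ (s : F) (h : F[X]), h.Monic ∧ Irreducible h ∧ f = (X - C s) * h ∧ h.eval s ≠ 0

/-- `f = p h`, `p` an irreducible quadratic polynomial, `h` irreducible of odd degree, or
`f = p (X - s) h` with moreover `h(s) ≠ 0`. -/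
def TypC (f : F[X]) : Prop :=
  ∃ p h : F[X], p.Monic ∧ Irreducible p ∧ p.natDegree = 2 ∧ h.Monic ∧ Irreducible h ∧
    Odd h.natDegree ∧ (f = p * h ∨ ∃ s : F, h.eval s ≠ 0 ∧ f = p * (X - C s) * h)

end local_types

section gen

variable {k K : Type} [Field k] [Field K] [Algebra k K] {r : ℕ}

/-- `a` is integral at `v` and its reduction has the type `T`. -/
def At (v : Place k K) (T : (ResidueField v.ring)[X] → Prop) (a : Fin r → K) : Prop :=
  IntV v a ∧ T (pol r (redV v a))

/-- The generic shapes (for `r ≥ 2`): some multiple of `a` has the types `A`, `B`, `C` at three places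
(so the Galois group of `pol r a` is the symmetric group), and the coefficients of weight two and
three are not zero. -/
structure GenS (k : Type) {K : Type} [Field k] [Field K] [Algebra k K] {r : ℕ}
    (a : Fin r → K) : Prop where
  ne : ∀ j : Fin r, (j : ℕ) ≤ 1 → a j ≠ 0
  typ : ∃ u : K, u ≠ 0 ∧ (∃ v : Place k K, At v TypA (sc u a)) ∧
    (∃ v : Place k K, At v TypB (sc u a)) ∧ ∃ v : Place k K, At v TypC (sc u a)

/-- The good shapes: the Galois group is the symmetric group. -/
structure GalS {K : Type} [Field K] {r : ℕ} (a : Fin r → K) : Prop where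
  ne : ∀ j : Fin r, (j : ℕ) ≤ 1 → a j ≠ 0
  gal : Nat.card (pol r a).Gal = (r + 1).factorial

end gen

section jac

/-- The conclusions for the Jacobian of `y ^ l = f(x)`. -/
def GoodL (k : Type) {K : Type} [Field k] [Field K] [Algebra k K] (l : ℕ) [Fact l.Prime] (f : K[X])
    (B : ℕ) : Prop := ∃ _ : CopDeg l f, SmS.Fn.GoodJ k l f B

end jac

end Pool.Agent.HS
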