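import Pool.Agent.Lib.HS.Defs

/-!
HS (all superelliptic curves over a global function field, MP_950c68_ag), module Pol.
Basic facts on `pol g a`.
-/

set_option autoImplicit false

open Polynomial

namespace Pool.Agent.HS

open Pool.Agent.BSDFF Pool.Agent.GBC Pool.Agent.GBU
open Pool.Agent.SmS.Fn (Tws)
open IsLocalRing (ResidueField residue)

variable {R S : Type*} [CommRing R] [CommRing S] (g : ℕ)

private theorem Pol_degree_sum (a : Fin g → R) :
    (∑ j : Fin g, C (a j) * X ^ (g - 1 - (j : ℕ))).degree < ((g : ℕ) : WithBot ℕ) := by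
  refine lt_of_le_of_lt (Polynomial.degree_sum_le _ _) ?_
  rw [Finset.sup_lt_iff (WithBot.bot_lt_coe _)]
  intro j _
  refine lt_of_le_of_lt (Polynomial.degree_C_mul_X_pow_le _ _) ?_
  have hj := j.isLt
  exact_mod_cast (by omega : g - 1 - (j : ℕ) < g)

private theorem Pol_degree_sum' (a : Fin g → R) :
    (∑ j : Fin g, C (a j) * X ^ (g - 1 - (j : ℕ))).degree
      < ((g + 1 : ℕ) : WithBot ℕ) :=
  lt_trans (Pol_degree_sum g a) (by exact_mod_cast Nat.lt_succ_self _)

theorem pol_monic [Nontrivial R] (a : Fin g → R) : (pol g a).Monic := by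
  unfold pol
  exact Polynomial.monic_X_pow_add (Pol_degree_sum' g a)

theorem natDegree_pol [Nontrivial R] (a : Fin g → R) :
    (pol g a).natDegree = g + 1 := by
  unfold pol
  refine Polynomial.natDegree_eq_of_degree_eq_some ?_
  rw [Polynomial.degree_add_eq_left_of_degree_lt, Polynomial.degree_X_pow]
  rw [Polynomial.degree_X_pow]
  exact Pol_degree_sum' g a

private theorem Pol_coeff_sum (a : Fin g → R) (n : ℕ) :
    (∑ j : Fin g, C (a j) * X ^ (g - 1 - (j : ℕ))).coeff n
      = ∑ j : Fin g, if n = g - 1 - (j : ℕ) then a j else 0 := by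
  rw [Polynomial.finsetSum_coeff]
  refine Finset.sum_congr rfl fun j _ => ?_
  rw [Polynomial.coeff_C_mul_X_pow]

theorem coeff_pol (a : Fin g → R) (j : Fin g) :
    (pol g a).coeff (g - 1 - (j : ℕ)) = a j := by
  have hj := j.isLt
  unfold pol
  rw [Polynomial.coeff_add, Polynomial.coeff_X_pow, if_neg (by omega), zero_add, Pol_coeff_sum,
    Finset.sum_eq_single j]
  · rw [if_pos rfl]
  · intro i _ hij
    have hi := i.isLt
    rw [if_neg]
    intro h
    apply hij
    apply Fin.ext
    omega
  · intro h
    exact absurd (Finset.mem_univ j) h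

theorem coeff_pol_tr (a : Fin g → R) : (pol g a).coeff g = 0 := by
  unfold pol
  rw [Polynomial.coeff_add, Polynomial.coeff_X_pow, if_neg (by omega), zero_add]
  exact Polynomial.coeff_eq_zero_of_degree_lt (Pol_degree_sum g a)

theorem map_pol (φ : R →+* S) (a : Fin g → R) :
    (pol g a).map φ = pol g fun j => φ (a j) := by
  unfold pol
  rw [Polynomial.map_add, Polynomial.map_pow, Polynomial.map_X, Polynomial.map_sum]
  congr 1
  refine Finset.sum_congr rfl fun j _ => ?_
  rw [Polynomial.map_mul, Polynomial.map_C, Polynomial.map_pow, Polynomial.map_X]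

theorem exists_pol [Nontrivial R] {f : R[X]} (hf : f.Monic) (hd : f.natDegree = g + 1)
    (ht : f.coeff g = 0) : ∃ a : Fin g → R, f = pol g a := by
  refine ⟨fun j => f.coeff (g - 1 - (j : ℕ)), ?_⟩
  ext n
  rcases lt_trichotomy n g with hn | hn | hn
  · have h1 := coeff_pol g (fun j : Fin g => f.coeff (g - 1 - (j : ℕ)))
      ⟨g - 1 - n, by omega⟩
    have h2 : g - 1 - (g - 1 - n) = n := by omega
    simp only [h2] at h1
    rw [h1]
  · rw [hn, coeff_pol_tr, ht]
  · rcases Nat.lt_or_ge (g + 1) n with hm | hm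
    · rw [Polynomial.coeff_eq_zero_of_natDegree_lt (by omega),
        Polynomial.coeff_eq_zero_of_natDegree_lt (by rw [natDegree_pol]; omega)]
    · have hn' : n = g + 1 := by omega
      have h1 := hf
      have h2 := pol_monic g (fun j : Fin g => f.coeff (g - 1 - (j : ℕ)))
      unfold Polynomial.Monic Polynomial.leadingCoeff at h1 h2
      rw [natDegree_pol] at h2
      rw [hd] at h1
      rw [hn', h1, h2]

theorem pol_injective : Function.Injective (pol g : (Fin g → R) → R[X]) := by
  intro a b h
  funext j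
  rw [← coeff_pol g a j, h, coeff_pol]

theorem scaleRoots_pol {K : Type} [Field K] (a : Fin g → K) (u : K) :
    (pol g a).scaleRoots u = pol g (sc u a) := by
  ext n
  rw [Polynomial.coeff_scaleRoots, natDegree_pol]
  rcases lt_trichotomy n g with hn | hn | hn
  · have h1 := coeff_pol g a ⟨g - 1 - n, by omega⟩
    have h3 := coeff_pol g (sc u a) ⟨g - 1 - n, by omega⟩
    have h2 : g - 1 - (g - 1 - n) = n := by omega
    simp only [h2] at h1 h3
    rw [h1, h3]
    unfold sc
    have h4 : g - 1 - n + 2 = g + 1 - n := by omega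
    simp only [h4]
    ring
  · rw [hn, coeff_pol_tr, coeff_pol_tr, zero_mul]
  · rcases Nat.lt_or_ge (g + 1) n with hm | hm
    · rw [Polynomial.coeff_eq_zero_of_natDegree_lt (by rw [natDegree_pol]; omega),
        Polynomial.coeff_eq_zero_of_natDegree_lt (by rw [natDegree_pol]; omega), zero_mul]
    · have hn' : n = g + 1 := by omega
      have h1 := pol_monic g a
      have h2 := pol_monic g (sc u a)
      unfold Polynomial.Monic Polynomial.leadingCoeff at h1 h2
      rw [natDegree_pol] at h1 h2
      rw [hn', h1, h2, Nat.sub_self, pow_zero, mul_one]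

end Pool.Agent.HS
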