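import Pool.Agent.Lib.HS.Defs
import Pool.Agent.Lib.HA.Irr
import Pool.Agent.Lib.HS.Pol

/-!
HS (all superelliptic curves over a global function field, MP_950c68_ag), module DensA.
`TypA`: the translations `f(x + s)` act on the irreducible monic polynomials of degree `n = 2 g + 1`, each orbit has
`#F` elements (`n ≠ 0` in `F`) and exactly one with zero trace: the number is `#Irr_n / #F`. `TypB`: `h` irreducible of
degree `2 g` arbitrary, `r = h.coeff (2 g - 1)`; the map `h ↦ (X - r) h` is injective.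
-/

set_option autoImplicit false

open Polynomial

namespace Pool.Agent.HS

open Pool.Agent.BSDFF Pool.Agent.GBC Pool.Agent.GBU
open Pool.Agent.HA (card_irr)
open IsLocalRing (ResidueField residue)

/-- The coefficient below the top of a translate. -/
private theorem DensA_coeff {F : Type} [Field F] {n : ℕ} {h : F[X]} (hm : h.Monic)
    (hd : h.natDegree = n + 1) (s : F) :
    (taylor s h).coeff n = h.coeff n + ((n + 1 : ℕ) : F) * s := by
  rw [taylor_coeff]
  have h1 : (hasseDeriv n h).natDegree ≤ 1 := by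
    refine (natDegree_hasseDeriv_le h n).trans ?_
    omega
  have h2 : (hasseDeriv n h).eval s = (hasseDeriv n h).coeff 0 + (hasseDeriv n h).coeff 1 * s := by
    rw [eval_eq_sum_range' (Nat.lt_succ_of_le h1), Finset.sum_range_succ, Finset.sum_range_one]
    simp
  rw [h2, hasseDeriv_coeff, hasseDeriv_coeff]
  have h3 : h.coeff (1 + n) = 1 := by
    rw [add_comm, ← hd]
    exact hm.coeff_natDegree
  rw [h3]
  have h4 : (0 + n).choose n = 1 := by simp
  have h5 : (1 + n).choose n = n + 1 := by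
    rw [add_comm]
    exact Nat.choose_succ_self_right n
  rw [h4, h5]
  simp

private theorem DensA_irr {F : Type} [Field F] (s : F) {h : F[X]} (hh : Irreducible h) :
    Irreducible (taylor s h) := by
  have h1 := (MulEquiv.irreducible_iff (taylorEquiv s)).2 hh
  exact h1

theorem dens_A {g : ℕ} (hg : 1 ≤ g) : ∃ c : ℝ, 0 < c ∧ ∃ Q₀ : ℕ, ∀ (F : Type) [Field F]
    [Finite F], Q₀ ≤ Nat.card F → ((g + 1 : ℕ) : F) ≠ 0 →
      c * (Nat.card F : ℝ) ^ g ≤ {a : Fin g → F | TypA (pol g a)}.ncard := by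
  obtain ⟨Q₀, hQ⟩ := card_irr (n := g + 1) (by omega)
  refine ⟨1 / (2 * ((g + 1 : ℕ) : ℝ)), by positivity, Q₀, fun F _ _ hF hn => ?_⟩
  have h1 := hQ F hF
  set I : Set F[X] := {h : F[X] | h.Monic ∧ Irreducible h ∧ h.natDegree = g + 1} with hI
  set A : Set (Fin g → F) := {a : Fin g → F | TypA (pol g a)} with hA
  have hsub : I ⊆ (fun p : (Fin g → F) × F => taylor (-p.2) (pol g p.1)) ''
      (A ×ˢ (Set.univ : Set F)) := by
    rintro h ⟨hm, hi, hd⟩
    set s : F := -h.coeff g / ((g + 1 : ℕ) : F) with hs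
    have hmon : (taylor s h).Monic := by
      have := hm
      rw [Monic, taylor_apply] at *
      have h3 : (h.comp (X + C s)).leadingCoeff = h.leadingCoeff := by
        rw [leadingCoeff_comp (by rw [natDegree_X_add_C]; exact one_ne_zero)]
        simp
      rw [h3]
      exact hm
    have hdeg : (taylor s h).natDegree = g + 1 := by
      rw [natDegree_taylor, hd]
    have hco : (taylor s h).coeff g = 0 := by
      rw [DensA_coeff hm hd, hs, mul_div_cancel₀ _ hn]
      ring
    obtain ⟨a, ha⟩ := exists_pol g hmon hdeg hco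
    refine ⟨(a, s), ⟨?_, Set.mem_univ _⟩, ?_⟩
    · change Irreducible (pol g a)
      rw [← ha]
      exact DensA_irr s hi
    · change taylor (-s) (pol g a) = h
      rw [← ha, taylor_taylor]
      simp
  have hfin : (A ×ˢ (Set.univ : Set F)).Finite := Set.toFinite _
  have h2 : I.ncard ≤ A.ncard * Nat.card F := by
    calc I.ncard ≤ _ := Set.ncard_le_ncard hsub (hfin.image _)
      _ ≤ (A ×ˢ (Set.univ : Set F)).ncard := Set.ncard_image_le hfin
      _ = A.ncard * Nat.card F := by rw [Set.ncard_prod, Set.ncard_univ]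
  have h3 : (I.ncard : ℝ) ≤ A.ncard * Nat.card F := by exact_mod_cast h2
  have hq : (0 : ℝ) < Nat.card F := by exact_mod_cast Nat.card_pos
  have hp : (0 : ℝ) < ((g + 1 : ℕ) : ℝ) := by positivity
  have h4 : (Nat.card F : ℝ) ^ g * Nat.card F ≤
      2 * ((g + 1 : ℕ) : ℝ) * A.ncard * Nat.card F := by
    calc (Nat.card F : ℝ) ^ g * Nat.card F = (Nat.card F : ℝ) ^ (g + 1) := by
          rw [pow_succ]
      _ ≤ 2 * ((g + 1 : ℕ) : ℝ) * I.ncard := h1
      _ ≤ 2 * ((g + 1 : ℕ) : ℝ) * (A.ncard * Nat.card F) := by gcongr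
      _ = _ := by ring
  have h5 := le_of_mul_le_mul_right h4 hq
  rw [one_div, inv_mul_le_iff₀ (by positivity)]
  exact h5

theorem dens_B {g : ℕ} (hg : 2 ≤ g) : ∃ c : ℝ, 0 < c ∧ ∃ Q₀ : ℕ, ∀ (F : Type) [Field F]
    [Finite F], Q₀ ≤ Nat.card F →
      c * (Nat.card F : ℝ) ^ g ≤ {a : Fin g → F | TypB (pol g a)}.ncard := by
  obtain ⟨Q₀, hQ⟩ := card_irr (n := g) (by omega)
  refine ⟨1 / (2 * ((g : ℕ) : ℝ)), ?_, Q₀, fun F _ _ hF => ?_⟩
  · have : (0 : ℝ) < ((g : ℕ) : ℝ) := by exact_mod_cast (by omega : 0 < g)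
    positivity
  have h1 := hQ F hF
  set I : Set F[X] := {h : F[X] | h.Monic ∧ Irreducible h ∧ h.natDegree = g} with hI
  set A : Set (Fin g → F) := {a : Fin g → F | TypB (pol g a)} with hA
  let G : F[X] → (Fin g → F) := fun h j =>
    ((X - C (h.coeff (g - 1))) * h).coeff (g - 1 - (j : ℕ))
  have hG : ∀ h ∈ I, pol g (G h) = (X - C (h.coeff (g - 1))) * h := by
    rintro h ⟨hm, -, hd⟩
    have hmon : ((X - C (h.coeff (g - 1))) * h).Monic := (monic_X_sub_C _).mul hm
    have hdeg : ((X - C (h.coeff (g - 1))) * h).natDegree = g + 1 := by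
      rw [(monic_X_sub_C _).natDegree_mul hm, natDegree_X_sub_C, hd, add_comm]
    have hco : ((X - C (h.coeff (g - 1))) * h).coeff g = 0 := by
      obtain ⟨m, hm'⟩ : ∃ m, g = m + 1 := ⟨g - 1, by omega⟩
      have hh : h.coeff (m + 1) = 1 := by
        rw [← hm', ← hd]
        exact hm.coeff_natDegree
      rw [hm', sub_mul, coeff_sub, coeff_X_mul, coeff_C_mul, hh]
      simp
    obtain ⟨a, ha⟩ := exists_pol g hmon hdeg hco
    have hGa : G h = a := by
      funext j
      change ((X - C (h.coeff (g - 1))) * h).coeff (g - 1 - (j : ℕ)) = a j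
      rw [ha, coeff_pol]
    rw [hGa, ← ha]
  have hmaps : ∀ h ∈ I, G h ∈ A := by
    intro h hh
    change TypB (pol g (G h))
    refine ⟨h.coeff (g - 1), h, hh.1, hh.2.1, hG h hh, fun h0 => ?_⟩
    have h2 : h.natDegree = 1 := natDegree_eq_of_degree_eq_some
      (degree_eq_one_of_irreducible_of_root hh.2.1 h0)
    have h3 := hh.2.2
    omega
  have hinj : Set.InjOn G I := by
    intro h hh h' hh' he
    have h2 : (X - C (h.coeff (g - 1))) * h = (X - C (h'.coeff (g - 1))) * h' := by
      rw [← hG h hh, ← hG h' hh', he]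
    have h3 : h.coeff (g - 1) = h'.coeff (g - 1) := by
      by_contra hne
      have h4 : ((X - C (h'.coeff (g - 1))) * h').eval (h.coeff (g - 1)) = 0 := by
        rw [← h2]
        simp
      rw [eval_mul] at h4
      rcases mul_eq_zero.1 h4 with h5 | h5
      · rw [eval_sub, eval_X, eval_C, sub_eq_zero] at h5
        exact hne h5
      · have h6 : h'.natDegree = 1 := natDegree_eq_of_degree_eq_some
          (degree_eq_one_of_irreducible_of_root hh'.2.1 h5)
        have h7 := hh'.2.2
        omega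
    rw [h3] at h2
    exact mul_left_cancel₀ (X_sub_C_ne_zero _) h2
  have h2 : I.ncard ≤ A.ncard :=
    Set.ncard_le_ncard_of_injOn G hmaps hinj (Set.toFinite _)
  have h3 : (I.ncard : ℝ) ≤ A.ncard := by exact_mod_cast h2
  have hp : (0 : ℝ) < ((g : ℕ) : ℝ) := by exact_mod_cast (by omega : 0 < g)
  have h4 : (Nat.card F : ℝ) ^ g ≤ 2 * ((g : ℕ) : ℝ) * A.ncard :=
    h1.trans (by gcongr)
  rw [one_div, inv_mul_le_iff₀ (by positivity)]
  exact h4

end Pool.Agent.HS
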