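import Pool.Agent.Lib.HS.Defs
import Pool.Agent.Lib.HA.Irr
import Pool.Agent.Lib.HS.Pol

/-!
HS (all superelliptic curves over a global function field, MP_950c68_ag), module DensC.
The density of the polynomials of type `C` (degree `g + 1`, coefficient of `X ^ g` zero) over a finite field.

For `g` even: PORT of `dens_C` in `HA/DensC.lean` (there `2 g` is our `g`): `h` irreducible of degree `g - 1`, the
quadratic polynomial `p` has trace coefficient `- h.nextCoeff` and a nonsquare discriminant; first case of `TypC`.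
For `g` odd, `g ≥ 3`: triples `(s, h, σ)`, `s : F`, `h` monic irreducible of degree `g - 2` (odd) with `h(s) ≠ 0`, `σ` a nonsquare, and
`a` = the coefficients of `p (X - s) h`, `p = X ^ 2 + b X + (b ^ 2 - σ) / 4`, `b = s - h.nextCoeff` (trace condition); second case of
`TypC`. For given `a` there are at most `g + 1` values of `s` (the roots of `pol g a`), and `s` and `a` determine `(h, σ)` as in
`HA/DensC.lean` (`h` is the only monic irreducible factor of odd degree of `pol g a / (X - s) = p h`). The number of the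
`(s, h)` is at least `(#F - (g - 2)) #{h}` (`h` has at most `g - 2` roots), the number of the `σ` at least `(#F - 1) / 2` (`dc_nonsq`).
`card_irr`: `#F ^ n ≤ 2 n #{h}`.
-/

set_option autoImplicit false

open Polynomial

namespace Pool.Agent.HS

open Pool.Agent.HA (card_irr)

private theorem dc_nonsq (F : Type) [Field F] [Finite F] (h2 : (2 : F) ≠ 0) :
    Nat.card F ≤ 2 * {s : F | ¬ IsSquare s}.ncard + 1 := by
  classical
  have := Fintype.ofFinite F
  obtain ⟨n, hn⟩ := FiniteField.exists_nonsquare (F := F) (by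
    intro h
    apply h2
    have h3 := ringChar.Nat.cast_ringChar (R := F)
    rw [h] at h3
    exact_mod_cast h3)
  have hn0 : n ≠ 0 := by
    rintro rfl
    exact hn ⟨0, by simp⟩
  have h3 : (Finset.univ.erase (0 : F)).card ≤
      2 * ((Finset.univ.erase (0 : F)).image fun x => n * x ^ 2).card := by
    refine Finset.card_le_mul_card_image _ 2 ?_
    intro a ha
    obtain ⟨y, hy, rfl⟩ := Finset.mem_image.mp ha
    refine (Finset.card_le_card (t := {y, -y}) ?_).trans Finset.card_le_two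
    intro x hx
    have h4 : n * x ^ 2 = n * y ^ 2 := (Finset.mem_filter.mp hx).2
    have h5 : x ^ 2 = y ^ 2 := mul_left_cancel₀ hn0 h4
    rcases sq_eq_sq_iff_eq_or_eq_neg.mp h5 with h6 | h6
    · simp [h6]
    · simp [h6]
  have h4 : ((Finset.univ.erase (0 : F)).image fun x => n * x ^ 2).card ≤
      {s : F | ¬ IsSquare s}.ncard := by
    rw [← Set.ncard_coe_finset]
    refine Set.ncard_le_ncard ?_ (Set.toFinite _)
    intro a ha
    obtain ⟨x, hx, rfl⟩ := Finset.mem_image.mp (Finset.mem_coe.mp ha)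
    have hx0 : x ≠ 0 := Finset.ne_of_mem_erase hx
    rintro ⟨r, hr⟩
    refine hn ⟨r / x, ?_⟩
    field_simp
    rw [hr]
    ring
  have h5 : (Finset.univ.erase (0 : F)).card + 1 = Nat.card F := by
    rw [Finset.card_erase_add_one (Finset.mem_univ _), Finset.card_univ, Nat.card_eq_fintype_card]
  omega

private theorem dc_mk {F : Type} [Field F] {g : ℕ} (hg : 1 ≤ g) {p h : F[X]} (hp : p.Monic)
    (hh : h.Monic) (hd : p.natDegree + h.natDegree = g + 1)
    (ht : p.nextCoeff + h.nextCoeff = 0) :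
    pol g (fun j : Fin g => (p * h).coeff (g - 1 - (j : ℕ))) = p * h := by
  have h1 : (p * h).natDegree = g + 1 := by
    rw [hp.natDegree_mul hh, hd]
  have h2 : (p * h).coeff g = 0 := by
    have h3 := hp.nextCoeff_mul hh
    rw [ht, nextCoeff_of_natDegree_pos (by omega), h1] at h3
    exact h3
  obtain ⟨a, ha⟩ := exists_pol g (hp.mul hh) h1 h2
  rw [ha]
  congr 1
  funext j
  exact coeff_pol g a j

private theorem dc_dvd {F : Type} [Field F] {h h' : F[X]} (hh : h.Monic) (hi : Irreducible h)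
    (hh' : h'.Monic) (hi' : Irreducible h') (hd : h ∣ h') : h = h' :=
  eq_of_monic_of_associated hh hh' (hi.associated_of_dvd hi' hd)

/-- The quadratic polynomial. -/
private noncomputable def dcQ {F : Type} [Field F] (b s : F) : F[X] :=
  X ^ 2 + (C b * X + C ((b ^ 2 - s) / 4))

private theorem dcQ_lt {F : Type} [Field F] (b s : F) :
    (C b * X + C ((b ^ 2 - s) / 4) : F[X]).degree < (2 : ℕ) := by
  refine lt_of_le_of_lt degree_linear_le ?_
  norm_num

private theorem dcQ_monic {F : Type} [Field F] (b s : F) : (dcQ b s).Monic :=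
  monic_X_pow_add (dcQ_lt b s)

private theorem dcQ_natDegree {F : Type} [Field F] (b s : F) : (dcQ b s).natDegree = 2 := by
  refine natDegree_eq_of_degree_eq_some ?_
  unfold dcQ
  rw [degree_add_eq_left_of_degree_lt (by rw [degree_X_pow]; exact dcQ_lt b s), degree_X_pow]

private theorem dcQ_coeff_zero {F : Type} [Field F] (b s : F) :
    (dcQ b s).coeff 0 = (b ^ 2 - s) / 4 := by
  simp [dcQ]

private theorem dcQ_nextCoeff {F : Type} [Field F] (b s : F) : (dcQ b s).nextCoeff = b := by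
  rw [nextCoeff_of_natDegree_pos (by rw [dcQ_natDegree]; norm_num), dcQ_natDegree]
  simp [dcQ, coeff_C]

private theorem dcQ_irr {F : Type} [Field F] (h4 : (4 : F) ≠ 0) (b s : F) (hs : ¬ IsSquare s) :
    Irreducible (dcQ b s) := by
  rw [(dcQ_monic b s).irreducible_iff_roots_eq_zero_of_degree_le_three (by rw [dcQ_natDegree])
    (by rw [dcQ_natDegree]; norm_num)]
  refine Multiset.eq_zero_of_forall_notMem fun x hx => hs ⟨2 * x + b, ?_⟩
  have hx1 : (dcQ b s).eval x = 0 := (mem_roots'.mp hx).2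
  simp only [dcQ, eval_add, eval_pow, eval_X, eval_mul, eval_C] at hx1
  field_simp at hx1
  linear_combination -hx1

/-- `p h` determines `h` and the constant `s` of `p`. -/
private theorem dc_inj {F : Type} [Field F] (h4 : (4 : F) ≠ 0) {h h' : F[X]} {b b' s s' : F}
    (hh : h.Monic) (hi : Irreducible h) (ho : Odd h.natDegree) (hh' : h'.Monic)
    (hi' : Irreducible h') (hs' : ¬ IsSquare s') (hb : h = h' → b = b')
    (he : dcQ b' s' * h' = dcQ b s * h) : h = h' ∧ s = s' := by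
  have e3 : h ∣ dcQ b' s' * h' := by
    rw [he]
    exact dvd_mul_left _ _
  have e4 : h = h' := by
    rcases hi.prime.dvd_or_dvd e3 with h5 | h5
    · exfalso
      have h6 := dc_dvd hh hi (dcQ_monic _ _) (dcQ_irr h4 _ _ hs') h5
      rw [h6, dcQ_natDegree] at ho
      exact absurd ho (by decide)
    · exact dc_dvd hh hi hh' hi' h5
  have hbb := hb e4
  subst e4
  subst hbb
  have e5 : dcQ b s' = dcQ b s := mul_right_cancel₀ hh.ne_zero he
  have e6 := congrArg (fun p : F[X] => p.coeff 0) e5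
  simp only [dcQ_coeff_zero] at e6
  refine ⟨rfl, ?_⟩
  field_simp at e6
  linear_combination e6

private theorem dc_four {F : Type} [Field F] (h2 : (2 : F) ≠ 0) : (4 : F) ≠ 0 := by
  have : (4 : F) = 2 * 2 := by norm_num
  rw [this]
  exact mul_ne_zero h2 h2

private theorem dens_C_even {g : ℕ} (hg : 2 ≤ g) (he : Even g) : ∃ c : ℝ, 0 < c ∧ ∃ Q₀ : ℕ,
    ∀ (F : Type) [Field F] [Finite F], Q₀ ≤ Nat.card F → (2 : F) ≠ 0 →
      c * (Nat.card F : ℝ) ^ g ≤ {a : Fin g → F | TypC (pol g a)}.ncard := by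
  obtain ⟨Q₁, hQ₁⟩ := card_irr (n := g - 1) (by omega)
  have hgr : (0 : ℝ) < ((g - 1 : ℕ) : ℝ) := by
    have : 0 < g - 1 := by omega
    exact_mod_cast this
  have hodd : Odd (g - 1) := by
    obtain ⟨m, hm⟩ := he
    exact ⟨m - 1, by omega⟩
  refine ⟨1 / (6 * ((g - 1 : ℕ) : ℝ)), by positivity, max Q₁ 3, fun F _ _ hF h2 => ?_⟩
  have hF1 : Q₁ ≤ Nat.card F := le_trans (le_max_left _ _) hF
  have hF3 : 3 ≤ Nat.card F := le_trans (le_max_right _ _) hF
  have h4 : (4 : F) ≠ 0 := dc_four h2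
  set I : Set F[X] := {h : F[X] | h.Monic ∧ Irreducible h ∧ h.natDegree = g - 1} with hI
  set S : Set F := {s : F | ¬ IsSquare s} with hS
  let Φ : F[X] × F → (Fin g → F) := fun z j =>
    (dcQ (-z.1.nextCoeff) z.2 * z.1).coeff (g - 1 - (j : ℕ))
  have hΦ : ∀ z ∈ I ×ˢ S, pol g (Φ z) = dcQ (-z.1.nextCoeff) z.2 * z.1 := by
    rintro ⟨h, s⟩ ⟨⟨hh, hi, hd⟩, hs⟩
    simp only at hh hi hd hs
    exact dc_mk (by omega) (dcQ_monic _ _) hh (by rw [dcQ_natDegree, hd]; omega)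
      (by rw [dcQ_nextCoeff]; simp)
  have hcard : (I ×ˢ S).ncard ≤ {a : Fin g → F | TypC (pol g a)}.ncard := by
    refine Set.ncard_le_ncard_of_injOn Φ ?_ ?_ (Set.toFinite _)
    · rintro ⟨h, s⟩ hz
      obtain ⟨⟨hh, hi, hd⟩, hs⟩ := hz
      refine ⟨dcQ (-h.nextCoeff) s, h, dcQ_monic _ _, dcQ_irr h4 _ _ hs, dcQ_natDegree _ _, hh, hi,
        ?_, Or.inl ?_⟩
      · rw [hd]
        exact hodd
      · exact hΦ (h, s) ⟨⟨hh, hi, hd⟩, hs⟩
    · rintro ⟨h, s⟩ hz ⟨h', s'⟩ hz' heq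
      have e1 := hΦ _ hz
      have e2 := hΦ _ hz'
      rw [heq, e2] at e1
      obtain ⟨⟨hh, hi, hd⟩, hs⟩ := hz
      obtain ⟨⟨hh', hi', hd'⟩, hs'⟩ := hz'
      simp only at e1 hh hi hd hs hh' hi' hd' hs'
      obtain ⟨e4, e7⟩ := dc_inj h4 hh hi (by rw [hd]; exact hodd) hh' hi' hs'
        (fun h => by rw [h]) e1
      rw [e4, e7]
  rw [Set.ncard_prod] at hcard
  have hI1 := hQ₁ F hF1
  have hS1 : Nat.card F ≤ 2 * S.ncard + 1 := dc_nonsq F h2
  have hS2 : Nat.card F ≤ 3 * S.ncard := by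
    have : 1 ≤ S.ncard := by omega
    omega
  have hS3 : (Nat.card F : ℝ) ≤ 3 * (S.ncard : ℝ) := by exact_mod_cast hS2
  have hcard' : (I.ncard : ℝ) * (S.ncard : ℝ) ≤
      ({a : Fin g → F | TypC (pol g a)}.ncard : ℝ) := by exact_mod_cast hcard
  refine le_trans ?_ hcard'
  rw [div_mul_eq_mul_div, one_mul, div_le_iff₀ (by positivity)]
  have h6 : (Nat.card F : ℝ) ^ g = (Nat.card F : ℝ) ^ (g - 1) * Nat.card F := by
    rw [← pow_succ]
    congr 1
    omega
  rw [h6]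
  have h7 : (0 : ℝ) ≤ (Nat.card F : ℝ) := Nat.cast_nonneg _
  have h8 : (0 : ℝ) ≤ (I.ncard : ℝ) := Nat.cast_nonneg _
  calc (Nat.card F : ℝ) ^ (g - 1) * Nat.card F
      ≤ (2 * ((g - 1 : ℕ) : ℝ) * (I.ncard : ℝ)) * (3 * (S.ncard : ℝ)) :=
        mul_le_mul hI1 hS3 h7 (by positivity)
    _ = (I.ncard : ℝ) * (S.ncard : ℝ) * (6 * ((g - 1 : ℕ) : ℝ)) := by ring

private theorem dens_C_odd {g : ℕ} (hg : 3 ≤ g) (he : Odd g) : ∃ c : ℝ, 0 < c ∧ ∃ Q₀ : ℕ,
    ∀ (F : Type) [Field F] [Finite F], Q₀ ≤ Nat.card F → (2 : F) ≠ 0 →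
      c * (Nat.card F : ℝ) ^ g ≤ {a : Fin g → F | TypC (pol g a)}.ncard := by
  classical
  obtain ⟨Q₁, hQ₁⟩ := card_irr (n := g - 2) (by omega)
  have hg0 : 0 < g - 2 := by omega
  have hgr : (0 : ℝ) < ((g - 2 : ℕ) : ℝ) := by exact_mod_cast hg0
  have hodd : Odd (g - 2) := by
    obtain ⟨m, hm⟩ := he
    exact ⟨m - 1, by omega⟩
  refine ⟨1 / (12 * ((g - 2 : ℕ) : ℝ) * ((g : ℝ) + 1)), by positivity,
    max Q₁ (max 3 (4 * (g - 2))), fun F _ _ hF h2 => ?_⟩
  have hF1 : Q₁ ≤ Nat.card F := le_trans (le_max_left _ _) hF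
  have hF2 : max 3 (4 * (g - 2)) ≤ Nat.card F := le_trans (le_max_right _ _) hF
  have hF3 : 3 ≤ Nat.card F := le_trans (le_max_left _ _) hF2
  have hF4 : 4 * (g - 2) ≤ Nat.card F := le_trans (le_max_right _ _) hF2
  have h4 : (4 : F) ≠ 0 := dc_four h2
  set I : Set F[X] := {h : F[X] | h.Monic ∧ Irreducible h ∧ h.natDegree = g - 2} with hI
  have hIfin : I.Finite := BSDP.finite_irr (g - 2)
  set S : Set F := {s : F | ¬ IsSquare s} with hS
  set P : Set (F × F[X]) := {z | z.2 ∈ I ∧ z.2.eval z.1 ≠ 0} with hP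
  have hUI : (Set.univ ×ˢ I : Set (F × F[X])).Finite := Set.finite_univ.prod hIfin
  have hPfin : P.Finite := hUI.subset fun z hz => ⟨Set.mem_univ _, hz.1⟩
  have hPS : (P ×ˢ S).Finite := hPfin.prod (Set.toFinite _)
  -- the number of the pairs
  have hPcard : Nat.card F * I.ncard ≤ P.ncard + Nat.card F := by
    set B : Set (F × F[X]) := {z | z.2 ∈ I ∧ z.2.eval z.1 = 0} with hB
    have hBfin : B.Finite := hUI.subset fun z hz => ⟨Set.mem_univ _, hz.1⟩
    have hsub : (Set.univ ×ˢ I : Set (F × F[X])) ⊆ P ∪ B := by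
      rintro z ⟨-, hz⟩
      by_cases h : z.2.eval z.1 = 0
      · exact Or.inr ⟨hz, h⟩
      · exact Or.inl ⟨hz, h⟩
    have hBc : B.ncard ≤ Nat.card F := by
      rw [← Set.ncard_univ]
      refine Set.ncard_le_ncard_of_injOn Prod.fst (fun _ _ => Set.mem_univ _) ?_ (Set.toFinite _)
      rintro ⟨s, h⟩ ⟨⟨hm, hi, -⟩, hr⟩ ⟨s', h'⟩ ⟨⟨hm', hi', -⟩, hr'⟩ heq
      simp only at hm hi hr hm' hi' hr' heq
      subst heq
      have e1 := dc_dvd (monic_X_sub_C s) (irreducible_X_sub_C s) hm hi (dvd_iff_isRoot.mpr hr)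
      have e2 := dc_dvd (monic_X_sub_C s) (irreducible_X_sub_C s) hm' hi'
        (dvd_iff_isRoot.mpr hr')
      rw [← e1, ← e2]
    calc Nat.card F * I.ncard = (Set.univ ×ˢ I : Set (F × F[X])).ncard := by
          rw [Set.ncard_prod, Set.ncard_univ]
      _ ≤ (P ∪ B).ncard := Set.ncard_le_ncard hsub (hPfin.union hBfin)
      _ ≤ P.ncard + B.ncard := Set.ncard_union_le _ _
      _ ≤ P.ncard + Nat.card F := by omega
  -- the map
  let Q : (F × F[X]) × F → F[X] := fun z => dcQ (z.1.1 - z.1.2.nextCoeff) z.2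
  let Φ : (F × F[X]) × F → (Fin g → F) := fun z j =>
    (Q z * ((X - C z.1.1) * z.1.2)).coeff (g - 1 - (j : ℕ))
  have hΦ : ∀ z ∈ P ×ˢ S, pol g (Φ z) = Q z * ((X - C z.1.1) * z.1.2) := by
    rintro ⟨⟨s, h⟩, σ⟩ ⟨⟨⟨hh, hi, hd⟩, hr⟩, hs⟩
    simp only at hh hi hd hs hr
    refine dc_mk (by omega) (dcQ_monic _ _) ((monic_X_sub_C s).mul hh) ?_ ?_
    · rw [dcQ_natDegree, (monic_X_sub_C s).natDegree_mul hh, natDegree_X_sub_C, hd]
      omega
    · rw [dcQ_nextCoeff, (monic_X_sub_C s).nextCoeff_mul hh, nextCoeff_X_sub_C]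
      ring
  have hcard : (P ×ˢ S).ncard ≤ (g + 1) * {a : Fin g → F | TypC (pol g a)}.ncard := by
    set T : Finset ((F × F[X]) × F) := hPS.toFinset with hT
    have hTm : ∀ z, z ∈ T ↔ z ∈ P ×ˢ S := fun z => hPS.mem_toFinset
    have h5 : T.card ≤ (g + 1) * (T.image Φ).card := by
      refine Finset.card_le_mul_card_image T (g + 1) ?_
      intro a _
      have h6 : (T.filter fun z => Φ z = a).card ≤ (pol g a).roots.toFinset.card := by
        refine Finset.card_le_card_of_injOn (fun z => z.1.1) ?_ ?_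
        · intro z hz
          obtain ⟨hz1, hz2⟩ := Finset.mem_filter.mp hz
          have e1 := hΦ z ((hTm z).mp hz1)
          rw [hz2] at e1
          simp only [Finset.mem_coe, Multiset.mem_toFinset]
          rw [mem_roots (pol_monic g a).ne_zero, e1, IsRoot.def]
          simp
        · intro z hz z' hz' heq
          obtain ⟨hz1, hz2⟩ := Finset.mem_filter.mp (Finset.mem_coe.mp hz)
          obtain ⟨hz1', hz2'⟩ := Finset.mem_filter.mp (Finset.mem_coe.mp hz')
          have e1 := hΦ z ((hTm z).mp hz1)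
          have e2 := hΦ z' ((hTm z').mp hz1')
          rw [hz2] at e1
          rw [hz2', e1] at e2
          obtain ⟨⟨⟨hh, hi, hd⟩, hr⟩, hs⟩ := (hTm z).mp hz1
          obtain ⟨⟨⟨hh', hi', hd'⟩, hr'⟩, hs'⟩ := (hTm z').mp hz1'
          obtain ⟨⟨s, h⟩, σ⟩ := z
          obtain ⟨⟨s', h'⟩, σ'⟩ := z'
          simp only at hh hi hd hr hs hh' hi' hd' hr' hs' heq e2
          subst heq
          have e3 : dcQ (s - h'.nextCoeff) σ' * h' = dcQ (s - h.nextCoeff) σ * h := by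
            refine mul_left_cancel₀ (monic_X_sub_C s).ne_zero ?_
            simp only [Q] at e2
            linear_combination -e2
          obtain ⟨e4, e7⟩ := dc_inj h4 hh hi (by rw [hd]; exact hodd) hh' hi' hs'
            (fun h => by rw [h]) e3
          rw [e4, e7]
      calc (T.filter fun z => Φ z = a).card ≤ (pol g a).roots.toFinset.card := h6
        _ ≤ Multiset.card (pol g a).roots := Multiset.toFinset_card_le _
        _ ≤ (pol g a).natDegree := card_roots' _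
        _ = g + 1 := natDegree_pol g a
    have h7 : (T.image Φ).card ≤ {a : Fin g → F | TypC (pol g a)}.ncard := by
      rw [← Set.ncard_coe_finset]
      refine Set.ncard_le_ncard ?_ (Set.toFinite _)
      intro a ha
      obtain ⟨z, hz, rfl⟩ := Finset.mem_image.mp (Finset.mem_coe.mp ha)
      have hz1 := (hTm z).mp hz
      have e1 := hΦ z hz1
      obtain ⟨⟨⟨hh, hi, hd⟩, hr⟩, hs⟩ := hz1
      refine ⟨Q z, z.1.2, dcQ_monic _ _, dcQ_irr h4 _ _ hs, dcQ_natDegree _ _, hh, hi, ?_,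
        Or.inr ⟨z.1.1, hr, ?_⟩⟩
      · rw [hd]
        exact hodd
      · rw [e1, mul_assoc]
    calc (P ×ˢ S).ncard = T.card := by rw [Set.ncard_eq_toFinset_card _ hPS]
      _ ≤ (g + 1) * (T.image Φ).card := h5
      _ ≤ (g + 1) * {a : Fin g → F | TypC (pol g a)}.ncard := Nat.mul_le_mul_left _ h7
  rw [Set.ncard_prod] at hcard
  have hI1 := hQ₁ F hF1
  have hS1 : Nat.card F ≤ 2 * S.ncard + 1 := dc_nonsq F h2
  have hS2 : Nat.card F ≤ 3 * S.ncard := by
    have : 1 ≤ S.ncard := by omega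
    omega
  have hS3 : (Nat.card F : ℝ) ≤ 3 * (S.ncard : ℝ) := by exact_mod_cast hS2
  have hcard' : (P.ncard : ℝ) * (S.ncard : ℝ) ≤
      ((g : ℝ) + 1) * ({a : Fin g → F | TypC (pol g a)}.ncard : ℝ) := by exact_mod_cast hcard
  have hPc : (Nat.card F : ℝ) * (I.ncard : ℝ) ≤ (P.ncard : ℝ) + (Nat.card F : ℝ) := by
    exact_mod_cast hPcard
  have h7 : (1 : ℝ) ≤ (Nat.card F : ℝ) := by
    have : 1 ≤ Nat.card F := by omega
    exact_mod_cast this
  have hI2 : (2 : ℝ) ≤ (I.ncard : ℝ) := by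
    have h8 : 4 * ((g - 2 : ℕ) : ℝ) ≤ (Nat.card F : ℝ) ^ (g - 2) := by
      calc 4 * ((g - 2 : ℕ) : ℝ) ≤ (Nat.card F : ℝ) := by exact_mod_cast hF4
        _ = (Nat.card F : ℝ) ^ 1 := (pow_one _).symm
        _ ≤ (Nat.card F : ℝ) ^ (g - 2) := pow_le_pow_right₀ h7 (by omega)
    have h9 : 2 * ((g - 2 : ℕ) : ℝ) * 2 ≤ 2 * ((g - 2 : ℕ) : ℝ) * (I.ncard : ℝ) := by linarith
    exact le_of_mul_le_mul_left h9 (by positivity)
  have hP2 : (Nat.card F : ℝ) * (I.ncard : ℝ) ≤ 2 * (P.ncard : ℝ) := by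
    nlinarith [mul_le_mul_of_nonneg_left hI2 (le_trans zero_le_one h7)]
  have hP3 : (Nat.card F : ℝ) ^ (g - 1) ≤ 4 * ((g - 2 : ℕ) : ℝ) * (P.ncard : ℝ) := by
    have h6 : (Nat.card F : ℝ) ^ (g - 1) = (Nat.card F : ℝ) * (Nat.card F : ℝ) ^ (g - 2) := by
      rw [← pow_succ']
      congr 1
      omega
    rw [h6]
    calc (Nat.card F : ℝ) * (Nat.card F : ℝ) ^ (g - 2)
        ≤ (Nat.card F : ℝ) * (2 * ((g - 2 : ℕ) : ℝ) * (I.ncard : ℝ)) :=
          mul_le_mul_of_nonneg_left hI1 (le_trans zero_le_one h7)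
      _ = 2 * ((g - 2 : ℕ) : ℝ) * ((Nat.card F : ℝ) * (I.ncard : ℝ)) := by ring
      _ ≤ 2 * ((g - 2 : ℕ) : ℝ) * (2 * (P.ncard : ℝ)) :=
          mul_le_mul_of_nonneg_left hP2 (by positivity)
      _ = 4 * ((g - 2 : ℕ) : ℝ) * (P.ncard : ℝ) := by ring
  have h6 : (Nat.card F : ℝ) ^ g = (Nat.card F : ℝ) ^ (g - 1) * Nat.card F := by
    rw [← pow_succ]
    congr 1
    omega
  rw [div_mul_eq_mul_div, one_mul, div_le_iff₀ (by positivity), h6]
  have h8 : (0 : ℝ) ≤ (Nat.card F : ℝ) := Nat.cast_nonneg _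
  calc (Nat.card F : ℝ) ^ (g - 1) * Nat.card F
      ≤ (4 * ((g - 2 : ℕ) : ℝ) * (P.ncard : ℝ)) * (3 * (S.ncard : ℝ)) :=
        mul_le_mul hP3 hS3 h8 (by positivity)
    _ = 12 * ((g - 2 : ℕ) : ℝ) * ((P.ncard : ℝ) * (S.ncard : ℝ)) := by ring
    _ ≤ 12 * ((g - 2 : ℕ) : ℝ) * (((g : ℝ) + 1) *
          ({a : Fin g → F | TypC (pol g a)}.ncard : ℝ)) :=
        mul_le_mul_of_nonneg_left hcard' (by positivity)
    _ = ({a : Fin g → F | TypC (pol g a)}.ncard : ℝ) *
          (12 * ((g - 2 : ℕ) : ℝ) * ((g : ℝ) + 1)) := by ring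

theorem dens_C {g : ℕ} (hg : 2 ≤ g) : ∃ c : ℝ, 0 < c ∧ ∃ Q₀ : ℕ, ∀ (F : Type) [Field F]
    [Finite F], Q₀ ≤ Nat.card F → (2 : F) ≠ 0 →
      c * (Nat.card F : ℝ) ^ g ≤ {a : Fin g → F | TypC (pol g a)}.ncard := by
  rcases Nat.even_or_odd g with he | he
  · exact dens_C_even hg he
  · refine dens_C_odd ?_ he
    obtain ⟨m, hm⟩ := he
    omega

end Pool.Agent.HS
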