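import Pool.Agent.Lib.HS.Md
import Pool.Agent.Lib.HS.Pol

/-!
HS (all superelliptic curves over a global function field, MP_950c68_ag), module MdX.
Complements to `Md`: `box_sc`, `ne_zero_of_sep`, `sep_sc`.
-/

set_option autoImplicit false

open Polynomial

namespace Pool.Agent.HS

open Pool.Agent.BSDFF Pool.Agent.GBC Pool.Agent.GBU

variable {k K : Type} [Field k] [Field K] [Algebra k K] {g : ℕ}

theorem ne_zero_of_sep (hg : 1 ≤ g) {a : Fin g → K} (h : (pol g a).Separable) :
    a ≠ 0 := by
  rintro rfl
  rw [pol_zero] at h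
  refine not_isUnit_X (h.squarefree X ?_)
  rw [← sq]
  exact pow_dvd_pow _ (by omega)

private theorem deriv_scaleRoots {p : K[X]} {u : K} (hn : p.natDegree ≠ 0) :
    derivative (p.scaleRoots u) =
      C (u ^ (p.natDegree - 1 - (derivative p).natDegree)) * (derivative p).scaleRoots u := by
  ext i
  rw [coeff_derivative, coeff_C_mul, coeff_scaleRoots, coeff_scaleRoots, coeff_derivative]
  by_cases h0 : p.coeff (i + 1) * ((i : K) + 1) = 0
  · have h1 : p.coeff (i + 1) * u ^ (p.natDegree - (i + 1)) * ((i : K) + 1) =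
      p.coeff (i + 1) * ((i : K) + 1) * u ^ (p.natDegree - (i + 1)) := by ring
    rw [h1, h0, zero_mul, zero_mul, mul_zero]
  · have h1 : i ≤ (derivative p).natDegree := le_natDegree_of_ne_zero (by
      rw [coeff_derivative]
      exact h0)
    have h2 := natDegree_derivative_lt hn
    have h3 : p.natDegree - (i + 1) =
      (p.natDegree - 1 - (derivative p).natDegree) + ((derivative p).natDegree - i) := by omega
    rw [h3, pow_add]
    ring

theorem sep_sc {a : Fin g → K} (h : (pol g a).Separable) {u : K} (hu : u ≠ 0) :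
    (pol g (sc u a)).Separable := by
  rw [← scaleRoots_pol]
  have hn : (pol g a).natDegree ≠ 0 := by
    rw [natDegree_pol]
    omega
  change IsCoprime _ _
  rw [deriv_scaleRoots hn]
  exact (isCoprime_mul_unit_left_right ((isUnit_C).2 (pow_ne_zero _ hu).isUnit) _ _).2
    (isCoprime_scaleRoots _ _ u hu.isUnit h)

theorem box_sc {a : Fin g → K} {D D' : Place k K →₀ ℤ} (h : a ∈ Box g D) {u : K}
    (hu : u ≠ 0) (h' : ∀ v, D v - ord v u ≤ D' v) : sc u a ∈ Box g D' := by
  by_cases ha : a = 0
  · subst ha
    have : sc u (0 : Fin g → K) = 0 := by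
      funext j
      simp [sc]
    rw [this]
    exact Submodule.zero_mem _
  · rw [mem_Box_iff (sc_ne_zero hu ha)]
    intro v
    rw [md_sc v ha hu]
    have := (mem_Box_iff ha).1 h v
    linarith [h' v]

end Pool.Agent.HS
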