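import Pool.Agent.Lib.HS.Defs

/-!
HS (all superelliptic curves over a global function field, MP_950c68_ag), module PermT.
`H` is transitive (A), the stabilizer of `i₀` is transitive on the rest (B), so `H` is 2-transitive, hence primitive; `σ ^ s` of (C) is the
swap of `i` and `j`. Jordan: `Equiv.Perm.eq_top_of_isPreprimitive_of_isSwap_mem` (Mathlib).
-/

set_option autoImplicit false

open Polynomial

namespace Pool.Agent.HS

open Pool.Agent.BSDFF Pool.Agent.GBC Pool.Agent.GBU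
open Pool.Agent.SmS.Fn (Tws)
open IsLocalRing (ResidueField residue)

theorem perm_top {g : ℕ} (hg : 1 ≤ g) (H : Subgroup (Equiv.Perm (Fin (g + 1))))
    (hA : ∃ σ ∈ H, ∀ i j, ∃ s : ℕ, (σ ^ s) i = j)
    (hB : ∃ σ ∈ H, ∃ i₀, σ i₀ = i₀ ∧ ∀ i ≠ i₀, ∀ j ≠ i₀, ∃ s : ℕ, (σ ^ s) i = j)
    (hC : ∃ σ ∈ H, ∃ i j : Fin (g + 1), i ≠ j ∧ σ i = j ∧ σ j = i ∧
      ∃ s : ℕ, Odd s ∧ ∀ l, l ≠ i → l ≠ j → (σ ^ s) l = l) : H = ⊤ := by
  obtain ⟨σ, hσ, hσt⟩ := hA
  obtain ⟨ρ, hρ, i₀, hρ0, hρt⟩ := hB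
  obtain ⟨τ, hτ, i, j, hij, hi, hj, s, hs, hl⟩ := hC
  have hfix : ∀ m : ℕ, (ρ ^ m) i₀ = i₀ := by
    intro m
    induction m with
    | zero => rfl
    | succ m ih => rw [pow_succ, Equiv.Perm.mul_apply, hρ0, ih]
  have h2 : MulAction.IsMultiplyPretransitive H (Fin (g + 1)) 2 := by
    rw [MulAction.is_two_pretransitive_iff]
    -- move `a` to `i₀`
    have key : ∀ a b c d : Fin (g + 1), a ≠ b → c ≠ d →
        ∃ h ∈ H, h a = c ∧ h b = d := by
      intro a b c d hab hcd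
      obtain ⟨m, hm⟩ := hσt a i₀
      obtain ⟨m', hm'⟩ := hσt c i₀
      have h1 : (σ ^ m) b ≠ i₀ := by
        rw [← hm]
        exact fun h => hab ((σ ^ m).injective h).symm
      have h2 : (σ ^ m') d ≠ i₀ := by
        rw [← hm']
        exact fun h => hcd ((σ ^ m').injective h).symm
      obtain ⟨q, hq⟩ := hρt _ h1 _ h2
      refine ⟨(σ ^ m')⁻¹ * ρ ^ q * σ ^ m, ?_, ?_, ?_⟩
      · exact H.mul_mem (H.mul_mem (H.inv_mem (H.pow_mem hσ m')) (H.pow_mem hρ q))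
          (H.pow_mem hσ m)
      · rw [Equiv.Perm.mul_apply, Equiv.Perm.mul_apply, hm, hfix, Equiv.Perm.inv_eq_iff_eq]
        exact hm'.symm
      · rw [Equiv.Perm.mul_apply, Equiv.Perm.mul_apply, hq, Equiv.Perm.inv_eq_iff_eq]
    intro a b c d hab hcd
    obtain ⟨h, hh, h1, h2⟩ := key a b c d hab hcd
    exact ⟨⟨h, hh⟩, h1, h2⟩
  have hprim : MulAction.IsPreprimitive H (Fin (g + 1)) :=
    MulAction.isPreprimitive_of_is_two_pretransitive h2
  refine Equiv.Perm.subgroup_eq_top_of_isPreprimitive_of_isSwap_mem hprim (τ ^ s) ?_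
    (H.pow_mem hτ s)
  refine ⟨i, j, hij, ?_⟩
  obtain ⟨q, hq⟩ := hs
  have h2i : (τ ^ 2) i = i := by rw [pow_two, Equiv.Perm.mul_apply, hi, hj]
  have h2j : (τ ^ 2) j = j := by rw [pow_two, Equiv.Perm.mul_apply, hj, hi]
  have hpi : ∀ m : ℕ, ((τ ^ 2) ^ m) i = i := by
    intro m
    induction m with
    | zero => rfl
    | succ m ih => rw [pow_succ, Equiv.Perm.mul_apply, h2i, ih]
  have hpj : ∀ m : ℕ, ((τ ^ 2) ^ m) j = j := by
    intro m
    induction m with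
    | zero => rfl
    | succ m ih => rw [pow_succ, Equiv.Perm.mul_apply, h2j, ih]
  have hsi : (τ ^ s) i = j := by
    rw [hq, pow_succ, pow_mul, Equiv.Perm.mul_apply, hi, hpj]
  have hsj : (τ ^ s) j = i := by
    rw [hq, pow_succ, pow_mul, Equiv.Perm.mul_apply, hj, hpi]
  ext l
  by_cases h1 : l = i
  · subst h1; rw [hsi, Equiv.swap_apply_left]
  · by_cases h2 : l = j
    · subst h2; rw [hsj, Equiv.swap_apply_right]
    · rw [hl l h1 h2, Equiv.swap_apply_of_ne_of_ne h1 h2]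

end Pool.Agent.HS
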