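import Pool.Agent.Lib.HS.Defs
import Pool.Agent.Lib.HS.PermT
import Pool.Agent.Lib.HS.Pol
import Pool.Agent.Lib.HS.MdX
import Pool.Agent.Lib.SmNJ.GoodN

/-!
HS (all superelliptic curves over a global function field, MP_950c68_ag), module GalN.
The Galois group of a polynomial with the types `A`, `B`, `C` at three places is the symmetric group.

PORT of `HA/FrobR.lean` (`surj_pm`) to any degree `g + 1`, without the classes `RtG`: let `a : Fin (g + 1) → Ω` be the
roots (`IsSepClosure`: `pol g b` separable splits), the hom `Gal(Ω/K) → Perm (Fin (g + 1))`, `s (a i) = a (σ i)`. Its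
range is everything by `perm_top` (`HS/PermT`, any degree): the private lemmas `FrobR_*` are general
(`I` any Fintype), only `FrobR_core` has to be restated with `σ` and `a (σ i) = φ (a i)` instead of `pm`. In `TypC` there
is the second case `f = p (X - C s) h`: the roots of `p` are swapped, the root `s` is fixed, and the others
are fixed by the power `natDegree h`; so the same `s := h.natDegree` works. `g ≥ 2` and `(2 : k) ≠ 0` as needed.
Then `f.Gal → Perm (f.rootSet Ω)` is injective and surjective, so `Nat.card f.Gal = (g + 1)!`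
(`Polynomial.Gal.galActionHom_injective`, `Gal(Ω/K) → f.Gal` = `Polynomial.Gal.restrict`; the splitting field suffices).
-/

set_option autoImplicit false

open Polynomial

namespace Pool.Agent.HS

open Pool.Agent.BSDFF Pool.Agent.GBC Pool.Agent.GBU
open IsLocalRing (ResidueField residue)

section finite

variable {F L : Type*} [Field F] [Finite F] [Field L]

private theorem GalN_conj (ι : F →+* L) {h : F[X]} (hi : Irreducible h) {x y : L}
    (hx : h.eval₂ ι x = 0) (hy : h.eval₂ ι y = 0) : ∃ s : ℕ, y = x ^ (Nat.card F ^ s) := by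
  classical
  have := Fintype.ofFinite F
  algebraize [ι]
  have hx' : aeval x h = 0 := hx
  have hy' : aeval y h = 0 := hy
  have hix : IsIntegral F x := (isAlgebraic_iff_isIntegral).1 ⟨h, hi.ne_zero, hx'⟩
  have hiy : IsIntegral F y := (isAlgebraic_iff_isIntegral).1 ⟨h, hi.ne_zero, hy'⟩
  let E := IntermediateField.adjoin F ({x, y} : Set L)
  have hfd : FiniteDimensional F E := IntermediateField.finiteDimensional_adjoin (by
    rintro z (rfl | hz)
    · exact hix
    · rw [Set.mem_singleton_iff] at hz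
      subst hz
      exact hiy)
  have hfin : Finite E := Module.finite_of_finite F
  have hxE : x ∈ E := IntermediateField.subset_adjoin F _ (by simp)
  have hyE : y ∈ E := IntermediateField.subset_adjoin F _ (by simp)
  have hmx : minpoly F x = minpoly F y := by
    rw [← minpoly.eq_of_irreducible hi hx', ← minpoly.eq_of_irreducible hi hy']
  have hmE : minpoly F (⟨x, hxE⟩ : E) = minpoly F (⟨y, hyE⟩ : E) := by
    have e1 : minpoly F (algebraMap E L ⟨x, hxE⟩) = minpoly F (⟨x, hxE⟩ : E) :=
      minpoly.algebraMap_eq (algebraMap E L).injective _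
    have e2 : minpoly F (algebraMap E L ⟨y, hyE⟩) = minpoly F (⟨y, hyE⟩ : E) :=
      minpoly.algebraMap_eq (algebraMap E L).injective _
    rw [← e1, ← e2]
    exact hmx
  have hconj : IsConjRoot F (⟨y, hyE⟩ : E) (⟨x, hxE⟩ : E) := hmE.symm
  obtain ⟨r, hr⟩ := hconj.exists_algEquiv
  obtain ⟨n, hn⟩ := (FiniteField.bijective_frobeniusAlgEquivOfAlgebraic_pow F E).2 r
  refine ⟨n.1, ?_⟩
  have h2 : (FiniteField.frobeniusAlgEquivOfAlgebraic F E ^ n.1) (⟨x, hxE⟩ : E) =
      (⟨x, hxE⟩ : E) ^ (Fintype.card F ^ n.1) := by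
    rw [AlgEquiv.coe_pow, FiniteField.coe_frobeniusAlgEquivOfAlgebraic_iterate]
  have h3 : (⟨y, hyE⟩ : E) = r ⟨x, hxE⟩ := hr.symm
  rw [← hn] at h3
  simp only at h3
  rw [h2] at h3
  rw [Nat.card_eq_fintype_card]
  exact congrArg (fun z : E => (z : L)) h3

/-- A root of an irreducible polynomial of degree `m` is fixed by the `m`-th power of Frobenius. -/
private theorem GalN_pow (ι : F →+* L) {h : F[X]} (hi : Irreducible h) {x : L}
    (hx : h.eval₂ ι x = 0) : x ^ (Nat.card F ^ h.natDegree) = x := by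
  classical
  have := Fintype.ofFinite F
  algebraize [ι]
  have hx' : aeval x h = 0 := hx
  have hix : IsIntegral F x := (isAlgebraic_iff_isIntegral).1 ⟨h, hi.ne_zero, hx'⟩
  let E := IntermediateField.adjoin F ({x} : Set L)
  have hfd : FiniteDimensional F E := IntermediateField.adjoin.finiteDimensional hix
  have hfin : Finite E := Module.finite_of_finite F
  have := Fintype.ofFinite E
  have hxE : x ∈ E := IntermediateField.subset_adjoin F _ (by simp)
  have hdeg : Module.finrank F E = h.natDegree := by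
    rw [IntermediateField.adjoin.finrank hix]
    have h1 := minpoly.eq_of_irreducible hi hx'
    rw [← h1, natDegree_mul_C (inv_ne_zero (leadingCoeff_ne_zero.2 hi.ne_zero))]
  have hcard : Fintype.card E = Nat.card F ^ h.natDegree := by
    rw [← hdeg, Nat.card_eq_fintype_card]
    exact Module.card_eq_pow_finrank
  have h2 := FiniteField.pow_card (⟨x, hxE⟩ : E)
  rw [hcard] at h2
  exact congrArg (fun z : E => (z : L)) h2

variable {I : Type*} [Fintype I] (ι : F →+* L) {f : F[X]} {c : I → L} {σ : Equiv.Perm I}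

omit [Field F] [Finite F] [Fintype I] in
private theorem GalN_iter (hσ : ∀ i, c (σ i) = c i ^ Nat.card F) (s : ℕ) (i : I) :
    c ((σ ^ s) i) = c i ^ (Nat.card F ^ s) := by
  induction s with
  | zero => simp
  | succ s ih =>
    rw [pow_succ', Equiv.Perm.mul_apply, hσ, ih, ← pow_mul, ← pow_succ]

omit [Fintype I] in
private theorem GalN_orb (hinj : Function.Injective c) (hσ : ∀ i, c (σ i) = c i ^ Nat.card F)
    {h : F[X]} (hi : Irreducible h) {i j : I} (h1 : h.eval₂ ι (c i) = 0)
    (h2 : h.eval₂ ι (c j) = 0) : ∃ s : ℕ, (σ ^ s) i = j := by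
  obtain ⟨s, hs⟩ := GalN_conj ι hi h1 h2
  exact ⟨s, hinj (by rw [GalN_iter hσ, hs])⟩

omit [Finite F] in
private theorem GalN_inj (hf : f.Separable) (hc : f.map ι = ∏ i, (X - C (c i))) :
    Function.Injective c := by
  have h1 := hf.map (f := ι)
  rw [hc] at h1
  exact separable_prod_X_sub_C_iff.1 h1

omit [Finite F] in
private theorem GalN_root (hc : f.map ι = ∏ i, (X - C (c i))) (i : I) : f.eval₂ ι (c i) = 0 := by
  classical
  rw [← eval_map, hc, eval_prod]
  exact Finset.prod_eq_zero (Finset.mem_univ i) (by simp)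

omit [Finite F] in
private theorem GalN_exists (hc : f.map ι = ∏ i, (X - C (c i))) {y : L}
    (hy : f.eval₂ ι y = 0) : ∃ i, c i = y := by
  rw [← eval_map, hc, eval_prod, Finset.prod_eq_zero_iff] at hy
  obtain ⟨i, -, hi⟩ := hy
  rw [eval_sub, eval_X, eval_C, sub_eq_zero] at hi
  exact ⟨i, hi.symm⟩

private theorem GalN_frob (h : F[X]) (x : L) (hx : h.eval₂ ι x = 0) :
    h.eval₂ ι (x ^ Nat.card F) = 0 := by
  have := Fintype.ofFinite F
  algebraize [ι]
  have hx' : aeval x h = 0 := hx
  have h1 : aeval (x ^ Fintype.card F) h = 0 := by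
    rw [← expand_aeval, FiniteField.expand_card, map_pow, hx', zero_pow Fintype.card_ne_zero]
  rw [Nat.card_eq_fintype_card]
  exact h1

private theorem GalN_A (hf : Irreducible f) (hc : f.map ι = ∏ i, (X - C (c i)))
    (hσ : ∀ i, c (σ i) = c i ^ Nat.card F) : ∀ i j, ∃ s : ℕ, (σ ^ s) i = j := by
  have hinj := GalN_inj ι (PerfectField.separable_of_irreducible hf) hc
  exact fun i j => GalN_orb ι hinj hσ hf (GalN_root ι hc i) (GalN_root ι hc j)

private theorem GalN_B {r : F} {h : F[X]} (hh : Irreducible h) (hf : f = (X - C r) * h)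
    (hr : h.eval r ≠ 0) (hc : f.map ι = ∏ i, (X - C (c i)))
    (hσ : ∀ i, c (σ i) = c i ^ Nat.card F) :
    ∃ i₀, σ i₀ = i₀ ∧ ∀ i ≠ i₀, ∀ j ≠ i₀, ∃ s : ℕ, (σ ^ s) i = j := by
  have := Fintype.ofFinite F
  have hsep : f.Separable := by
    rw [hf]
    refine Separable.mul (separable_X_sub_C) (PerfectField.separable_of_irreducible hh) ?_
    rw [(irreducible_X_sub_C r).coprime_iff_not_dvd, dvd_iff_isRoot]
    exact hr
  have hinj := GalN_inj ι hsep hc
  obtain ⟨i₀, hi₀⟩ := GalN_exists ι hc (y := ι r) (by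
    rw [hf, eval₂_mul, eval₂_sub, eval₂_X, eval₂_C, sub_self, zero_mul])
  have hroot : ∀ i ≠ i₀, h.eval₂ ι (c i) = 0 := by
    intro i hi
    have h1 := GalN_root ι hc i
    rw [hf, eval₂_mul, eval₂_sub, eval₂_X, eval₂_C, mul_eq_zero, sub_eq_zero] at h1
    rcases h1 with h1 | h1
    · exact absurd (hinj (h1.trans hi₀.symm)) hi
    · exact h1
  refine ⟨i₀, hinj ?_, fun i hi j hj => GalN_orb ι hinj hσ hh (hroot i hi) (hroot j hj)⟩
  rw [hσ, hi₀, ← map_pow, Nat.card_eq_fintype_card, FiniteField.pow_card]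

omit [Finite F] [Fintype I] in
private theorem GalN_card {h : F[X]} (hh : h ≠ 0) (hinj : Function.Injective c) (s : Finset I)
    (hs : ∀ i ∈ s, h.eval₂ ι (c i) = 0) : s.card ≤ h.natDegree := by
  classical
  have h1 : (s.image c).card = s.card := Finset.card_image_of_injective s hinj
  rw [← h1, ← natDegree_map ι]
  refine card_le_degree_of_subset_roots (p := h.map ι) fun y hy => ?_
  obtain ⟨i, hi, rfl⟩ := Finset.mem_image.1 hy
  rw [mem_roots (map_ne_zero hh), IsRoot.def, eval_map]
  exact hs i hi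

private theorem GalN_C {p h : F[X]} (hp : Irreducible p) (hpd : p.natDegree = 2)
    (hh : h ≠ 0) {m : ℕ} (hodd : Odd m) (hf : f = p * h) (hsep : f.Separable)
    (hfix : ∀ x, h.eval₂ ι x = 0 → x ^ (Nat.card F ^ m) = x)
    (hc : f.map ι = ∏ i, (X - C (c i))) (hσ : ∀ i, c (σ i) = c i ^ Nat.card F) :
    ∃ i j : I, i ≠ j ∧ σ i = j ∧ σ j = i ∧
      ∃ s : ℕ, Odd s ∧ ∀ l, l ≠ i → l ≠ j → (σ ^ s) l = l := by
  classical
  have hinj := GalN_inj ι hsep hc
  set Ip : Finset I := Finset.univ.filter fun i => p.eval₂ ι (c i) = 0 with hIp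
  set Ih : Finset I := Finset.univ.filter fun i => h.eval₂ ι (c i) = 0 with hIh
  have hun : Ip ∪ Ih = Finset.univ := by
    ext i
    have h1 := GalN_root ι hc i
    rw [hf, eval₂_mul, mul_eq_zero] at h1
    simp only [hIp, hIh, Finset.mem_union, Finset.mem_filter, Finset.mem_univ, true_and, iff_true]
    exact h1
  have hcard : Fintype.card I = 2 + h.natDegree := by
    have h1 : (f.map ι).natDegree = Fintype.card I := by
      rw [hc, natDegree_prod_of_monic _ _ fun i _ => monic_X_sub_C _]
      simp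
    rw [natDegree_map, hf, natDegree_mul hp.ne_zero hh, hpd] at h1
    exact h1.symm
  have hcp : Ip.card ≤ 2 := by
    rw [← hpd]
    exact GalN_card ι hp.ne_zero hinj Ip fun i hi => (Finset.mem_filter.1 hi).2
  have hch : Ih.card ≤ h.natDegree :=
    GalN_card ι hh hinj Ih fun i hi => (Finset.mem_filter.1 hi).2
  have hsum : Fintype.card I ≤ Ip.card + Ih.card := by
    rw [← Finset.card_univ, ← hun]
    exact Finset.card_union_le _ _
  have hcp2 : Ip.card = 2 := by omega
  obtain ⟨i, j, hij, hIpe⟩ := Finset.card_eq_two.1 hcp2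
  have hmem : ∀ l, p.eval₂ ι (c l) = 0 ↔ l = i ∨ l = j := by
    intro l
    have h1 : l ∈ Ip ↔ l ∈ ({i, j} : Finset I) := by rw [hIpe]
    rw [hIp, Finset.mem_filter, Finset.mem_insert, Finset.mem_singleton] at h1
    simpa using h1
  have hpi : p.eval₂ ι (c i) = 0 := (hmem i).2 (Or.inl rfl)
  have hpj : p.eval₂ ι (c j) = 0 := (hmem j).2 (Or.inr rfl)
  have hsi : σ i = j := by
    have h1 : p.eval₂ ι (c (σ i)) = 0 := by
      rw [hσ]
      exact GalN_frob ι p _ hpi
    rcases (hmem _).1 h1 with h2 | h2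
    · exfalso
      obtain ⟨s, hs⟩ := GalN_orb ι hinj hσ hp hpi hpj
      apply hij
      rw [← hs]
      clear hs
      induction s with
      | zero => rfl
      | succ s ih => rw [pow_succ, Equiv.Perm.mul_apply, h2]; exact ih
    · exact h2
  have hsj : σ j = i := by
    have h1 : p.eval₂ ι (c (σ j)) = 0 := by
      rw [hσ]
      exact GalN_frob ι p _ hpj
    rcases (hmem _).1 h1 with h2 | h2
    · exact h2
    · exact absurd (σ.injective (hsi.trans h2.symm)) hij
  refine ⟨i, j, hij, hsi, hsj, m, hodd, fun l hli hlj => hinj ?_⟩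
  have h1 := GalN_root ι hc l
  rw [hf, eval₂_mul, mul_eq_zero] at h1
  rcases h1 with h1 | h1
  · rcases (hmem l).1 h1 with h2 | h2
    · exact absurd h2 hli
    · exact absurd h2 hlj
  · rw [GalN_iter hσ]
    exact hfix _ h1

private theorem GalN_not_dvd {p h : F[X]} (hp : Irreducible p) (hpd : p.natDegree = 2)
    (hh : Irreducible h) (hodd : Odd h.natDegree) : ¬ p ∣ h := by
  intro hd
  have h1 := natDegree_eq_of_degree_eq (degree_eq_degree_of_associated
    (hp.associated_of_dvd hh hd))
  rw [hpd] at h1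
  rw [← h1] at hodd
  exact absurd hodd (by decide)

private theorem GalN_TypC {p h : F[X]} (hp : Irreducible p) (hpd : p.natDegree = 2)
    (hh : Irreducible h) (hodd : Odd h.natDegree)
    (hf : f = p * h ∨ ∃ s : F, h.eval s ≠ 0 ∧ f = p * (X - C s) * h)
    (hc : f.map ι = ∏ i, (X - C (c i))) (hσ : ∀ i, c (σ i) = c i ^ Nat.card F) :
    ∃ i j : I, i ≠ j ∧ σ i = j ∧ σ j = i ∧
      ∃ s : ℕ, Odd s ∧ ∀ l, l ≠ i → l ≠ j → (σ ^ s) l = l := by
  have := Fintype.ofFinite F
  have hs0 : (p * h).Separable := by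
    refine Separable.mul (PerfectField.separable_of_irreducible hp)
      (PerfectField.separable_of_irreducible hh) ?_
    rw [hp.coprime_iff_not_dvd]
    exact GalN_not_dvd hp hpd hh hodd
  rcases hf with hf | ⟨s, hs, hf⟩
  · exact GalN_C ι hp hpd hh.ne_zero hodd hf (by rw [hf]; exact hs0)
      (fun x hx => GalN_pow ι hh hx) hc hσ
  · refine GalN_C ι (h := (X - C s) * h) hp hpd (mul_ne_zero (X_sub_C_ne_zero s) hh.ne_zero) hodd
      (by rw [hf, mul_assoc]) ?_ ?_ hc hσ
    · have e : f = (X - C s) * (p * h) := by rw [hf]; ring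
      rw [e]
      refine Separable.mul separable_X_sub_C hs0 ?_
      rw [(irreducible_X_sub_C s).coprime_iff_not_dvd, dvd_iff_isRoot, IsRoot.def, eval_mul,
        mul_eq_zero, not_or]
      refine ⟨?_, hs⟩
      intro h0
      have h1 : (X - C s) ∣ p := dvd_iff_isRoot.2 h0
      have h2 := natDegree_eq_of_degree_eq (degree_eq_degree_of_associated
        ((irreducible_X_sub_C s).associated_of_dvd hp h1))
      rw [hpd, natDegree_X_sub_C] at h2
      exact absurd h2 (by decide)
    · intro x hx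
      rw [eval₂_mul, mul_eq_zero, eval₂_sub, eval₂_X, eval₂_C, sub_eq_zero] at hx
      rcases hx with hx | hx
      · rw [hx, ← map_pow, Nat.card_eq_fintype_card, FiniteField.pow_card_pow]
      · exact GalN_pow ι hh hx

end finite

section core

open Pool.Agent.Lib.SmD Pool.Agent.SmNJ Pool.Agent.SmJ

variable {K Ω : Type} [Field K] [Field Ω] [Algebra K Ω] {g : ℕ}

/-- The reductions of the roots, with the action of Frobenius. -/
private theorem GalN_core {w : ValuationSubring Ω} {φ : Ω ≃ₐ[K] Ω} (hφ : IsFrob K w φ)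
    {b : Fin g → K} {a : Fin (g + 1) → Ω} {σ : Equiv.Perm (Fin (g + 1))}
    (hσ : ∀ i, φ (a i) = a (σ i))
    (h : (pol g b).map (algebraMap K Ω) = ∏ i, (X - C (a i))) (hb : ∀ j, b j ∈ below K w) :
    ∃ c : Fin (g + 1) → ResidueField w,
      (pol g fun j => residue (below K w) ⟨b j, hb j⟩).map (resMap K w) = ∏ i, (X - C (c i)) ∧
      ∀ i, c (σ i) = c i ^ Nat.card (ResidueField (below K w)) := by
  have h1 : (pol g fun j => inclBelow K w ⟨b j, hb j⟩).map (algebraMap w Ω) =
      ∏ i, (X - C (a i)) := by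
    rw [← h, map_pol, map_pol]
    rfl
  have hroot : ∀ i, (∏ i, (X - C (a i))).eval (a i) = 0 := by
    intro i
    rw [eval_prod]
    exact Finset.prod_eq_zero (Finset.mem_univ i) (by simp)
  have hint : ∀ i, ∃ y : w, algebraMap w Ω y = a i := by
    intro i
    refine IsIntegrallyClosed.isIntegral_iff.1
      ⟨pol g fun j => inclBelow K w ⟨b j, hb j⟩, pol_monic g _, ?_⟩
    rw [← eval_map, h1]
    exact hroot i
  choose c' hc' using hint
  have h2 : (pol g fun j => inclBelow K w ⟨b j, hb j⟩) = ∏ i, (X - C (c' i)) := by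
    apply Polynomial.map_injective (algebraMap w Ω) (IsFractionRing.injective w Ω)
    rw [h1, Polynomial.map_prod]
    refine Finset.prod_congr rfl fun i _ => ?_
    rw [Polynomial.map_sub, map_X, map_C, hc']
  refine ⟨fun i => residue w (c' i), ?_, fun i => ?_⟩
  · have h3 := congrArg (Polynomial.map (residue w)) h2
    rw [map_pol, Polynomial.map_prod] at h3
    rw [map_pol]
    have h4 : (fun j => resMap K w (residue (below K w) ⟨b j, hb j⟩)) =
        fun j => residue w (inclBelow K w ⟨b j, hb j⟩) := by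
      funext j
      rw [resMap_residue]
      rfl
    rw [h4, h3]
    refine Finset.prod_congr rfl fun i _ => ?_
    rw [Polynomial.map_sub, map_X, map_C]
  · have hi : (c' (σ i) : Ω) = φ (a i) := (hc' (σ i)).trans (hσ i).symm
    have hmi : (c' i : Ω) = a i := hc' i
    have h5 := hφ.frob (c' i : Ω) (c' i).2
    rw [hmi, ← hi] at h5
    have h6 : residue w (c' (σ i)) = residue w (c' i ^ resCard (below K w)) := by
      refine (residue_eq_iff w (c' (σ i)).2 (c' i ^ resCard (below K w)).2).2 ?_
      rw [← hmi] at h5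
      exact h5
    change residue w (c' (σ i)) = residue w (c' i) ^ resCard (below K w)
    rw [h6, map_pow]

/-- The group of the permutations of the roots given by the Galois group. -/
private def GalN_H (K : Type) {Ω : Type} [Field K] [Field Ω] [Algebra K Ω] {g : ℕ}
    (a : Fin (g + 1) → Ω) : Subgroup (Equiv.Perm (Fin (g + 1))) where
  carrier := {σ | ∃ φ : Ω ≃ₐ[K] Ω, ∀ i, φ (a i) = a (σ i)}
  mul_mem' := by
    rintro σ τ ⟨φ, hφ⟩ ⟨ψ, hψ⟩
    exact ⟨φ * ψ, fun i => by rw [AlgEquiv.mul_apply, hψ, hφ]; rfl⟩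
  one_mem' := ⟨1, fun i => rfl⟩
  inv_mem' := by
    rintro σ ⟨φ, hφ⟩
    refine ⟨φ⁻¹, fun i => ?_⟩
    have h1 := hφ (σ⁻¹ i)
    have h2 : σ (σ⁻¹ i) = i := σ.apply_symm_apply i
    rw [h2] at h1
    rw [← h1]
    exact φ.symm_apply_apply _

private theorem GalN_perm {f : K[X]} {a : Fin (g + 1) → Ω} (hinj : Function.Injective a)
    (h : f.map (algebraMap K Ω) = ∏ i, (X - C (a i))) (φ : Ω ≃ₐ[K] Ω) :
    ∃ σ : Equiv.Perm (Fin (g + 1)), ∀ i, φ (a i) = a (σ i) := by
  have h1 : ∀ i, ∃ j, a j = φ (a i) := by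
    intro i
    have h2 : f.eval₂ (algebraMap K Ω) (a i) = 0 := by
      rw [← eval_map, h, eval_prod]
      exact Finset.prod_eq_zero (Finset.mem_univ i) (by simp)
    have h3 : f.eval₂ (algebraMap K Ω) (φ (a i)) = 0 := by
      have h4 := congrArg (φ : Ω →+* Ω) h2
      have h5 : (φ : Ω →+* Ω).comp (algebraMap K Ω) = algebraMap K Ω :=
        RingHom.ext fun x => φ.commutes x
      rw [map_zero, hom_eval₂, h5] at h4
      exact h4
    rw [← eval_map, h, eval_prod, Finset.prod_eq_zero_iff] at h3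
    obtain ⟨j, -, hj⟩ := h3
    rw [eval_sub, eval_X, eval_C, sub_eq_zero] at hj
    exact ⟨j, hj.symm⟩
  choose j hj using h1
  have hji : Function.Injective j := by
    intro x y hxy
    apply hinj
    apply φ.injective
    rw [← hj, ← hj, hxy]
  exact ⟨Equiv.ofBijective j (Finite.injective_iff_bijective.1 hji), fun i => (hj i).symm⟩

end core

variable {k K : Type} [Field k] [Field K] [Algebra k K]

private theorem GalN_tr {g : ℕ} (T : ∀ (F : Type) [Field F], F[X] → Prop) {v : Place k K}
    {b : Fin g → K} (h : At v (T _) b) {R : ValuationSubring K} (hR : R = v.ring) :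
    ∃ hb : ∀ j, b j ∈ R, T (ResidueField R) (pol g fun j => residue R ⟨b j, hb j⟩) := by
  subst hR
  refine ⟨h.1, ?_⟩
  have h1 := h.2
  have h2 : redV v b = fun j => residue v.ring ⟨b j, h.1 j⟩ := by
    funext j
    rw [redV, red, dif_pos (h.1 j)]
  rw [h2] at h1
  exact h1

section main

variable [Finite k] [Algebra (RatFunc k) K] [IsScalarTower k (RatFunc k) K]
  [FiniteDimensional (RatFunc k) K] [Algebra.IsSeparable (RatFunc k) K] {g : ℕ}

section sep

variable {Ω : Type} [Field Ω] [Algebra K Ω] [IsSepClosure K Ω]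

open Pool.Agent.SmNJ Pool.Agent.SmJ in
private theorem GalN_top (hg : 1 ≤ g) {b : Fin g → K} {a : Fin (g + 1) → Ω}
    (hinj : Function.Injective a) (h : (pol g b).map (algebraMap K Ω) = ∏ i, (X - C (a i)))
    (hA : ∃ v : Place k K, At v TypA b) (hB : ∃ v : Place k K, At v TypB b)
    (hC : ∃ v : Place k K, At v TypC b) : GalN_H K a = ⊤ := by
  have : IsGalois K Ω := inferInstance
  refine perm_top hg _ ?_ ?_ ?_
  · obtain ⟨v, hv⟩ := hA
    obtain ⟨hb, ht⟩ := GalN_tr (fun F _ f => TypA f) hv (below_abK Ω v)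
    have := finite_residue_of_below (Om := Ω) (below_abK Ω v)
    obtain ⟨σ, hσ'⟩ := GalN_perm hinj h (phK Ω v)
    obtain ⟨c, hc, hσ⟩ := GalN_core (phK_frob (Om := Ω) v) hσ' h hb
    exact ⟨σ, ⟨_, hσ'⟩, GalN_A _ ht hc hσ⟩
  · obtain ⟨v, hv⟩ := hB
    obtain ⟨hb, ht⟩ := GalN_tr (fun F _ f => TypB f) hv (below_abK Ω v)
    have := finite_residue_of_below (Om := Ω) (below_abK Ω v)
    obtain ⟨σ, hσ'⟩ := GalN_perm hinj h (phK Ω v)
    obtain ⟨c, hc, hσ⟩ := GalN_core (phK_frob (Om := Ω) v) hσ' h hb
    obtain ⟨r, f, -, hf, hfe, hr⟩ := ht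
    exact ⟨σ, ⟨_, hσ'⟩, GalN_B _ hf hfe hr hc hσ⟩
  · obtain ⟨v, hv⟩ := hC
    obtain ⟨hb, ht⟩ := GalN_tr (fun F _ f => TypC f) hv (below_abK Ω v)
    have := finite_residue_of_below (Om := Ω) (below_abK Ω v)
    obtain ⟨σ, hσ'⟩ := GalN_perm hinj h (phK Ω v)
    obtain ⟨c, hc, hσ⟩ := GalN_core (phK_frob (Om := Ω) v) hσ' h hb
    obtain ⟨p, f, -, hp, hpd, -, hf, hodd, hfe⟩ := ht
    exact ⟨σ, ⟨_, hσ'⟩, GalN_TypC _ hp hpd hf hodd hfe hc hσ⟩

end sep

theorem card_gal (hg : 2 ≤ g) (h2 : (2 : k) ≠ 0) {b : Fin g → K} (hs : (pol g b).Separable)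
    (hA : ∃ v : Place k K, At v TypA b) (hB : ∃ v : Place k K, At v TypB b)
    (hC : ∃ v : Place k K, At v TypC b) : Nat.card (pol g b).Gal = (g + 1).factorial := by
  classical
  have hclosed : IsSepClosed (SeparableClosure K) := inferInstance
  have : IsSepClosure K (SeparableClosure K) := ⟨inferInstance, inferInstance⟩
  have hspl : ((pol g b).map (algebraMap K (SeparableClosure K))).Splits :=
    IsSepClosed.splits_codomain _ hs
  have hm : ((pol g b).map (algebraMap K (SeparableClosure K))).Monic := (pol_monic g b).map _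
  -- enumerate the roots
  obtain ⟨a, ha⟩ : ∃ a : Fin (g + 1) → SeparableClosure K,
      (pol g b).map (algebraMap K (SeparableClosure K)) = ∏ i, (X - C (a i)) := by
    have h3 := hspl.eq_prod_roots_of_monic hm
    have h4 : ((pol g b).map (algebraMap K (SeparableClosure K))).roots.card = g + 1 := by
      rw [← hspl.natDegree_eq_card_roots, natDegree_map, natDegree_pol]
    set R := ((pol g b).map (algebraMap K (SeparableClosure K))).roots with hR
    have h5 : R.toList.length = g + 1 := by rw [Multiset.length_toList, h4]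
    refine ⟨fun i => R.toList.get (i.cast h5.symm), ?_⟩
    rw [h3]
    have h6 : (R.map fun x => X - C x) = ((R.toList.map fun x => X - C x : List _) :
        Multiset (SeparableClosure K)[X]) := by
      conv_lhs => rw [← Multiset.coe_toList R]
      rw [Multiset.map_coe]
    rw [h6, Multiset.prod_coe, ← List.prod_ofFn]
    congr 1
    apply List.ext_get
    · rw [List.length_map, List.length_ofFn, h5]
    · intro m h7 h8
      simp only [List.get_eq_getElem, List.getElem_map, List.getElem_ofFn, Fin.val_cast]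
  have hinj : Function.Injective a := by
    have h3 := hs.map (f := algebraMap K (SeparableClosure K))
    rw [ha] at h3
    exact separable_prod_X_sub_C_iff.1 h3
  have htop := GalN_top (Ω := SeparableClosure K) (k := k) (by omega) hinj ha hA hB hC
  have hF : Fact ((pol g b).map (algebraMap K (SeparableClosure K))).Splits := ⟨hspl⟩
  have hne : pol g b ≠ 0 := (pol_monic g b).ne_zero
  have hmem : ∀ x : SeparableClosure K, x ∈ (pol g b).rootSet (SeparableClosure K) ↔
      ∃ i, a i = x := by
    intro x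
    rw [mem_rootSet, aeval_def, ← eval_map, ha, eval_prod, Finset.prod_eq_zero_iff]
    constructor
    · rintro ⟨-, i, -, hi⟩
      rw [eval_sub, eval_X, eval_C, sub_eq_zero] at hi
      exact ⟨i, hi.symm⟩
    · rintro ⟨i, rfl⟩
      exact ⟨hne, i, Finset.mem_univ i, by simp⟩
  let e : Fin (g + 1) ≃ (pol g b).rootSet (SeparableClosure K) :=
    Equiv.ofBijective (fun i => ⟨a i, (hmem _).2 ⟨i, rfl⟩⟩)
      ⟨fun i j hij => hinj (congrArg Subtype.val hij), fun x => by
        obtain ⟨i, hi⟩ := (hmem x.1).1 x.2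
        exact ⟨i, Subtype.ext hi⟩⟩
  have he : ∀ i, ((e i : (pol g b).rootSet (SeparableClosure K)) : SeparableClosure K) = a i :=
    fun i => rfl
  have hbij : Function.Bijective (Gal.galActionHom (pol g b) (SeparableClosure K)) := by
    refine ⟨Gal.galActionHom_injective _ _, fun τ => ?_⟩
    have h3 : (e.trans τ).trans e.symm ∈ GalN_H K a := by
      rw [htop]
      exact Subgroup.mem_top _
    obtain ⟨φ, hφ⟩ := h3
    refine ⟨Gal.restrict (pol g b) (SeparableClosure K) φ, ?_⟩
    apply Equiv.ext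
    intro x
    obtain ⟨i, rfl⟩ := e.surjective x
    apply Subtype.ext
    rw [Gal.galActionHom_restrict, he, hφ, ← he]
    rw [Equiv.trans_apply, Equiv.trans_apply, Equiv.apply_symm_apply]
  rw [Nat.card_eq_of_bijective _ hbij, Nat.card_perm, Nat.card_congr e.symm, Nat.card_fin]

end main

private theorem GalN_comp {L : Type} [Field L] (P : L[X]) {v : L} (hv : v ≠ 0) :
    P.scaleRoots v = C (v ^ P.natDegree) * P.comp (C v⁻¹ * X) := by
  ext i
  rw [coeff_scaleRoots, coeff_C_mul, comp_C_mul_X_coeff]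
  by_cases hi : i ≤ P.natDegree
  · have h1 : v ^ P.natDegree = v ^ (P.natDegree - i) * v ^ i := by
      rw [← pow_add, Nat.sub_add_cancel hi]
    rw [h1, inv_pow]
    field_simp
  · rw [coeff_eq_zero_of_natDegree_lt (not_le.1 hi)]
    ring

private theorem GalN_split {K : Type} [Field K] (p : K[X]) {u : K} (hu : u ≠ 0) (hp : p ≠ 0) :
    IsSplittingField K p.SplittingField (p.scaleRoots u) where
  splits' := by
    have hu' : algebraMap K p.SplittingField u ≠ 0 := by
      rwa [Ne, map_eq_zero]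
    rw [map_scaleRoots _ _ _ (by
      rw [Ne, map_eq_zero, leadingCoeff_eq_zero]
      exact hp), GalN_comp _ hu']
    refine Splits.C_mul ?_ _
    exact (SplittingField.splits p).comp_of_natDegree_le_one ((natDegree_C_mul_le _ _).trans natDegree_X_le)
  adjoin_rootSet' := by
    rw [eq_top_iff, ← SplittingField.adjoin_rootSet p]
    refine Algebra.adjoin_le fun x hx => ?_
    have hx1 : aeval x p = 0 := (mem_rootSet.1 hx).2
    have h1 : algebraMap K p.SplittingField u * x ∈ (p.scaleRoots u).rootSet p.SplittingField := by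
      rw [mem_rootSet]
      exact ⟨scaleRoots_ne_zero hp u, scaleRoots_aeval_eq_zero hx1⟩
    have h2 := Subalgebra.smul_mem _ (Algebra.subset_adjoin (R := K) h1) u⁻¹
    have h3 : u⁻¹ • (algebraMap K p.SplittingField u * x) = x := by
      rw [← Algebra.smul_def, smul_smul, inv_mul_cancel₀ hu, one_smul]
    rw [h3] at h2
    exact h2

/-- Scaling does not change the splitting field. -/
theorem card_gal_sc {K : Type} [Field K] {g : ℕ} {a : Fin g → K} {u : K} (hu : u ≠ 0) :
    Nat.card (pol g (sc u a)).Gal = Nat.card (pol g a).Gal := by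
  rw [← scaleRoots_pol]
  have h1 := GalN_split (pol g a) hu (pol_monic g a).ne_zero
  exact (Nat.card_congr (AlgEquiv.autCongr
    (IsSplittingField.algEquiv (pol g a).SplittingField ((pol g a).scaleRoots u))).toEquiv).symm

variable [Finite k] [Algebra (RatFunc k) K] [IsScalarTower k (RatFunc k) K]
  [FiniteDimensional (RatFunc k) K] [Algebra.IsSeparable (RatFunc k) K] {g : ℕ}

theorem galS_of_genS (hg : 2 ≤ g) (h2 : (2 : k) ≠ 0) {a : Fin g → K} (hs : (pol g a).Separable)
    (h : GenS k a) : GalS a := by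
  obtain ⟨u, hu, hA, hB, hC⟩ := h.typ
  refine ⟨h.ne, ?_⟩
  rw [← card_gal_sc hu]
  exact card_gal hg h2 (sep_sc hs hu) hA hB hC

end Pool.Agent.HS
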