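import Pool.Agent.Lib.HS.Defs
import Pool.Agent.Lib.HS.MdX
import Pool.Agent.Lib.HS.Pol
import Pool.Agent.Lib.HS.Upp
import Pool.Agent.Lib.HA.Cnt

/-!
HS (all superelliptic curves over a global function field, MP_950c68_ag), module One.
The polynomials `X ^ 2 + a` of degree two (`r = 1`): all shapes but one are good.

`pol 1 a = X ^ 2 + C (a 0)`, separable iff `a 0 ≠ 0` (`2 ≠ 0`); `Nat.card Gal = 2` iff `- a 0` is not a square in `K`. The shapes are
the classes of `a 0` in `Kˣ / Kˣ²` (`sc u a = u ^ 2 a`), so exactly one shape is not `GalS` (the class of `-1`). The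
number of the shapes of height at most `M` is finite (`shapes_le` of `HS/Upp` with `finite_Box`, as `finite_shapes` in `HA/GenM.lean`)
and tends to infinity: `Kˣ / Kˣ²` is infinite (for instance by `TwO_bounds` or the lemmas of `HA/Cnt.lean`: infinitely many
classes; or by places of `K` and `exists_ord`), and every class has some height.
-/

set_option autoImplicit false

open Polynomial

namespace Pool.Agent.HS

open Pool.Agent.BSDFF Pool.Agent.GBC Pool.Agent.GBU

variable {k K : Type} [Field k] [Field K] [Algebra k K]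
variable [Finite k] [Algebra (RatFunc k) K] [IsScalarTower k (RatFunc k) K]
  [FiniteDimensional (RatFunc k) K] [Algebra.IsSeparable (RatFunc k) K]

theorem finite_shapes {g : ℕ} (hg : 1 ≤ g) (M : ℕ) :
    (Shapes k K g M fun _ => True).Finite := by
  obtain ⟨G, _⟩ := exists_geo k K
  obtain ⟨h, d₀, hU⟩ := shapes_le G hg
  obtain ⟨R, -, -, hR⟩ := hU ∅ M
  exact (hR (fun _ => True) fun _ _ _ _ => trivial).1

section aux

variable {F : Type} [Field F]

private theorem one_pol (a : Fin 1 → F) : pol 1 a = X ^ 2 - C (-(a 0)) := by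
  unfold pol
  rw [Fin.sum_univ_one]
  simp [sub_eq_add_neg]

private theorem one_sep (h2 : (2 : F) ≠ 0) {a : Fin 1 → F} (ha : a 0 ≠ 0) :
    (pol 1 a).Separable := by
  rw [one_pol]
  exact separable_X_pow_sub_C _ (by exact_mod_cast h2) (neg_ne_zero.2 ha)

private theorem one_gal {p : F[X]} (hp : Irreducible p) (hs : p.Separable)
    (hd : p.natDegree = 2) : Nat.card p.Gal = 2 := by
  classical
  have hsp : (p.map (algebraMap F p.SplittingField)).Splits := SplittingField.splits p
  have : Fact ((p.map (algebraMap F p.SplittingField)).Splits) := ⟨hsp⟩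
  have hinj := Polynomial.Gal.galActionHom_injective p p.SplittingField
  have hcard : Nat.card (p.rootSet p.SplittingField) = 2 := by
    rw [Nat.card_eq_fintype_card, card_rootSet_eq_natDegree hs hsp, hd]
  have h1 : Nat.card p.Gal ≤ 2 := by
    have h3 := Nat.card_le_card_of_injective _ hinj
    rw [Nat.card_perm, hcard] at h3
    exact h3
  have h4 : Nat.card p.Gal ≠ 1 := by
    intro h
    rw [Polynomial.Gal.card_of_separable hs] at h
    have h5 : (⊥ : Subalgebra F p.SplittingField) = ⊤ := Subalgebra.bot_eq_top_of_finrank_eq_one h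
    have h6 : (p.map (algebraMap F p.SplittingField)).degree ≠ 0 := by
      rw [degree_map, degree_eq_natDegree hp.ne_zero, hd]
      norm_num
    obtain ⟨x, hx⟩ := hsp.exists_eval_eq_zero h6
    have hx' : x ∈ (⊥ : Subalgebra F p.SplittingField) := by
      rw [h5]
      trivial
    obtain ⟨y, rfl⟩ := Algebra.mem_bot.1 hx'
    rw [eval_map_algebraMap, aeval_algebraMap_apply, coe_aeval_eq_eval] at hx
    have h7 : p.IsRoot y := (algebraMap F p.SplittingField).injective (by rw [hx, map_zero])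
    have h8 := degree_eq_one_of_irreducible_of_root hp h7
    rw [degree_eq_natDegree hp.ne_zero, hd] at h8
    norm_num at h8
  have h5 : 0 < Nat.card p.Gal := Nat.card_pos
  omega

private theorem one_bad (h2 : (2 : F) ≠ 0) {a : Fin 1 → F} (ha : a 0 ≠ 0) (h : ¬ GalS a) :
    Quotient.mk (scRel F 1) a = Quotient.mk (scRel F 1) (fun _ => -1) := by
  have hs := one_sep h2 ha
  have hd : (pol 1 a).natDegree = 2 := by rw [natDegree_pol]
  by_cases hi : Irreducible (pol 1 a)
  · exfalso
    apply h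
    refine ⟨fun j _ => ?_, ?_⟩
    · rw [Subsingleton.elim j 0]
      exact ha
    · rw [one_gal hi hs hd]
      rfl
  · rw [(pol_monic 1 a).irreducible_iff_roots_eq_zero_of_degree_le_three (by rw [hd])
      (by rw [hd]; norm_num)] at hi
    obtain ⟨x, hx⟩ := Multiset.exists_mem_of_ne_zero hi
    have hx1 := (mem_roots'.1 hx).2
    rw [one_pol, IsRoot.def, eval_sub, eval_pow, eval_X, eval_C, sub_neg_eq_add] at hx1
    have hx0 : x ≠ 0 := by
      rintro rfl
      apply ha
      simpa using hx1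
    apply Quotient.sound
    refine (scRel F 1).symm ⟨x, hx0, ?_⟩
    funext j
    rw [Subsingleton.elim j 0]
    unfold sc
    simp only [Fin.val_zero, zero_add]
    linear_combination hx1

end aux

open Classical in
private theorem one_many (hk : ∀ x : K, IsIntegral k x → ∃ c : k, algebraMap k K c = x)
    (h2 : (2 : k) ≠ 0) (m : ℕ) : ∃ M₀ : ℕ, ∀ M ≥ M₀,
      m ≤ (Shapes k K 1 M fun _ => True).ncard := by
  obtain ⟨c, C, hc, -, H⟩ := Pool.Agent.HA.TwO_bounds (k := k) (K := K) h2 hk
  obtain ⟨N₀, hN⟩ := H ∅ Set.finite_empty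
  have hq : (1 : ℝ) < Nat.card k := by exact_mod_cast Finite.one_lt_card (α := k)
  obtain ⟨n, hn⟩ := pow_unbounded_of_one_lt ((m : ℝ) / c) hq
  have h1 := (hN (max N₀ n) (le_max_left _ _)).1
  have h3 : (Nat.card k : ℝ) ^ n ≤ (Nat.card k : ℝ) ^ (max N₀ n) :=
    pow_le_pow_right₀ hq.le (le_max_right _ _)
  have h4 : (m : ℝ) ≤ (Pool.Agent.HA.TwO k ∅ (max N₀ n) (K := K) fun _ => True).ncard := by
    refine le_trans ?_ h1
    rw [div_lt_iff₀ hc] at hn
    nlinarith
  have h5 : m ≤ (Pool.Agent.HA.TwO k ∅ (max N₀ n) (K := K) fun _ => True).ncard := by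
    exact_mod_cast h4
  have hfin := Pool.Agent.HA.finite_TwO (k := k) (K := K) Set.finite_empty (max N₀ n)
  set T := Pool.Agent.HA.TwO k ∅ (max N₀ n) (K := K) fun _ => True with hT
  let f : Pool.Agent.SmN.Fnl.Tws K → Shp K 1 := fun t =>
    Quotient.mk (scRel K 1) (fun _ => ((Quotient.out t : Kˣ) : K))
  have hf : Function.Injective f := by
    intro s t hst
    obtain ⟨u, hu, h⟩ := Quotient.exact hst
    have h6 := congrFun h 0
    unfold sc at h6
    simp only [Fin.val_zero, zero_add] at h6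
    rw [← QuotientGroup.out_eq' s, ← QuotientGroup.out_eq' t, QuotientGroup.eq]
    refine ⟨Units.mk0 u hu, ?_⟩
    rw [powMonoidHom_apply, eq_inv_mul_iff_mul_eq]
    apply Units.ext
    rw [Units.val_mul, Units.val_pow_eq_pow_val, Units.val_mk0, h6, mul_comm]
  refine ⟨hfin.toFinset.sup fun t =>
    (hgt k (fun _ : Fin 1 => ((Quotient.out t : Kˣ) : K))).toNat, fun M hM => ?_⟩
  have h2K : (2 : K) ≠ 0 := by
    intro h
    apply h2
    apply (algebraMap k K).injective
    rw [map_ofNat, map_zero]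
    exact h
  have hsub : f '' T ⊆ Shapes k K 1 M fun _ => True := by
    rintro _ ⟨t, ht, rfl⟩
    refine ⟨_, rfl, one_sep h2K (Units.ne_zero _), ?_, trivial⟩
    have h7 := (Finset.le_sup (f := fun t : Pool.Agent.SmN.Fnl.Tws K =>
      (hgt k (fun _ : Fin 1 => ((Quotient.out t : Kˣ) : K))).toNat)
      (hfin.mem_toFinset.2 ht)).trans hM
    have h8 := Int.self_le_toNat (hgt k (fun _ : Fin 1 => ((Quotient.out t : Kˣ) : K)))
    omega
  calc m ≤ T.ncard := h5
    _ = (f '' T).ncard := (Set.ncard_image_of_injective _ hf).symm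
    _ ≤ _ := Set.ncard_le_ncard hsub (finite_shapes le_rfl M)

theorem most_one (hk : ∀ x : K, IsIntegral k x → ∃ c : k, algebraMap k K c = x)
    (h2 : (2 : k) ≠ 0) (ε : ℝ) (hε : 0 < ε) :
    ∃ M₀ : ℕ, ∀ M ≥ M₀, 0 < (Shapes k K 1 M fun _ => True).ncard ∧
      ((Shapes k K 1 M fun a => ¬ GalS a).ncard : ℝ) ≤
        ε * (Shapes k K 1 M fun _ => True).ncard := by
  obtain ⟨M₀, hM⟩ := one_many (k := k) (K := K) hk h2 (⌈1 / ε⌉₊ + 1)
  refine ⟨M₀, fun M hM' => ⟨lt_of_lt_of_le (Nat.succ_pos _) (hM M hM'), ?_⟩⟩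
  have h2K : (2 : K) ≠ 0 := by
    intro h
    apply h2
    apply (algebraMap k K).injective
    rw [map_ofNat, map_zero]
    exact h
  have h1 : (Shapes k K 1 M fun a => ¬ GalS a) ⊆ {Quotient.mk (scRel K 1) (fun _ => -1)} := by
    rintro _ ⟨a, rfl, hs, -, hb⟩
    have ha : a ≠ 0 := ne_zero_of_sep le_rfl hs
    have ha0 : a 0 ≠ 0 := by
      intro h
      apply ha
      funext j
      rw [Subsingleton.elim j 0]
      exact h
    exact one_bad h2K ha0 hb
  have h3 : ((Shapes k K 1 M fun a => ¬ GalS a).ncard : ℝ) ≤ 1 := by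
    have := Set.ncard_le_ncard h1 (Set.finite_singleton _)
    rw [Set.ncard_singleton] at this
    exact_mod_cast this
  refine h3.trans ?_
  have h4 : (1 : ℝ) / ε ≤ (Shapes k K 1 M fun _ => True).ncard := by
    calc (1 : ℝ) / ε ≤ ⌈1 / ε⌉₊ := Nat.le_ceil _
      _ ≤ (Shapes k K 1 M fun _ => True).ncard := by
        exact_mod_cast (Nat.le_succ _).trans (hM M hM')
  rw [div_le_iff₀ hε] at h4
  linarith

end Pool.Agent.HS
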