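import Pool.Agent.Lib.HS.GenM
import Pool.Agent.Lib.HS.GalN
import Pool.Agent.Lib.HS.One

/-!
HS (all superelliptic curves over a global function field, MP_950c68_ag), module Most.
100 per cent of the shapes have the full symmetric group as Galois group, in every degree `g + 1 ≥ 2`.
-/

set_option autoImplicit false

open Polynomial

namespace Pool.Agent.HS

open Pool.Agent.BSDFF Pool.Agent.GBC Pool.Agent.GBU

variable {k K : Type} [Field k] [Field K] [Algebra k K]
variable [Finite k] [Algebra (RatFunc k) K] [IsScalarTower k (RatFunc k) K]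
  [FiniteDimensional (RatFunc k) K] [Algebra.IsSeparable (RatFunc k) K]

theorem most_gal (hk : ∀ x : K, IsIntegral k x → ∃ c : k, algebraMap k K c = x) {g : ℕ}
    (hg : 1 ≤ g) (hp : ((g + 1).factorial : k) ≠ 0) (ε : ℝ) (hε : 0 < ε) :
    ∃ M₀ : ℕ, ∀ M ≥ M₀, 0 < (Shapes k K g M fun _ => True).ncard ∧
      ((Shapes k K g M fun a => ¬ GalS a).ncard : ℝ) ≤
        ε * (Shapes k K g M fun _ => True).ncard := by
  have h2 : (2 : k) ≠ 0 := by
    intro h
    apply hp
    have h3 : 2 ∣ (g + 1).factorial := Nat.dvd_factorial (by norm_num) (by omega)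
    obtain ⟨t, ht⟩ := h3
    rw [ht, Nat.cast_mul, Nat.cast_ofNat, h, zero_mul]
  rcases hg.eq_or_lt with rfl | hg2
  · exact most_one hk h2 ε hε
  · obtain ⟨M₁, h1⟩ := most_gen (K := K) hk hg2 hp ε hε
    obtain ⟨M₂, h3⟩ := pos_shapes (K := K) hk hg2 hp
    refine ⟨max M₁ M₂, fun M hM => ⟨h3 M ((le_max_right _ _).trans hM), le_trans ?_
      (h1 M ((le_max_left _ _).trans hM))⟩⟩
    have h4 : (Shapes k K g M fun a => ¬ GalS a) ⊆ Shapes k K g M fun a => ¬ GenS k a := by
      rintro z ⟨a, ha, hs, hh, hn⟩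
      exact ⟨a, ha, hs, hh, fun h => hn (galS_of_genS hg2 h2 hs h)⟩
    have h5 : (Shapes k K g M fun a => ¬ GenS k a).Finite := by
      refine (finite_shapes (k := k) (K := K) hg M).subset ?_
      rintro z ⟨a, ha, hs, hh, -⟩
      exact ⟨a, ha, hs, hh, trivial⟩
    exact_mod_cast Set.ncard_le_ncard h4 h5

end Pool.Agent.HS
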