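import Pool.Agent.Lib.HS.FixS
import Pool.Agent.Lib.HS.Most
import Pool.Agent.Lib.HS.Dec

/-!
HS (all superelliptic curves over a global function field, MP_950c68_ag), module Fin.
From the twists of one shape to the family.
-/

set_option autoImplicit false

open Polynomial

namespace Pool.Agent.HS

open Pool.Agent.BSDFF Pool.Agent.GBC Pool.Agent.GBU
open Pool.Agent.SmS.Fn (Tws)

variable {k K : Type} [Field k] [Field K] [Algebra k K]
variable [Finite k] [Algebra (RatFunc k) K] [IsScalarTower k (RatFunc k) K]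
  [FiniteDimensional (RatFunc k) K] [Algebra.IsSeparable (RatFunc k) K]

/-- The final theorem, `Good` any property which holds for `100` per cent of the twists of a
good shape. -/
theorem fam_core {l : ℕ} (hl : l.Prime) (hl2 : Odd l)
    (hk : ∀ x : K, IsIntegral k x → ∃ c : k, algebraMap k K c = x) {g : ℕ} (hg : 1 ≤ g)
    (hp : ((g + 1).factorial : k) ≠ 0) (Good : ℕ → (Fin g → K) → Prop)
    (hgood : ∀ b : Fin g → K, (pol g b).Separable → GalS b → ∀ ε : ℝ, 0 < ε →
      ∃ j₀ : ℕ, ∀ j ≥ j₀, ∃ N₀ : ℕ, ∀ N ≥ N₀,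
      ((TwO k l (fun v => md v b) N fun d => ¬ Good j (sc (d : K) b)).ncard : ℝ) ≤
        ε * (TwO k l (fun v => md v b) N fun _ => True).ncard) :
    (∀ M N, (Fam k K l g M N fun _ => True).Finite) ∧
    ∀ ε : ℝ, 0 < ε → ∃ M₀ : ℕ, ∀ M ≥ M₀, ∃ j N₀ : ℕ, ∀ N ≥ N₀,
      0 < (Fam k K l g M N fun _ => True).ncard ∧
      ((Fam k K l g M N fun a => ¬ Good j a).ncard : ℝ) ≤
        ε * (Fam k K l g M N fun _ => True).ncard := by
  classical
  obtain ⟨G, -⟩ := exists_geo k K
  have hT : ∀ (N : ℕ) (O : Place k K → ℤ), (Function.support O).Finite →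
      (TwO k l O N fun _ => True).Finite := fun N O hO => finite_TwO hl hO N
  have hr0 : ∃ r : Shp K g → Fin g → K, ∀ z, Quotient.mk (scRel K g) (r z) = z :=
    ⟨Quotient.out, fun z => Quotient.out_eq z⟩
  obtain ⟨r, hr⟩ := hr0
  have hmF : ∀ M z, z ∈ (finite_shapes (k := k) (K := K) hg M).toFinset ↔
      z ∈ Shapes k K g M fun _ => True := fun M z => Set.Finite.mem_toFinset _
  refine ⟨fun M N => (fam_le G hg M N _ (hT N) r hr (hmF M)).1, fun ε hε => ?_⟩
  obtain ⟨c, C, hc, hC, N₂, hb⟩ := TwO_bounds (k := k) (K := K) hl hk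
  set ε₂ : ℝ := min (1 / 2) (ε * c / (8 * C)) with hε₂
  have hε₂0 : 0 < ε₂ := lt_min (by norm_num) (by positivity)
  have hε₂1 : ε₂ ≤ 1 / 2 := min_le_left _ _
  have hε₂2 : ε₂ * (8 * C) ≤ ε * c := by
    have := min_le_right (1 / 2) (ε * c / (8 * C))
    rw [← hε₂, le_div_iff₀ (by positivity)] at this
    exact this
  obtain ⟨M₀, hM₀⟩ := most_gal (K := K) hk hg hp ε₂ hε₂0
  refine ⟨M₀, fun M hM => ?_⟩
  obtain ⟨h5, h4⟩ := hM₀ M hM
  have hZf : (Shapes k K g M fun _ => True).Finite := finite_shapes hg M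
  set Z : Finset (Shp K g) := hZf.toFinset with hZ
  have hmZ : ∀ z, z ∈ Z ↔ z ∈ Shapes k K g M fun _ => True := fun z =>
    Set.Finite.mem_toFinset _
  -- the representatives of the shapes in `Z`
  have hrep : ∀ z ∈ Z, (pol g (r z)).Separable ∧ hgt k (r z) ≤ M := by
    intro z hz
    obtain ⟨a, haz, hs, hh, -⟩ := (hmZ z).1 hz
    obtain ⟨u, hu, hau⟩ : ∃ u : K, u ≠ 0 ∧ r z = sc u a :=
      Quotient.exact (haz.trans (hr z).symm)
    rw [hau, hgt_sc G (ne_zero_of_sep hg hs) hu]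
    exact ⟨sep_sc hs hu, hh⟩
  set Zg := Z.filter fun z => z ∉ Shapes k K g M fun a => ¬ GalS a with hZg
  set Zb := Z.filter fun z => ¬ (z ∉ Shapes k K g M fun a => ¬ GalS a) with hZb
  have hgal : ∀ z ∈ Zg, GalS (r z) := by
    intro z hz
    obtain ⟨hz1, hz2⟩ := Finset.mem_filter.1 hz
    by_contra h
    exact hz2 ⟨r z, hr z, (hrep z hz1).1, (hrep z hz1).2, h⟩
  have hcard : (Z.card : ℝ) = Zg.card + Zb.card := by
    have := Finset.card_filter_add_card_filter_not (s := Z)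
      (p := fun z => z ∉ Shapes k K g M fun a => ¬ GalS a)
    exact_mod_cast this.symm
  have hZc : (Shapes k K g M fun _ => True).ncard = Z.card := Set.ncard_eq_toFinset_card _ hZf
  have hZbc : (Zb.card : ℝ) ≤ ε₂ * Z.card := by
    rw [← hZc]
    refine le_trans ?_ h4
    have h6 : (Zb : Set (Shp K g)) ⊆ Shapes k K g M fun a => ¬ GalS a := by
      intro z hz
      exact not_not.1 (Finset.mem_filter.1 (Finset.mem_coe.1 hz)).2
    have h7 : (Shapes k K g M fun a => ¬ GalS a).Finite := by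
      refine hZf.subset ?_
      rintro z ⟨a, ha, hs, hh, -⟩
      exact ⟨a, ha, hs, hh, trivial⟩
    have h8 := Set.ncard_le_ncard h6 h7
    rw [Set.ncard_coe_finset] at h8
    exact_mod_cast h8
  have hZpos : (0 : ℝ) < Z.card := by
    rw [← hZc]
    exact_mod_cast h5
  have hO : ∀ z ∈ Z, (Function.support fun v : Place k K => md v (r z)).Finite := fun z hz =>
    md_finite G (ne_zero_of_sep hg (hrep z hz).1)
  -- the twists of the good shapes
  have hone : ∀ z : Shp K g, ∃ j₀ : ℕ, z ∈ Zg → ∀ j ≥ j₀, ∃ N₀ : ℕ, ∀ N ≥ N₀,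
      ((TwO k l (fun v => md v (r z)) N fun d => ¬ Good j (sc (d : K) (r z))).ncard : ℝ) ≤
        ε / 4 * (TwO k l (fun v => md v (r z)) N fun _ => True).ncard := by
    intro z
    by_cases hz : z ∈ Zg
    · obtain ⟨j₀, h8⟩ := hgood (r z) (hrep z (Finset.mem_filter.1 hz).1).1 (hgal z hz) (ε / 4)
        (by linarith)
      exact ⟨j₀, fun _ => h8⟩
    · exact ⟨0, fun h => absurd h hz⟩
  choose j₀ hj₀ using hone
  set j := Zg.sup j₀ with hj
  have hone' : ∀ z : Shp K g, ∃ N₀ : ℕ, z ∈ Zg → ∀ N ≥ N₀,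
      ((TwO k l (fun v => md v (r z)) N fun d => ¬ Good j (sc (d : K) (r z))).ncard : ℝ) ≤
        ε / 4 * (TwO k l (fun v => md v (r z)) N fun _ => True).ncard := by
    intro z
    by_cases hz : z ∈ Zg
    · obtain ⟨N₀, h8⟩ := hj₀ z hz j (Finset.le_sup (f := j₀) hz)
      exact ⟨N₀, fun _ => h8⟩
    · exact ⟨0, fun h => absurd h hz⟩
  choose N₃ hN₃ using hone'
  refine ⟨j, max (max N₂ (Zg.sup N₃)) 1, fun N hN => ?_⟩
  have hN2 : N₂ ≤ N := ((le_max_left _ _).trans (le_max_left _ _)).trans hN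
  have hN1 : 1 ≤ N := (le_max_right _ _).trans hN
  have hN3 : ∀ z ∈ Zg, N₃ z ≤ N := fun z hz =>
    (((Finset.le_sup (f := N₃) hz).trans (le_max_right _ _)).trans (le_max_left _ _)).trans hN
  set Q : ℝ := (N : ℝ) ^ (l - 2) * (Nat.card k : ℝ) ^ N with hQ
  have hQ0 : 0 < Q := by
    have : 0 < Nat.card k := Nat.card_pos
    have : (0 : ℝ) < N := by exact_mod_cast hN1
    positivity
  have hbd : ∀ z ∈ Z, c * Q ≤ (TwO k l (fun v => md v (r z)) N fun _ => True).ncard ∧
      ((TwO k l (fun v => md v (r z)) N fun _ => True).ncard : ℝ) ≤ C * Q := fun z hz =>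
    hb _ (hO z hz) N hN2
  set A : ℝ := ∑ z ∈ Zg, ((TwO k l (fun v => md v (r z)) N fun _ => True).ncard : ℝ) with hA
  set B : ℝ := ∑ z ∈ Zb, ((TwO k l (fun v => md v (r z)) N fun _ => True).ncard : ℝ) with hB
  have hA1 : (Zg.card : ℝ) * (c * Q) ≤ A := by
    rw [hA, ← nsmul_eq_mul]
    exact Finset.card_nsmul_le_sum _ _ _ fun z hz => (hbd z (Finset.mem_filter.1 hz).1).1
  have hB1 : B ≤ Zb.card * (C * Q) := by
    rw [hB, ← nsmul_eq_mul]
    exact Finset.sum_le_card_nsmul _ _ _ fun z hz => (hbd z (Finset.mem_filter.1 hz).1).2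
  have hZgc : (Z.card : ℝ) / 2 ≤ Zg.card := by
    have : ε₂ * Z.card ≤ 1 / 2 * Z.card := mul_le_mul_of_nonneg_right hε₂1 hZpos.le
    linarith
  have hA2 : (Z.card : ℝ) / 2 * (c * Q) ≤ A :=
    (mul_le_mul_of_nonneg_right hZgc (by positivity)).trans hA1
  have hA0 : 0 < A := lt_of_lt_of_le (by positivity) hA2
  have hBA : B ≤ ε / 4 * A := by
    calc B ≤ Zb.card * (C * Q) := hB1
      _ ≤ ε₂ * Z.card * (C * Q) := mul_le_mul_of_nonneg_right hZbc (by positivity)
      _ = ε₂ * (8 * C) * (Z.card / 8 * Q) := by ring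
      _ ≤ ε * c * (Z.card / 8 * Q) := mul_le_mul_of_nonneg_right hε₂2 (by positivity)
      _ = ε / 4 * (Z.card / 2 * (c * Q)) := by ring
      _ ≤ ε / 4 * A := mul_le_mul_of_nonneg_left hA2 (by positivity)
  have hF : (Fam k K l g M N fun _ => True).Finite := (fam_le G hg M N _ (hT N) r hr hmZ).1
  have hAF : A ≤ (Fam k K l g M N fun _ => True).ncard := by
    have h6 := le_fam G hl2 hg M N (fun _ => True) (hT N) hF r hr (Z := Zg) fun z hz =>
      ⟨(hmZ z).1 (Finset.mem_filter.1 hz).1, (hgal z hz).ne⟩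
    rw [hA]
    exact_mod_cast h6
  have hbad : ((Fam k K l g M N fun a => ¬ Good j a).ncard : ℝ) ≤ ε / 4 * A + B := by
    have h6 := (fam_le G hg M N (fun a => ¬ Good j a) (hT N) r hr hmZ).2
    have h7 : ((∑ z ∈ Z, (TwO k l (fun v => md v (r z)) N
        fun d => ¬ Good j (sc (d : K) (r z))).ncard : ℕ) : ℝ) =
        ∑ z ∈ Zg, ((TwO k l (fun v => md v (r z)) N
          fun d => ¬ Good j (sc (d : K) (r z))).ncard : ℝ) +
          ∑ z ∈ Zb, ((TwO k l (fun v => md v (r z)) N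
            fun d => ¬ Good j (sc (d : K) (r z))).ncard : ℝ) := by
      rw [Nat.cast_sum]
      exact (Finset.sum_filter_add_sum_filter_not Z _ _).symm
    have h8 : ∑ z ∈ Zb, ((TwO k l (fun v => md v (r z)) N
        fun d => ¬ Good j (sc (d : K) (r z))).ncard : ℝ) ≤ B := by
      refine Finset.sum_le_sum fun z hz => ?_
      have := Set.ncard_le_ncard (TwO_mono (k := k) (K := K) (l := l)
        (O := fun v => md v (r z)) (N := N) (P := fun d => ¬ Good j (sc (d : K) (r z)))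
        (Q := fun _ => True) fun _ _ => trivial) (hT N _ (hO z (Finset.mem_filter.1 hz).1))
      exact_mod_cast this
    have h9 : ∑ z ∈ Zg, ((TwO k l (fun v => md v (r z)) N
        fun d => ¬ Good j (sc (d : K) (r z))).ncard : ℝ) ≤ ε / 4 * A := by
      rw [hA, Finset.mul_sum]
      exact Finset.sum_le_sum fun z hz => hN₃ z hz N (hN3 z hz)
    have h10 : ((Fam k K l g M N fun a => ¬ Good j a).ncard : ℝ) ≤
        ((∑ z ∈ Z, (TwO k l (fun v => md v (r z)) N
          fun d => ¬ Good j (sc (d : K) (r z))).ncard : ℕ) : ℝ) := by exact_mod_cast h6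
    linarith
  refine ⟨by exact_mod_cast lt_of_lt_of_le hA0 hAF, hbad.trans ?_⟩
  have h11 : ε / 4 * A ≤ ε / 4 * (Fam k K l g M N fun _ => True).ncard :=
    mul_le_mul_of_nonneg_left hAF (by linarith)
  have h12 : 0 ≤ ε * (Fam k K l g M N fun _ => True).ncard := by positivity
  linarith

end Pool.Agent.HS
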