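import Pool.Agent.Lib.HS.Defs
import Pool.Agent.Lib.HS.Pol
import Pool.Agent.Lib.SmS.Fn.Tr

/-!
HS (all superelliptic curves over a global function field, MP_950c68_ag), module Tr.
The curve `y ^ l = d ^ n f(x / d)`, `n` the degree of `f`, is isomorphic over `K` to `y ^ l = d ^ n f(x)`.

`f.scaleRoots d = d ^ n f(x / d)`. Over `Ω`: `x ↦ d x`, `y ↦ y` defines an isomorphism `Co l (f.scaleRoots d) → Co l (C (d ^ n) * f)`
(`(f.scaleRoots d)(d x) = d ^ n f(x)`: `AdjoinRoot.lift` of `Polynomial.compRingHom (C d * X)`, inverse with `d⁻¹`; compare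
`twIso`, `exists_twist` in `SmS/Fn/Tr.lean` and `TwN`), it commutes with the coefficientwise action as `d ∈ K`. So
an equivariant isomorphism of the class groups (`ClassGroup.mulEquiv`), and `good_congr` of `SmS/Fn/Tr.lean`.
`scaleRoots_pol` (`HS/Pol`): `(pol r a).scaleRoots u = pol r (sc u a)`.
-/

set_option autoImplicit false

open Polynomial

namespace Pool.Agent.HS

open Pool.Agent.SmS (CopDeg)
open Pool.Agent.SmS.Fn (twf GoodJ)

section cls

variable {R S : Type} [CommRing R] [IsDomain R] [CommRing S] [IsDomain S]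

private theorem mulEquiv_mk (g : R ≃+* S)
    (I : (FractionalIdeal (nonZeroDivisors R) (FractionRing R))ˣ) :
    ClassGroup.mulEquiv g (ClassGroup.mk (FractionRing R) I) =
      ClassGroup.mk (FractionRing S) (Units.mapEquiv
        (FractionalIdeal.ringEquivOfRingEquiv (FractionRing R) (FractionRing S) g).toMulEquiv I) := by
  rw [ClassGroup.mulEquiv, MulEquiv.trans_apply, MulEquiv.trans_apply, MulEquiv.symm_apply_eq,
    ClassGroup.equiv_mk, ClassGroup.equiv_mk, QuotientGroup.congr_mk']
  congr 1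
  simp [← Units.val_inj]

private theorem mulEquiv_nat (t : R ≃+* S) (s₁ : R ≃+* R) (s₂ : S ≃+* S)
    (h : ∀ z, t (s₁ z) = s₂ (t z)) (Q : ClassGroup R) :
    ClassGroup.mulEquiv t (ClassGroup.mulEquiv s₁ Q) =
      ClassGroup.mulEquiv s₂ (ClassGroup.mulEquiv t Q) := by
  have e : s₁.trans t = t.trans s₂ := RingEquiv.ext h
  refine ClassGroup.induction (R := R) (FractionRing R) (fun I => ?_) Q
  rw [mulEquiv_mk, mulEquiv_mk, mulEquiv_mk, mulEquiv_mk]
  congr 1
  apply Units.ext
  change FractionalIdeal.ringEquivOfRingEquiv (FractionRing R) (FractionRing S) t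
      (FractionalIdeal.ringEquivOfRingEquiv (FractionRing R) (FractionRing R) s₁ I) =
    FractionalIdeal.ringEquivOfRingEquiv (FractionRing S) (FractionRing S) s₂
      (FractionalIdeal.ringEquivOfRingEquiv (FractionRing R) (FractionRing S) t I)
  rw [← FractionalIdeal.ringEquivOfRingEquiv_trans_apply,
    ← FractionalIdeal.ringEquivOfRingEquiv_trans_apply, e]

end cls

section co

open Pool.Agent.SmS

variable {l : ℕ} {F : Type} [Field F] {f g : F[X]}

/-- `x ↦ d x`, `y ↦ y`. -/
private noncomputable def scHom (l : ℕ) (d : F) (h : g.comp (C d * X) = f) : Co l g →+* Co l f :=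
  AdjoinRoot.lift ((po l f).comp (compRingHom (C d * X))) (yy l f) (by
    rw [eval₂_sub, eval₂_X_pow, eval₂_C, yy_pow, RingHom.comp_apply, coe_compRingHom_apply, h,
      sub_self])

private theorem scHom_po (d : F) (h : g.comp (C d * X) = f) (p : F[X]) :
    scHom l d h (po l g p) = po l f (p.comp (C d * X)) := AdjoinRoot.lift_of _

private theorem scHom_yy (d : F) (h : g.comp (C d * X) = f) :
    scHom l d h (yy l g) = yy l f := AdjoinRoot.lift_root _

private theorem comp_comp' {c d : F} (hcd : c * d = 1) (p : F[X]) :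
    (p.comp (C c * X)).comp (C d * X) = p := by
  rw [comp_assoc, mul_comp, C_comp, X_comp, ← mul_assoc, ← C_mul, hcd, C_1, one_mul, comp_X]

private theorem scSymm {c d : F} (hcd : d * c = 1) (h : g.comp (C d * X) = f) :
    f.comp (C c * X) = g := by
  rw [← h, comp_comp' hcd]

private theorem scComp {c d : F} (hcd : d * c = 1) (h : g.comp (C c * X) = f)
    (h' : f.comp (C d * X) = g) :
    (scHom l c h).comp (scHom l d h') = RingHom.id (Co l f) := by
  apply hom_ext
  · intro p
    rw [RingHom.comp_apply, scHom_po, scHom_po, comp_comp' hcd]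
    rfl
  · rw [RingHom.comp_apply, scHom_yy, scHom_yy]
    rfl

/-- The isomorphism `x ↦ d x`, `y ↦ y`. -/
private noncomputable def scCo (l : ℕ) {d : F} (hd : d ≠ 0) (h : g.comp (C d * X) = f) :
    Co l g ≃+* Co l f :=
  RingEquiv.ofRingHom (scHom l d h) (scHom l d⁻¹ (scSymm (mul_inv_cancel₀ hd) h))
    (scComp (inv_mul_cancel₀ hd) _ _) (scComp (mul_inv_cancel₀ hd) _ _)

private theorem scCo_po {d : F} (hd : d ≠ 0) (h : g.comp (C d * X) = f) (p : F[X]) :
    scCo l hd h (po l g p) = po l f (p.comp (C d * X)) := scHom_po d h p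

private theorem scCo_yy {d : F} (hd : d ≠ 0) (h : g.comp (C d * X) = f) :
    scCo l hd h (yy l g) = yy l f := scHom_yy d h

private theorem scCo_act [NeZero l] {d : F} (hd : d ≠ 0) (h : g.comp (C d * X) = f) (s : F ≃+* F)
    (hg : g.map (s : F →+* F) = g) (hf : f.map (s : F →+* F) = f) (hs : s d = d) (z : Co l g) :
    scCo l hd h (coMap s hg 1 (one_pow l) z) = coMap s hf 1 (one_pow l) (scCo l hd h z) := by
  have e : ((scCo l hd h : Co l g →+* Co l f)).comp (coMap s hg 1 (one_pow l) : Co l g →+* Co l g) =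
      (coMap s hf 1 (one_pow l) : Co l f →+* Co l f).comp (scCo l hd h : Co l g →+* Co l f) := by
    apply hom_ext
    · intro p
      change scCo l hd h (coMap s hg 1 (one_pow l) (po l g p)) =
        coMap s hf 1 (one_pow l) (scCo l hd h (po l g p))
      rw [coMap_po, scCo_po, scCo_po, coMap_po, Polynomial.map_comp, Polynomial.map_mul, map_C,
        map_X]
      have h1 : (s : F →+* F) d = d := hs
      rw [h1]
    · change scCo l hd h (coMap s hg 1 (one_pow l) (yy l g)) =
        coMap s hf 1 (one_pow l) (scCo l hd h (yy l g))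
      rw [coMap_yy, map_mul, scCo_po, scCo_yy, coMap_yy, C_comp]
  exact RingHom.congr_fun e z

end co

variable {k K : Type} [Field k] [Field K] [Algebra k K] {l : ℕ} [Fact l.Prime]

private theorem scaleRoots_comp {K : Type} [Field K] (f : K[X]) (d : K) :
    (f.scaleRoots d).comp (C d * X) = C (d ^ f.natDegree) * f := by
  have h := scaleRoots_eval₂_mul (p := f) (C : K →+* K[X]) X d
  rw [eval₂_C_X] at h
  rw [comp, h, C_pow]

theorem good_scaleRoots {f : K[X]} [CopDeg l f] (d : Kˣ) [CopDeg l (f.scaleRoots (d : K))] {B : ℕ}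
    (h : GoodJ k l (twf (d ^ f.natDegree) f) B) : GoodJ k l (f.scaleRoots (d : K)) B := by
  have hd : algebraMap K (SeparableClosure K) (d : K) ≠ 0 := by
    rw [Ne, map_eq_zero_iff _ (algebraMap K (SeparableClosure K)).injective]
    exact d.ne_zero
  have hc : ((f.scaleRoots (d : K)).map (algebraMap K (SeparableClosure K))).comp
      (C (algebraMap K (SeparableClosure K) (d : K)) * X) =
      (twf (d ^ f.natDegree) f).map (algebraMap K (SeparableClosure K)) := by
    have h1 := congrArg (Polynomial.map (algebraMap K (SeparableClosure K)))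
      (scaleRoots_comp f (d : K))
    rw [Polynomial.map_comp, Polynomial.map_mul, map_C, map_X] at h1
    rw [h1, twf, Units.val_pow_eq_pow_val]
  refine Pool.Agent.SmS.Fn.good_congr k
    (MulEquiv.toAdditive (ClassGroup.mulEquiv (scCo l hd hc))) (fun s Q => ?_) h
  have h2 := mulEquiv_nat (scCo l hd hc)
    (Pool.Agent.SmS.coMap (l := l) (s : SeparableClosure K ≃+* SeparableClosure K)
      (Pool.Agent.SmS.Fn.map_galP (SeparableClosure K) (f.scaleRoots (d : K)) s) 1 (one_pow l))
    (Pool.Agent.SmS.coMap (l := l) (s : SeparableClosure K ≃+* SeparableClosure K)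
      (Pool.Agent.SmS.Fn.map_galP (SeparableClosure K) (twf (d ^ f.natDegree) f) s) 1 (one_pow l))
    (fun z => scCo_act hd hc _ _ _ (s.commutes (d : K)) z) (Additive.toMul Q)
  exact congrArg Additive.ofMul h2

theorem copDeg_pol {r : ℕ} (h : l.Coprime (r + 1)) (a : Fin r → K) : CopDeg l (pol r a) :=
  ⟨by rw [natDegree_pol]; exact h⟩

private theorem goodL_of_eq {f g : K[X]} [CopDeg l f] (e : f = g) {B : ℕ} (h : GoodJ k l f B) :
    GoodL k l g B := by
  subst e
  exact ⟨inferInstance, h⟩

private theorem goodJ_exp {f : K[X]} [CopDeg l f] {d : Kˣ} {n m : ℕ} (e : n = m) {B : ℕ}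
    (h : GoodJ k l (twf (d ^ n) f) B) : GoodJ k l (twf (d ^ m) f) B := by
  subst e
  exact h

theorem good_sc {r : ℕ} (hr : l.Coprime (r + 1)) (b : Fin r → K) [CopDeg l (pol r b)] (d : Kˣ)
    {B : ℕ} (h : GoodJ k l (twf (d ^ (r + 1)) (pol r b)) B) :
    GoodL k l (pol r (sc (d : K) b)) B := by
  have e := scaleRoots_pol r b (d : K)
  have : CopDeg l ((pol r b).scaleRoots (d : K)) := by
    rw [e]
    exact copDeg_pol hr _
  exact goodL_of_eq e (good_scaleRoots d (goodJ_exp (natDegree_pol r b).symm h))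

end Pool.Agent.HS
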