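import Pool.Agent.Lib.HS.Cnt
import Pool.Agent.Lib.HS.Tr
import Pool.Agent.Lib.HS.MdX

/-!
HS (all superelliptic curves over a global function field, MP_950c68_ag), module FixS.
From the twists `y ^ l = D f(x)`, ordered by the conductor of `D`, to the curves of one shape, ordered by the
twist degree.
-/

set_option autoImplicit false

open Polynomial

namespace Pool.Agent.HS

open Pool.Agent.BSDFF Pool.Agent.GBC Pool.Agent.GBU
open Pool.Agent.SmS (CopDeg)
open Pool.Agent.SmS.Fn (Tws twf GoodJ GoodOn TwLE ramDeg)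

section mono

variable {k K : Type} [Field k] [Field K] [Algebra k K]

theorem TwO_mono {l : ℕ} {O : Place k K → ℤ} {N : ℕ} {P Q : Kˣ → Prop} (h : ∀ d : Kˣ, P d → Q d) :
    TwO k l O N P ⊆ TwO k l O N Q := by
  rintro c ⟨d, h1, h2, h3⟩
  exact ⟨d, h1, h2, h _ h3⟩

theorem goodOn_mono {K Ω : Type} [Field K] [Field Ω] [Algebra k K] [Algebra K Ω] {M : Type}
    [AddCommGroup M] {ρ : (Ω ≃ₐ[K] Ω) → M →+ M} {l B B' : ℕ} (hB : B ≤ B')
    (h : GoodOn k ρ l B) : GoodOn k ρ l B' :=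
  ⟨fun i => ⟨(h.sel i).1, (h.sel i).2.trans hB⟩, ⟨h.sha.1, h.sha.2.trans hB⟩,
    fun i => ⟨(h.rat i).1, (h.rat i).2.trans hB⟩⟩

theorem goodL_mono {l : ℕ} [Fact l.Prime] {f : K[X]} {B B' : ℕ} (hB : B ≤ B')
    (h : GoodL k l f B) : GoodL k l f B' := by
  obtain ⟨h1, h2⟩ := h
  exact ⟨h1, goodOn_mono hB h2⟩

theorem TwLE_eq (l N : ℕ) (P : Kˣ → Prop) : TwLE k l N P = TwO k l (fun _ => 0) N P := by
  have h : ∀ d : K, ramDeg k l d = ramO k l (fun _ => 0) d := by
    intro d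
    unfold ramDeg ramO
    refine finsum_congr fun v => ?_
    simp only [zero_sub, dvd_neg]
  ext c
  simp only [TwLE, TwO, h]

private theorem pow_inj_of {G : Type} [CommGroup G] {l n : ℕ} (h : l.Coprime n)
    (hex : ∀ c : G, c ^ l = 1) : Function.Injective fun c : G => c ^ n := by
  intro c c' hcc
  have h1 : (c / c') ^ n = 1 := by
    change c ^ n = c' ^ n at hcc
    rw [div_pow, hcc, div_self']
  have h3 : orderOf (c / c') ∣ Nat.gcd l n := Nat.dvd_gcd (orderOf_dvd_of_pow_eq_one (hex _))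
    (orderOf_dvd_of_pow_eq_one h1)
  rw [h.gcd_eq_one, Nat.dvd_one, orderOf_eq_one_iff, div_eq_one] at h3
  exact h3

/-- The power map is injective on the twists. -/
theorem tws_pow_inj {l n : ℕ} (h : l.Coprime n) :
    Function.Injective fun c : Tws l K => c ^ n := by
  refine pow_inj_of (G := Tws l K) h fun c => ?_
  obtain ⟨d, rfl⟩ := QuotientGroup.mk_surjective c
  rw [← QuotientGroup.mk_pow, QuotientGroup.eq_one_iff]
  exact ⟨d, rfl⟩

end mono

variable {k K : Type} [Field k] [Field K] [Algebra k K]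
variable [Finite k] [Algebra (RatFunc k) K] [IsScalarTower k (RatFunc k) K]
  [FiniteDimensional (RatFunc k) K] [Algebra.IsSeparable (RatFunc k) K]

/-- The conductor degree of `d ^ n` and the twist degree. -/
private theorem ram_le {l n : ℕ} {O : Place k K → ℤ}
    (hO : (Function.support O).Finite) (d : Kˣ) :
    ramO k l (fun _ => 0) ((d ^ n : Kˣ) : K) ≤
      ramO k l O (d : K) + ∑ v ∈ hO.toFinset, v.degree := by
  classical
  obtain ⟨G, -⟩ := exists_geo k K
  have hf1 : {v : Place k K | ord v (d : K) ≠ 0}.Finite := by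
    obtain ⟨D, hD⟩ := exists_pdiv G d.ne_zero
    refine D.support.finite_toSet.subset fun v hv => ?_
    rw [Finset.mem_coe, Finsupp.mem_support_iff, hD]
    exact hv
  set T : Finset (Place k K) := hf1.toFinset ∪ hO.toFinset with hT
  have hz : ∀ v ∉ T, ord v (d : K) = 0 ∧ O v = 0 := by
    intro v hv
    rw [hT, Finset.mem_union, not_or, Set.Finite.mem_toFinset, Set.Finite.mem_toFinset] at hv
    exact ⟨not_not.1 hv.1, not_not.1 hv.2⟩
  have h1 : ramO k l (fun _ => 0) ((d ^ n : Kˣ) : K) =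
      ∑ v ∈ T, if (l : ℤ) ∣ 0 - ord v ((d ^ n : Kˣ) : K) then 0 else v.degree := by
    unfold ramO
    refine finsum_eq_sum_of_support_subset _ fun v hv => ?_
    rw [Finset.mem_coe]
    by_contra hvT
    apply hv
    change (if (l : ℤ) ∣ 0 - ord v ((d ^ n : Kˣ) : K) then 0 else v.degree) = 0
    rw [Units.val_pow_eq_pow_val, ord_pow v d.ne_zero, (hz v hvT).1, mul_zero, sub_zero]
    simp
  have h2 : ramO k l O (d : K) =
      ∑ v ∈ T, if (l : ℤ) ∣ O v - ord v (d : K) then 0 else v.degree := by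
    unfold ramO
    refine finsum_eq_sum_of_support_subset _ fun v hv => ?_
    rw [Finset.mem_coe]
    by_contra hvT
    apply hv
    change (if (l : ℤ) ∣ O v - ord v (d : K) then 0 else v.degree) = 0
    rw [(hz v hvT).1, (hz v hvT).2, sub_zero]
    simp
  have h3 : ∑ v ∈ hO.toFinset, v.degree = ∑ v ∈ T, if O v = 0 then 0 else v.degree := by
    rw [← Finset.sum_subset (s₁ := hO.toFinset) (s₂ := T) Finset.subset_union_right]
    · refine Finset.sum_congr rfl fun v hv => ?_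
      rw [if_neg ((Set.Finite.mem_toFinset _).1 hv)]
    · intro v _ hv
      rw [Set.Finite.mem_toFinset] at hv
      rw [if_pos (not_not.1 hv)]
  rw [h1, h2, h3, ← Finset.sum_add_distrib]
  refine Finset.sum_le_sum fun v _ => ?_
  by_cases hv1 : (l : ℤ) ∣ 0 - ord v ((d ^ n : Kˣ) : K)
  · rw [if_pos hv1]
    exact Nat.zero_le _
  · rw [if_neg hv1]
    by_cases hv2 : O v = 0
    · have h4 : ¬ (l : ℤ) ∣ O v - ord v (d : K) := by
        intro h5
        apply hv1
        rw [hv2, zero_sub, dvd_neg] at h5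
        rw [zero_sub, dvd_neg, Units.val_pow_eq_pow_val, ord_pow v d.ne_zero]
        exact h5.mul_left _
      rw [if_neg h4]
      exact Nat.le_add_right _ _
    · rw [if_neg hv2]
      exact Nat.le_add_left _ _

theorem fix_of_twists {l : ℕ} [Fact l.Prime]
    (hk : ∀ x : K, IsIntegral k x → ∃ c : k, algebraMap k K c = x) {r : ℕ} (hr : 1 ≤ r)
    (hlr : l.Coprime (r + 1)) {b : Fin r → K} (hs : (pol r b).Separable) [CopDeg l (pol r b)]
    (hT : ∀ ε : ℝ, 0 < ε → ∃ B N₀ : ℕ, ∀ N ≥ N₀,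
      ((TwLE k l N (fun D => ¬ GoodJ k l (twf D (pol r b)) B)).ncard : ℝ) ≤
        ε * (TwLE k l N (fun _ : Kˣ => True)).ncard) (ε : ℝ) (hε : 0 < ε) :
    ∃ B₀ : ℕ, ∀ B ≥ B₀, ∃ N₀ : ℕ, ∀ N ≥ N₀,
      ((TwO k l (fun v => md v b) N fun d => ¬ GoodL k l (pol r (sc (d : K) b)) B).ncard : ℝ) ≤
        ε * (TwO k l (fun v => md v b) N fun _ => True).ncard := by
  have hl : l.Prime := Fact.out
  obtain ⟨G, -⟩ := exists_geo k K
  have hO : (Function.support fun v : Place k K => md v b).Finite :=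
    md_finite G (ne_zero_of_sep hr hs)
  have hO0 : (Function.support fun _ : Place k K => (0 : ℤ)).Finite := by
    simp
  obtain ⟨c, C, hc, hC, N₁, hb⟩ := TwO_bounds (k := k) (K := K) hl hk
  set t : ℕ := ∑ v ∈ hO.toFinset, v.degree with ht
  have hq : (1 : ℝ) ≤ Nat.card k := by
    have : 0 < Nat.card k := Nat.card_pos
    exact_mod_cast this
  set q : ℝ := (Nat.card k : ℝ) with hqd
  set A : ℝ := C * (2 ^ (l - 2) * q ^ t) with hA
  have hA0 : 0 < A := by positivity
  obtain ⟨B₀, N₂, h1⟩ := hT (ε * c / A) (by positivity)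
  refine ⟨B₀, fun B hB => ⟨max (max N₁ N₂) (t + 1), fun N hN => ?_⟩⟩
  have hN1 : N₁ ≤ N := ((le_max_left _ _).trans (le_max_left _ _)).trans hN
  have hN2 : N₂ ≤ N := ((le_max_right _ _).trans (le_max_left _ _)).trans hN
  have hN3 : t + 1 ≤ N := (le_max_right _ _).trans hN
  have h2 := h1 (N + t) (by omega)
  rw [TwLE_eq, TwLE_eq] at h2
  have h3 := (hb _ hO0 (N + t) (by omega)).2
  have h4 := (hb _ hO N hN1).1
  have hfin : (TwO k l (fun _ => 0) (N + t)
      fun D => ¬ GoodJ k l (twf D (pol r b)) B₀).Finite :=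
    (finite_TwO hl hO0 (N + t)).subset (TwO_mono fun _ _ => trivial)
  have h5 : (TwO k l (fun v => md v b) N
      fun d => ¬ GoodL k l (pol r (sc (d : K) b)) B).ncard ≤
      (TwO k l (fun _ => 0) (N + t) fun D => ¬ GoodJ k l (twf D (pol r b)) B₀).ncard := by
    refine Set.ncard_le_ncard_of_injOn (fun c : Tws l K => c ^ (r + 1)) ?_
      (tws_pow_inj hlr).injOn hfin
    rintro _ ⟨d, rfl, hd1, hd2⟩
    refine ⟨d ^ (r + 1), QuotientGroup.mk_pow _ _ _, ?_, fun h6 => hd2 ?_⟩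
    · exact (ram_le hO d).trans (Nat.add_le_add_right hd1 t)
    · exact goodL_mono hB (good_sc hlr b d h6)
  have h6 : ((N + t : ℕ) : ℝ) ^ (l - 2) * q ^ (N + t) ≤
      2 ^ (l - 2) * q ^ t * ((N : ℝ) ^ (l - 2) * q ^ N) := by
    have h7 : ((N + t : ℕ) : ℝ) ≤ 2 * N := by
      have : N + t ≤ 2 * N := by omega
      exact_mod_cast this
    have h8 : ((N + t : ℕ) : ℝ) ^ (l - 2) ≤ 2 ^ (l - 2) * (N : ℝ) ^ (l - 2) := by
      rw [← mul_pow]
      exact pow_le_pow_left₀ (Nat.cast_nonneg _) h7 _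
    calc ((N + t : ℕ) : ℝ) ^ (l - 2) * q ^ (N + t)
        ≤ 2 ^ (l - 2) * (N : ℝ) ^ (l - 2) * q ^ (N + t) :=
          mul_le_mul_of_nonneg_right h8 (by positivity)
      _ = _ := by rw [pow_add]; ring
  calc ((TwO k l (fun v => md v b) N
        fun d => ¬ GoodL k l (pol r (sc (d : K) b)) B).ncard : ℝ)
      ≤ (TwO k l (fun _ => 0) (N + t) fun D => ¬ GoodJ k l (twf D (pol r b)) B₀).ncard := by
        exact_mod_cast h5
    _ ≤ ε * c / A * (TwO k l (fun _ => 0) (N + t) fun _ => True).ncard := h2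
    _ ≤ ε * c / A * (C * (((N + t : ℕ) : ℝ) ^ (l - 2) * q ^ (N + t))) :=
        mul_le_mul_of_nonneg_left h3 (by positivity)
    _ ≤ ε * c / A * (C * (2 ^ (l - 2) * q ^ t * ((N : ℝ) ^ (l - 2) * q ^ N))) :=
        mul_le_mul_of_nonneg_left (mul_le_mul_of_nonneg_left h6 hC.le) (by positivity)
    _ = ε * (c * ((N : ℝ) ^ (l - 2) * q ^ N)) := by
        rw [hA]
        field_simp
    _ ≤ ε * (TwO k l (fun v => md v b) N fun _ => True).ncard :=
        mul_le_mul_of_nonneg_left h4 hε.le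

end Pool.Agent.HS
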