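import Pool.Agent.Lib.HS.Sur

/-!
HA: the reductions at the places of a finite set `S` of the elements of a large box are equidistributed.
-/

set_option autoImplicit false

namespace Pool.Agent.HS

open Pool.Agent.BSDFF Pool.Agent.GBC Pool.Agent.GBU
open IsLocalRing (ResidueField residue)

/-- The number of the elements of a preimage under a surjective homomorphism. -/
theorem card_preimage {A B : Type*} [AddCommGroup A] [AddCommGroup B] (φ : A →+ B)
    (hφ : Function.Surjective φ) (Z : Set B) :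
    Nat.card (φ ⁻¹' Z) = Nat.card Z * Nat.card φ.ker := by
  obtain ⟨s, hs⟩ := hφ.hasRightInverse
  rw [← Nat.card_prod]
  refine Nat.card_congr ⟨fun a => (⟨φ a, a.2⟩, ⟨a - s (φ a), ?_⟩), fun z => ⟨s z.1 + z.2, ?_⟩,
    fun a => ?_, fun z => ?_⟩
  · rw [AddMonoidHom.mem_ker, map_sub, hs, sub_self]
  · have h := z.2.2
    rw [AddMonoidHom.mem_ker] at h
    rw [Set.mem_preimage, map_add, hs, h, add_zero]
    exact z.1.2
  · apply Subtype.ext
    change s (φ a) + ((a : A) - s (φ a)) = a
    abel
  · obtain ⟨⟨z, hz⟩, ⟨n, hn⟩⟩ := z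
    rw [AddMonoidHom.mem_ker] at hn
    have h1 : φ (s z + n) = z := by rw [map_add, hs, hn, add_zero]
    refine Prod.ext (Subtype.ext h1) (Subtype.ext ?_)
    change s z + n - s (φ (s z + n)) = n
    rw [h1]
    abel

variable {k K : Type} [Field k] [Field K] [Algebra k K]

theorem mem_Box {g : ℕ} {D : Place k K →₀ ℤ} {a : Fin g → K} :
    a ∈ Box g D ↔ ∀ j : Fin g, a j ∈ LL (((j : ℕ) + 2) • D) := by
  unfold Box
  rw [Submodule.mem_pi]
  exact ⟨fun h j => h j (Set.mem_univ j), fun h j _ => h j⟩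

/-- The vectors of a box are integral at the places at which `D` is zero. -/
theorem intV_of_mem_Box {g : ℕ} {D : Place k K →₀ ℤ} {a : Fin g → K} (ha : a ∈ Box g D)
    {v : Place k K} (hv : D v = 0) : IntV v a := fun j =>
  mem_ring_of_mem_LL (mem_Box.1 ha j) (by rw [Finsupp.smul_apply, hv, smul_zero])

theorem redV_add {g : ℕ} {v : Place k K} {a b : Fin g → K} (ha : IntV v a) (hb : IntV v b) :
    redV v (a + b) = redV v a + redV v b := by
  funext j
  exact red_add v (ha j) (hb j)

theorem redV_zero {g : ℕ} (v : Place k K) : redV v (0 : Fin g → K) = 0 := by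
  funext j
  exact red_zero v

/-- The reductions at the places of `S`. -/
noncomputable def redS (g : ℕ) (D : Place k K →₀ ℤ) (S : Finset (Place k K))
    (hD : ∀ v ∈ S, D v = 0) :
    Box g D →+ ((v : S) → (Fin g → ResidueField (v : Place k K).ring)) where
  toFun a v := redV (v : Place k K) (a : Fin g → K)
  map_zero' := by
    funext v
    exact redV_zero (v : Place k K)
  map_add' a b := by
    funext v
    exact redV_add (intV_of_mem_Box a.2 (hD v v.2)) (intV_of_mem_Box b.2 (hD v v.2))

/-- **The reductions are arbitrary.** -/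
theorem exists_box [Finite k] (G : Geo k K) (g : ℕ) (S : Finset (Place k K)) :
    ∃ C : ℤ, ∀ D : Place k K →₀ ℤ, (∀ v ∈ S, D v = 0) → C ≤ degD D →
      ∀ y : (v : Place k K) → (Fin g → ResidueField v.ring),
        ∃ a ∈ Box g D, ∀ v ∈ S, redV v a = y v := by
  obtain ⟨C, hC⟩ := exists_LL G S
  refine ⟨max C 0, fun D hD hdeg y => ?_⟩
  have h1 : ∀ j : Fin g, ∃ u ∈ LL (((j : ℕ) + 2) • D), ∀ v ∈ S, red v u = y v j := fun j => by
    refine hC (((j : ℕ) + 2) • D) (fun v hv => ?_) ?_ fun v => y v j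
    · rw [Finsupp.smul_apply, hD v hv, smul_zero]
    · rw [degD_nsmul]
      have h2 : (0 : ℤ) ≤ degD D := (le_max_right _ _).trans hdeg
      have h3 : C ≤ degD D := (le_max_left _ _).trans hdeg
      push_cast
      nlinarith
  choose a ha hav using h1
  refine ⟨a, mem_Box.2 ha, fun v hv => ?_⟩
  funext j
  exact hav j v hv

/-- **The sieve**: the reductions at the places of `S` of the vectors of a large box are
equidistributed. -/
theorem sieve [Finite k] (G : Geo k K) (g : ℕ) (S : Finset (Place k K)) :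
    ∃ C : ℤ, ∀ D : Place k K →₀ ℤ, (∀ v ∈ S, D v = 0) → C ≤ degD D →
      ∀ Z : (v : Place k K) → Set (Fin g → ResidueField v.ring),
        ({a : Fin g → K | a ∈ Box g D ∧ ∀ v ∈ S, redV v a ∈ Z v}.ncard : ℝ) =
          Nat.card (Box g D) *
            ∏ v ∈ S, ((Z v).ncard : ℝ) / Nat.card (Fin g → ResidueField v.ring) := by
  classical
  obtain ⟨C, hC⟩ := exists_box G g S
  refine ⟨C, fun D hD hdeg Z => ?_⟩
  have hfin : ∀ v : Place k K, Finite (ResidueField v.ring) := fun v => finite_res G v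
  set φ := redS g D S hD with hφ
  have hsurj : Function.Surjective φ := fun y => by
    obtain ⟨a, ha, hav⟩ := hC D hD hdeg
      (fun v => if h : v ∈ S then y ⟨v, h⟩ else 0)
    refine ⟨⟨a, ha⟩, ?_⟩
    funext v
    change redV (v : Place k K) a = y v
    rw [hav v v.2, dif_pos v.2]
  -- the preimage
  set ZS : Set ((v : S) → (Fin g → ResidueField (v : Place k K).ring)) :=
    Set.pi Set.univ fun v => Z v with hZS
  have h1 : {a : Fin g → K | a ∈ Box g D ∧ ∀ v ∈ S, redV v a ∈ Z v} =
      Subtype.val '' (φ ⁻¹' ZS) := by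
    ext a
    constructor
    · rintro ⟨ha, hav⟩
      exact ⟨⟨a, ha⟩, fun v _ => hav v v.2, rfl⟩
    · rintro ⟨a, ha, rfl⟩
      exact ⟨a.2, fun v hv => ha ⟨v, hv⟩ (Set.mem_univ _)⟩
  have h2 : {a : Fin g → K | a ∈ Box g D ∧ ∀ v ∈ S, redV v a ∈ Z v}.ncard =
      Nat.card ZS * Nat.card φ.ker := by
    rw [h1, Set.ncard_image_of_injective _ Subtype.val_injective, ← Nat.card_coe_set_eq]
    exact card_preimage φ hsurj ZS
  have h3 : Nat.card (Box g D) =
      Nat.card ((v : S) → (Fin g → ResidueField (v : Place k K).ring)) *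
        Nat.card φ.ker := by
    have h4 := card_preimage φ hsurj Set.univ
    rw [Set.preimage_univ, Nat.card_coe_set_eq, Set.ncard_univ, Nat.card_coe_set_eq,
      Set.ncard_univ] at h4
    exact h4
  have h5 : Nat.card ZS = ∏ v ∈ S, (Z v).ncard := by
    rw [Nat.card_congr (Equiv.Set.univPi fun v : S => Z v), Nat.card_pi, ← Finset.prod_coe_sort S]
    exact Finset.prod_congr rfl fun v _ => Nat.card_coe_set_eq _
  have h6 : Nat.card ((v : S) → (Fin g → ResidueField (v : Place k K).ring)) =
      ∏ v ∈ S, Nat.card (Fin g → ResidueField v.ring) := by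
    rw [Nat.card_pi, ← Finset.prod_coe_sort S]
  rw [h2, h3, h5, h6, Finset.prod_div_distrib]
  push_cast
  have h7 : (∏ v ∈ S, (Nat.card (Fin g → ResidueField v.ring) : ℝ)) ≠ 0 := by
    rw [Finset.prod_ne_zero_iff]
    intro v _
    have := hfin v
    exact_mod_cast Nat.card_pos.ne'
  field_simp

end Pool.Agent.HS
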