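import Pool.Agent.Lib.HS.Defs
import Pool.Agent.Lib.HS.Pairs
import Pool.Agent.Lib.HS.Sieve
import Pool.Agent.Lib.HA.Move
import Pool.Agent.Lib.HS.Upp
import Pool.Agent.Lib.HS.Pol

/-!
HS (all superelliptic curves over a global function field, MP_950c68_ag), module Low.
Lower bound for the number of shapes. Take a divisor `D` with `D v₀ = 0`, degree in `[M - c, M]`. By `sieve` a positive
proportion of the `a ∈ Box g D` is irreducible modulo `v₀`; these `pol g a` are irreducible over `K` (Gauss), so separable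
(the characteristic does not divide `(2 g + 1)!`). Cauchy-Schwarz: (number of these `a`)² ≤ (number of shapes) * (number of
pairs with the same shape), and the pairs are counted by `card_pairs`. `card_residue` is in `Plc`.
-/

set_option autoImplicit false

open Polynomial

namespace Pool.Agent.HS

open Pool.Agent.BSDFF Pool.Agent.GBC Pool.Agent.GBU
open Pool.Agent.HA (exists_ord exists_reps_deg card_htLE)
open IsLocalRing (ResidueField residue)

variable {k K : Type} [Field k] [Field K] [Algebra k K]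

/-- Gauss: a vector of type `A` at `v` has an irreducible polynomial. -/
private theorem Low_irreducible {g : ℕ} {v : Place k K} {a : Fin g → K}
    (h : At v TypA a) : Irreducible (pol g a) := by
  obtain ⟨hi, ht⟩ := h
  let b : Fin g → v.ring := fun j => ⟨a j, hi j⟩
  have h1 : (pol g b).map (residue v.ring) = pol g (redV v a) := by
    rw [map_pol]
    congr 1
    funext j
    exact (red_of_mem v (hi j)).symm
  have h2 : (pol g b).map (algebraMap v.ring K) = pol g a := by
    rw [map_pol]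
    rfl
  have hm : (pol g b).Monic := pol_monic _ b
  have h3 : Irreducible (pol g b) := by
    refine Monic.irreducible_of_irreducible_map (residue v.ring) _ hm ?_
    rw [h1]
    exact ht
  rw [← h2]
  exact (Monic.irreducible_iff_irreducible_map_fraction_map (K := K) hm).1 h3

/-- Separability. -/
private theorem Low_separable {g : ℕ} (hp : ((g + 1).factorial : k) ≠ 0)
    {a : Fin g → K} (h : Irreducible (pol g a)) : (pol g a).Separable := by
  rw [separable_iff_derivative_ne_zero h]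
  intro h0
  have h1 := congrArg (fun f => f.coeff g) h0
  beta_reduce at h1
  rw [coeff_derivative, coeff_zero] at h1
  have h2 : (pol g a).coeff (g + 1) = 1 := by
    have h3 := (pol_monic _ a).coeff_natDegree
    rwa [natDegree_pol] at h3
  rw [h2, one_mul] at h1
  have h4 : ((g + 1 : ℕ) : K) = 0 := by
    push_cast
    push_cast at h1
    exact h1
  apply hp
  have h5 : ((g + 1 : ℕ) : k) = 0 := by
    apply (algebraMap k K).injective
    rw [map_natCast, map_zero]
    exact h4
  rw [Nat.factorial_succ, Nat.cast_mul, h5, zero_mul]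

/-- Cauchy-Schwarz for the fibres of a map. -/
private theorem Low_cs {α β : Type*} [DecidableEq α] [DecidableEq β] (s : Finset α) (f : α → β) :
    s.card ^ 2 ≤ (s.image f).card * ((s ×ˢ s).filter fun p => f p.1 = f p.2).card := by
  classical
  have h1 : s.card = ∑ z ∈ s.image f, (s.filter fun a => f a = z).card :=
    Finset.card_eq_sum_card_image f s
  have h2 : ((s ×ˢ s).filter fun p => f p.1 = f p.2).card =
      ∑ z ∈ s.image f, (s.filter fun a => f a = z).card ^ 2 := by
    rw [Finset.card_eq_sum_card_fiberwise (f := fun p : α × α => f p.1) (t := s.image f)]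
    · refine Finset.sum_congr rfl fun z _ => ?_
      rw [sq, ← Finset.card_product]
      congr 1
      ext p
      simp only [Finset.mem_filter, Finset.mem_product]
      constructor
      · rintro ⟨⟨⟨h3, h4⟩, h5⟩, h6⟩
        exact ⟨⟨h3, h6⟩, h4, h5 ▸ h6⟩
      · rintro ⟨⟨h3, h6⟩, h4, h7⟩
        exact ⟨⟨⟨h3, h4⟩, h6.trans h7.symm⟩, h6⟩
    · intro p hp
      rw [Finset.mem_coe, Finset.mem_filter, Finset.mem_product] at hp
      exact Finset.mem_coe.2 (Finset.mem_image_of_mem f hp.1.1)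
  rw [h2]
  conv_lhs => rw [h1]
  exact sq_sum_le_card_mul_sum_sq

theorem le_shapes (G : Geo k K) [Finite k] {g : ℕ} (hg : 2 ≤ g)
    (hp : ((g + 1).factorial : k) ≠ 0) {v₀ : Place k K} {c₀ : ℝ} (hc₀ : 0 < c₀)
    (hA : c₀ * Nat.card (Fin g → ResidueField v₀.ring) ≤
      {y : Fin g → ResidueField v₀.ring | TypA (pol g y)}.ncard) :
    ∃ c : ℝ, 0 < c ∧ ∃ M₀ : ℕ, ∀ M ≥ M₀,
      c * (Nat.card k : ℝ) ^ (wt g * M) ≤ (Shapes k K g M fun _ => True).ncard := by
  classical
  obtain ⟨h, d₀, hrep⟩ := exists_reps_deg (k := k) (K := K) G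
  obtain ⟨C₁, hsv⟩ := sieve G g {v₀}
  obtain ⟨C₃, hex⟩ := exists_box G g {v₀}
  obtain ⟨B₁, hB₁, C₂, hbox⟩ := le_card_Box G g
  obtain ⟨B₂, hpairs⟩ := card_pairs G hg
  obtain ⟨h', d₁, hsh⟩ := shapes_le G (one_le_two.trans hg)
  have hq1 : 1 < Nat.card k := Finite.one_lt_card
  have hq : (1 : ℝ) ≤ Nat.card k := by exact_mod_cast hq1.le
  have hq0 : (0 : ℝ) < Nat.card k := by linarith
  have hB₁' : (0 : ℝ) < B₁ := by exact_mod_cast hB₁
  refine ⟨c₀ ^ 2 / (B₁ ^ 2 * (B₂ + 1) * (Nat.card k : ℝ) ^ (wt g * d₀)), by positivity,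
    d₀ + C₁.toNat + C₂.toNat + C₃.toNat, fun M hM => ?_⟩
  -- the divisor
  obtain ⟨D, hD0, hD1, hD2⟩ : ∃ D : Place k K →₀ ℤ, D v₀ = 0 ∧ ((M - d₀ : ℕ) : ℤ) ≤ degD D ∧
      degD D ≤ M := by
    obtain ⟨R, -, hR, hR'⟩ := hrep {v₀} (M - d₀)
    obtain ⟨D', hD', -⟩ := hR' 0 (by
      have h0 : degD (0 : Place k K →₀ ℤ) = 0 := Finsupp.sum_zero_index
      rw [h0]
      positivity)
    obtain ⟨h1, h2, h3⟩ := hR D' hD'
    refine ⟨D', h1 v₀ (Finset.mem_singleton_self _), h2, h3.trans ?_⟩
    omega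
  set n : ℕ := (degD D).toNat with hn
  have hDn : 0 ≤ degD D := le_trans (by positivity) hD1
  have hnD : (n : ℤ) = degD D := Int.toNat_of_nonneg hDn
  have hMn : M ≤ n + d₀ := by omega
  -- the vectors which are irreducible at the place
  let A : Set (Fin g → K) := {a | a ∈ Box g D ∧ At v₀ TypA a}
  have hBfin : (Box g D : Set (Fin g → K)).Finite := Set.finite_coe_iff.1 (finite_Box G g D)
  have hAfin : A.Finite := hBfin.subset fun a ha => ha.1
  have hAcard : c₀ * Nat.card (Box g D) ≤ (A.ncard : ℝ) := by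
    have h1 := hsv D (fun v hv => by rw [Finset.mem_singleton.1 hv]; exact hD0) (by omega)
      (fun v => {y | TypA (pol g y)})
    rw [Finset.prod_singleton] at h1
    have h2 : {a : Fin g → K | a ∈ Box g D ∧
        ∀ v ∈ ({v₀} : Finset (Place k K)), redV v a ∈ {y | TypA (pol g y)}} = A := by
      ext a
      simp only [Set.mem_ofPred_eq, Finset.mem_singleton, A, At]
      constructor
      · rintro ⟨h3, h4⟩
        exact ⟨h3, intV_of_mem_Box h3 hD0, h4 v₀ rfl⟩
      · rintro ⟨h3, -, h4⟩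
        refine ⟨h3, ?_⟩
        rintro v rfl
        exact h4
    rw [h2] at h1
    rw [h1, mul_comm c₀]
    refine mul_le_mul_of_nonneg_left ?_ (Nat.cast_nonneg _)
    have h3 : (0 : ℝ) < Nat.card (Fin g → ResidueField v₀.ring) := by
      have h4 : Finite (Fin g → ResidueField v₀.ring) := by
        have h5 : Finite (Box g D) := finite_Box G g D
        refine Finite.of_surjective (fun a : Box g D => redV v₀ (a : Fin g → K)) fun y => ?_
        obtain ⟨a, ha, ha'⟩ := hex D (fun v hv => by rw [Finset.mem_singleton.1 hv]; exact hD0)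
          (by omega) (fun v => if h : v₀ = v then h ▸ y else 0)
        refine ⟨⟨a, ha⟩, ?_⟩
        have h6 := ha' v₀ (Finset.mem_singleton_self _)
        rw [dif_pos rfl] at h6
        exact h6
      have h7 : 0 < Nat.card (Fin g → ResidueField v₀.ring) := Nat.card_pos
      exact_mod_cast h7
    rw [le_div_iff₀ h3]
    exact hA
  -- the image
  let AF : Finset (Fin g → K) := hAfin.toFinset
  let f : (Fin g → K) → Shp K g := fun a => Quotient.mk (scRel K g) a
  have hAF : A.ncard = AF.card := Set.ncard_eq_toFinset_card A hAfin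
  have hne : ∀ a ∈ AF, a ≠ 0 := fun a ha =>
    (md_eq_zero_A (one_le_two.trans hg) ((hAfin.mem_toFinset.1 ha).2)).1
  have himg : ((AF.image f).card : ℝ) ≤ ((Shapes k K g M fun _ => True).ncard : ℝ) := by
    obtain ⟨R, -, -, hR⟩ := hsh ∅ M
    have hfin := (hR (fun _ => True) fun _ _ _ _ => trivial).1
    have h1 : ((AF.image f : Finset (Shp K g)) : Set (Shp K g)) ⊆
        Shapes k K g M fun _ => True := by
      intro z hz
      rw [Finset.mem_coe, Finset.mem_image] at hz
      obtain ⟨a, ha, rfl⟩ := hz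
      have h2 := hAfin.mem_toFinset.1 ha
      refine ⟨a, rfl, Low_separable hp (Low_irreducible h2.2), ?_, trivial⟩
      exact (hgt_le_degD G (hne a ha) h2.1).trans hD2
    have h3 := Set.ncard_le_ncard h1 hfin
    rw [Set.ncard_coe_finset] at h3
    exact_mod_cast h3
  -- the pairs
  obtain ⟨hPfin, hPcard⟩ := hpairs D hDn
  have hpr : (((AF ×ˢ AF).filter fun p => f p.1 = f p.2).card : ℝ) ≤
      B₂ * (Nat.card k : ℝ) ^ (wt g * n) := by
    have h1 : (AF ×ˢ AF).filter (fun p => f p.1 = f p.2) ⊆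
        hPfin.toFinset.image fun p => (p.1, sc p.2 p.1) := by
      rintro ⟨a, b⟩ hab
      rw [Finset.mem_filter, Finset.mem_product] at hab
      obtain ⟨⟨ha, hb⟩, hab'⟩ := hab
      obtain ⟨u, hu, hub⟩ : ∃ u : K, u ≠ 0 ∧ b = sc u a := Quotient.exact hab'
      rw [Finset.mem_image]
      refine ⟨(a, u), ?_, by rw [hub]⟩
      rw [hPfin.mem_toFinset]
      refine ⟨hne a ha, (hAfin.mem_toFinset.1 ha).1, hu, ?_⟩
      change sc u a ∈ Box g D
      rw [← hub]
      exact (hAfin.mem_toFinset.1 hb).1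
    have h2 := (Finset.card_le_card h1).trans Finset.card_image_le
    rw [← Set.ncard_eq_toFinset_card _ hPfin] at h2
    exact_mod_cast h2.trans hPcard
  have hcs : (AF.card : ℝ) ^ 2 ≤ ((AF.image f).card : ℝ) *
      (((AF ×ˢ AF).filter fun p => f p.1 = f p.2).card : ℝ) := by
    exact_mod_cast Low_cs AF f
  -- the size of the box
  have hbx : (Nat.card k : ℝ) ^ (wt g * n) ≤ B₁ * Nat.card (Box g D) := by
    exact_mod_cast hbox D (by omega)
  set Q : ℝ := (Nat.card k : ℝ) ^ (wt g * n) with hQ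
  have hQ0 : 0 < Q := by positivity
  have h1 : c₀ * Q / B₁ ≤ (AF.card : ℝ) := by
    rw [← hAF]
    refine le_trans ?_ hAcard
    rw [mul_div_assoc]
    refine mul_le_mul_of_nonneg_left ?_ hc₀.le
    rw [div_le_iff₀ hB₁', mul_comm]
    exact hbx
  have h2 : (c₀ * Q / B₁) ^ 2 ≤ ((AF.image f).card : ℝ) * ((B₂ + 1) * Q) := by
    refine le_trans (pow_le_pow_left₀ (by positivity) h1 2) (hcs.trans ?_)
    refine mul_le_mul_of_nonneg_left (hpr.trans ?_) (Nat.cast_nonneg _)
    nlinarith
  have h3 : c₀ ^ 2 / (B₁ ^ 2 * (B₂ + 1)) * Q ≤ ((AF.image f).card : ℝ) := by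
    have h4 : c₀ ^ 2 / (B₁ ^ 2 * (B₂ + 1)) * Q * ((B₂ + 1) * Q) = (c₀ * Q / B₁) ^ 2 := by
      field_simp
    have h5 : 0 < (B₂ + 1) * Q := by positivity
    rw [← h4] at h2
    exact le_of_mul_le_mul_right h2 h5
  refine le_trans ?_ (h3.trans himg)
  have h6 : (Nat.card k : ℝ) ^ (wt g * M) ≤ (Nat.card k : ℝ) ^ (wt g * d₀) * Q := by
    rw [hQ, ← pow_add]
    refine pow_le_pow_right₀ hq ?_
    rw [← Nat.mul_add]
    refine Nat.mul_le_mul_left _ ?_
    omega
  have h7 : 0 < (Nat.card k : ℝ) ^ (wt g * d₀) := by positivity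
  calc c₀ ^ 2 / (B₁ ^ 2 * (B₂ + 1) * (Nat.card k : ℝ) ^ (wt g * d₀)) *
        (Nat.card k : ℝ) ^ (wt g * M)
      ≤ c₀ ^ 2 / (B₁ ^ 2 * (B₂ + 1) * (Nat.card k : ℝ) ^ (wt g * d₀)) *
        ((Nat.card k : ℝ) ^ (wt g * d₀) * Q) :=
        mul_le_mul_of_nonneg_left h6 (by positivity)
    _ = c₀ ^ 2 / (B₁ ^ 2 * (B₂ + 1)) * Q := by
        field_simp

end Pool.Agent.HS
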