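import Pool.Agent.Lib.HS.Fin
import Pool.Agent.Lib.SmS.Fn.Cst
import Pool.Agent.Lib.SmBU.CstK

/-!
HS (all superelliptic curves over a global function field, MP_950c68_ag), module Main.
The final theorem for any finitely generated extension `K` of transcendence degree one of a finite field `k`: the
case of `Fin` for the field of constants of `K`, and a comparison of the heights and degrees.
-/

set_option autoImplicit false

open Polynomial

namespace Pool.Agent.HS

open Pool.Agent.BSDFF Pool.Agent.GBC Pool.Agent.GBU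
open Pool.Agent.SmS (CopDeg)
open Pool.Agent.SmS.Fn (Tws twf GoodJ GoodOn TwLE ramDeg)
open Pool.Agent.SmN.Fnl (plE degree_plE finrank_pos const_iff cst finite_cst trdeg_cst
  essFinite_cst const_cst)

section const

variable (k k' : Type) {K : Type} [Field k] [Field k'] [Finite k] [Finite k'] [Field K]
  [Algebra k K] [Algebra k' K] {r : ℕ}

theorem md_const (v : Place k K) (a : Fin r → K) : md (plE k k' v) a = md v a := rfl

section height

variable [Algebra k k'] [IsScalarTower k k' K]

theorem hgt_const (a : Fin r → K) : hgt k a = (Module.finrank k k' : ℤ) * hgt k' a := by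
  have hn : (Module.finrank k k' : ℤ) ≠ 0 := by
    have := finrank_pos k k'
    exact_mod_cast this.ne'
  have h0 : Function.Injective (AddMonoidHom.mulLeft (Module.finrank k k' : ℤ)) := fun a b h =>
    mul_left_cancel₀ hn h
  have h1 := (AddMonoidHom.mulLeft (Module.finrank k k' : ℤ)).map_finsum_of_injective h0
    fun v : Place k' K => (v.degree : ℤ) * md v a
  change _ = AddMonoidHom.mulLeft (Module.finrank k k' : ℤ) (hgt k' a)
  unfold hgt
  rw [h1, ← finsum_comp_equiv (plE k k' : Place k K ≃ Place k' K)]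
  refine finsum_congr fun v => ?_
  rw [md_const, degree_plE k k' v, AddMonoidHom.coe_mulLeft, Nat.cast_mul, mul_assoc]

theorem tdg_const (l : ℕ) (a : Fin r → K) : tdg k l a = Module.finrank k k' * tdg k' l a := by
  have h0 : Function.Injective (AddMonoidHom.mulLeft (Module.finrank k k')) := fun a b h =>
    Nat.eq_of_mul_eq_mul_left (finrank_pos k k') h
  have h1 := (AddMonoidHom.mulLeft (Module.finrank k k')).map_finsum_of_injective h0
    fun v : Place k' K => if (l : ℤ) ∣ md v a then 0 else v.degree
  change _ = AddMonoidHom.mulLeft (Module.finrank k k') (tdg k' l a)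
  unfold tdg
  rw [h1, ← finsum_comp_equiv (plE k k' : Place k K ≃ Place k' K)]
  refine finsum_congr fun v => ?_
  rw [md_const, degree_plE k k' v, AddMonoidHom.coe_mulLeft]
  split_ifs
  · rfl
  · rfl

theorem fam_const (l M N : ℕ) (P : (Fin r → K) → Prop) :
    Fam k K l r M N P = Fam k' K l r (M / Module.finrank k k') (N / Module.finrank k k') P := by
  have hn := finrank_pos k k'
  ext C
  refine exists_congr fun a => and_congr_right fun _ => and_congr_right fun _ => ?_
  rw [hgt_const k k', tdg_const k k', Nat.le_div_iff_mul_le hn, mul_comm (tdg k' l a),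
    Int.natCast_div, Int.le_ediv_iff_mul_le (by exact_mod_cast hn), mul_comm (hgt k' a)]

end height

theorem goodL_const {l : ℕ} [Fact l.Prime] {f : K[X]} {B : ℕ} (h : GoodL k l f B) :
    GoodL k' l f B := by
  obtain ⟨h1, h2⟩ := h
  exact ⟨h1, SmS.Fn.goodOn_const k k' _ h2⟩

end const

/-- The final theorem, from the theorem on the twists of one curve over the field of constants. -/
theorem fam_of_twists (k K : Type) [Field k] [Finite k] [Field K] [Algebra k K]
    [Algebra.EssFiniteType k K] (hK : Algebra.trdeg k K = 1) {l : ℕ} [Fact l.Prime] (hl : l ≠ 2)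
    {r : ℕ} (hr : 1 ≤ r) (hlr : l.Coprime (r + 1)) (hp : ((r + 1).factorial : k) ≠ 0)
    (hT : ∀ b : Fin r → K, ∀ _ : CopDeg l (pol r b), (pol r b).Separable → GalS b →
      ∀ ε : ℝ, 0 < ε → ∃ B N₀ : ℕ, ∀ N ≥ N₀,
        ((TwLE (cst k K) l N (fun D => ¬ GoodJ (cst k K) l (twf D (pol r b)) B)).ncard : ℝ) ≤
          ε * (TwLE (cst k K) l N (fun _ : Kˣ => True)).ncard) :
    (∀ M N, (Fam k K l r M N fun _ => True).Finite) ∧
    ∀ ε : ℝ, 0 < ε → ∃ M₀ : ℕ, ∀ M ≥ M₀, ∃ B N₀ : ℕ, ∀ N ≥ N₀,
      0 < (Fam k K l r M N fun _ => True).ncard ∧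
      ((Fam k K l r M N fun a => ¬ GoodL k l (pol r a) B).ncard : ℝ) ≤
        ε * (Fam k K l r M N fun _ => True).ncard := by
  have := finite_cst k K hK
  have := essFinite_cst k K
  have h1 := trdeg_cst k K hK
  have : PerfectField (cst k K) := inferInstance
  have hlp : l.Prime := Fact.out
  obtain ⟨alg, h2, h3, h4⟩ := exists_ratFunc (cst k K) K h1
  have hp' : ((r + 1).factorial : cst k K) ≠ 0 := by
    intro h
    apply hp
    apply (algebraMap k (cst k K)).injective
    rw [map_natCast, map_zero]
    exact h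
  have hk : ∀ x : K, IsIntegral (cst k K) x → ∃ c : cst k K, algebraMap (cst k K) K c = x :=
    fun x hx => const_cst k K x (SmBU.isIntegral_iff_isC.1 hx)
  obtain ⟨h5, h6⟩ := fam_core hlp (hlp.odd_of_ne_two hl) hk hr hp'
    (fun B a => GoodL (cst k K) l (pol r a) B) fun b hb hg ε hε => by
      have hc := copDeg_pol hlr b
      exact fix_of_twists hk hr hlr hb (hT b hc hb hg) ε hε
  have hn := finrank_pos k (cst k K)
  refine ⟨fun M N => ?_, fun ε hε => ?_⟩
  · rw [fam_const k (cst k K)]
    exact h5 _ _
  · obtain ⟨M₀, h7⟩ := h6 ε hε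
    refine ⟨M₀ * Module.finrank k (cst k K), fun M hM => ?_⟩
    obtain ⟨B, N₀, h8⟩ := h7 (M / Module.finrank k (cst k K))
      ((Nat.le_div_iff_mul_le hn).2 hM)
    refine ⟨B, N₀ * Module.finrank k (cst k K), fun N hN => ?_⟩
    have h9 := h8 (N / Module.finrank k (cst k K)) ((Nat.le_div_iff_mul_le hn).2 hN)
    have h10 : (fun a : Fin r → K => ¬ GoodL k l (pol r a) B) =
        fun a => ¬ GoodL (cst k K) l (pol r a) B := by
      funext a
      exact propext (not_congr ⟨goodL_const k (cst k K), goodL_const (cst k K) k⟩)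
    rw [h10, fam_const k (cst k K), fam_const k (cst k K)]
    exact h9

end Pool.Agent.HS
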